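import Pool.Agent.Lib.MP_b33ea7_lc.Good

/-!
A computable tree of positive measure whose paths are not good, while the empty set is good.
-/

namespace Pool.Agent.Lib.MP_b33ea7_lc

open Pool.Agent.Shared.Oracle Pool.Agent.Lib.MP_5290c5_lc Nat.Partrec

attribute [local irreducible] Computable

/-- `t` codes a small set enumerated at level `n`, with the number of steps. -/
def okk (n t : ℕ) : Bool :=
  decide ((fs t.unpair.1).card ≤ (n - 2).unpair.2) &&
    (Code.evaln t.unpair.2 (Denumerable.ofNat Code (n - 2).unpair.1)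
      (Nat.pair n t.unpair.1)).isSome

/-- `t` is the first such code. -/
def fst' (n t : ℕ) : Bool := okk n t && (List.range t).all fun t' => !okk n t'

/-- `v` and `σ` agree below `n`. -/
def agr (n v : ℕ) (σ : List Bool) : Bool :=
  (List.range n).all fun i => decide (v.testBit i = σ.getD i false)

/-- The tree. -/
def tree (σ : List Bool) : Bool :=
  (List.range (σ.length + 1)).all fun n => (List.range σ.length).all fun t =>
    !fst' n t || (List.range t.unpair.1).all fun v => !decide (v ∈ fs t.unpair.1) || !agr n v σ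

open Classical in
/-- The set removed at level `n`. -/
noncomputable def kill (n : ℕ) : Finset ℕ :=
  if h : ∃ t, okk n t = true then fs (Nat.find h).unpair.1 else ∅

theorem c_okk : Computable fun x : ℕ × ℕ => okk x.1 x.2 := by
  unfold okk; fun_prop

theorem c_fst' : Computable fun x : ℕ × ℕ => fst' x.1 x.2 := by
  unfold fst'
  refine FP.c_and c_okk (FP.c_all (by fun_prop) (FP.c_not ?_))
  exact c_okk.comp (g := fun q : (ℕ × ℕ) × ℕ => (q.1.1, q.2)) (by fun_prop)

theorem c_agr : Computable fun x : ℕ × ℕ × List Bool => agr x.1 x.2.1 x.2.2 := by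
  unfold agr; fun_prop

theorem c_tree : Computable tree := by
  unfold tree
  refine FP.c_all (by fun_prop) (FP.c_all (by fun_prop) (FP.c_or (FP.c_not ?_)
    (FP.c_all (by fun_prop) (FP.c_or (by fun_prop) (FP.c_not ?_)))))
  · exact c_fst'.comp (g := fun q : (List Bool × ℕ) × ℕ => (q.1.2, q.2)) (by fun_prop)
  · exact c_agr.comp (g := fun q : ((List Bool × ℕ) × ℕ) × ℕ => (q.1.1.2, q.2, q.1.1.1))
      (by fun_prop)

theorem fst'_iff {n t : ℕ} : fst' n t = true ↔ ∃ h : ∃ t, okk n t = true, Nat.find h = t := by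
  simp only [fst', Bool.and_eq_true, List.all_eq_true, List.mem_range, Bool.not_eq_true',
    Nat.find_eq_iff, Bool.not_eq_true]
  exact ⟨fun h => ⟨⟨t, h.1⟩, h⟩, fun ⟨_, h⟩ => h⟩

theorem tree_iff {σ : List Bool} : tree σ = true ↔ ∀ n ≤ σ.length, ∀ t < σ.length,
    fst' n t = true → ∀ v ∈ fs t.unpair.1, ¬ ∀ i < n, v.testBit i = σ.getD i false := by
  simp only [tree, agr, List.all_eq_true, List.mem_range, Bool.or_eq_true, Bool.not_eq_true',
    decide_eq_false_iff_not, Nat.lt_succ_iff]
  refine forall_congr' fun n => imp_congr_right fun _ => forall_congr' fun t =>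
    imp_congr_right fun _ => ⟨fun h h1 v hv h2 => ?_, fun h => ?_⟩
  · rcases h with h | h
    · simp [h1] at h
    · rcases h v (by simpa using lt_code hv) with h | h
      · exact h hv
      · rw [← Bool.not_eq_true] at h
        exact h (by simpa using h2)
  · by_cases h1 : fst' n t = true
    · refine Or.inr fun v _ => ?_
      by_cases hv : v ∈ fs t.unpair.1
      · refine Or.inr ?_
        rw [← Bool.not_eq_true]
        simpa using h h1 v hv
      · exact Or.inl hv
    · exact Or.inl (by simpa using h1)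

theorem isTree_tree : IsTree tree := by
  rintro σ _ ⟨τ, rfl⟩ h
  rw [tree_iff] at h ⊢
  intro n hn t ht h1 v hv h2
  refine h n (by simp; omega) t (by simp; omega) h1 v hv fun i hi => ?_
  rw [h2 i hi, List.getD_append _ _ _ _ (by omega)]

theorem card_kill (n : ℕ) : (kill n).card ≤ n - 2 := by
  unfold kill
  split_ifs with h
  · have := Nat.find_spec h
    generalize Nat.find h = t at this
    simp only [okk, Bool.and_eq_true, decide_eq_true_eq] at this
    exact this.1.trans (Nat.unpair_right_le _)
  · simp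

theorem sum_bound (L : ℕ) :
    2 * ∑ n ∈ Finset.range (L + 2), (n - 2) * 2 ^ (L + 1 - n) + 2 * (L + 1) = 2 ^ (L + 1) := by
  induction L with
  | zero => simp [Finset.sum_range_succ]
  | succ L ih =>
    rw [Finset.sum_range_succ]
    have : ∑ n ∈ Finset.range (L + 2), (n - 2) * 2 ^ (L + 1 + 1 - n) =
        2 * ∑ n ∈ Finset.range (L + 2), (n - 2) * 2 ^ (L + 1 - n) := by
      rw [Finset.mul_sum]
      refine Finset.sum_congr rfl fun n hn => ?_
      rw [show L + 1 + 1 - n = L + 1 - n + 1 by simp at hn; omega, pow_succ]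
      ring
    rw [this, pow_succ 2 (L + 1), ← ih]
    simp
    ring

theorem card_agree (L n v : ℕ) (hn : n ≤ L) :
    (Finset.univ.filter fun s : Fin L → Bool =>
      ∀ i < n, v.testBit i = (List.ofFn s).getD i false).card ≤ 2 ^ (L - n) := by
  have h : (Finset.univ : Finset (Fin (L - n) → Bool)).card = 2 ^ (L - n) := by simp
  rw [← h]
  refine Finset.card_le_card_of_injOn (fun s i => s ⟨n + i, by omega⟩) (fun _ _ => by simp) ?_
  intro s hs s' hs' e
  simp only [Finset.coe_filter, Finset.mem_univ, true_and, Set.mem_ofPred_eq] at hs hs'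
  funext i
  by_cases hi : i.1 < n
  · have h1 := (hs i hi).symm.trans (hs' i hi)
    simpa using h1
  · have h1 := congrFun e ⟨i - n, by omega⟩
    simp only [show n + (i.1 - n) = i.1 by omega] at h1
    exact h1

theorem level_tree (L : ℕ) : 2 ^ L ≤ 2 * (level tree L).card := by
  classical
  have h1 : (level tree L)ᶜ ⊆ (Finset.range (L + 1)).biUnion fun n => (kill n).biUnion fun v =>
      Finset.univ.filter fun s : Fin L → Bool =>
        ∀ i < n, v.testBit i = (List.ofFn s).getD i false := by
    intro s hs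
    simp only [level, Finset.mem_compl, Finset.mem_filter, Finset.mem_univ, true_and,
      tree_iff, List.length_ofFn] at hs
    push Not at hs
    obtain ⟨n, hn, t, -, h1, v, hv, h2⟩ := hs
    obtain ⟨h, rfl⟩ := fst'_iff.1 h1
    exact Finset.mem_biUnion.2 ⟨n, Finset.mem_range.2 (by omega), Finset.mem_biUnion.2
      ⟨v, by rwa [kill, dif_pos h], Finset.mem_filter.2 ⟨Finset.mem_univ _, h2⟩⟩⟩
  have h2 : (level tree L)ᶜ.card ≤ ∑ n ∈ Finset.range (L + 1), (n - 2) * 2 ^ (L - n) :=
    (Finset.card_le_card h1).trans (Finset.card_biUnion_le.trans (Finset.sum_le_sum fun n hn =>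
      (Finset.card_biUnion_le_card_mul _ _ _ fun v _ =>
        card_agree L n v (by simp at hn; omega)).trans (Nat.mul_le_mul_right _ (card_kill n))))
  have h3 := Finset.card_add_card_compl (level tree L)
  simp only [Fintype.card_fun, Fintype.card_bool, Fintype.card_fin] at h3
  cases L with
  | zero =>
    simp only [zero_add, Finset.range_one, Finset.sum_singleton] at h2
    omega
  | succ L =>
    have := sum_bound L
    rw [show L + 1 + 1 = L + 2 from rfl] at h2
    omega

/-- The target. -/
noncomputable def tgt : Tgt := ⟨fun n => Finset.range (2 ^ n) \ kill n, fun _ => Finset.sdiff_subset⟩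

theorem good_emp : Good tgt emp := by
  rintro b w ⟨P, ⟨q, hq, e⟩, h⟩
  have h1 : REPred fun m : ℕ => ∃ k, q ((m.unpair.1, fs m.unpair.2), seg emp k) :=
    re_exists (R := fun (m : ℕ) k => q ((m.unpair.1, fs m.unpair.2), seg emp k))
      (re_comp hq (by unfold seg emp; fun_prop))
  obtain ⟨c, hc⟩ := Code.exists_code.1 h1
  have h2 : ∀ n a, w (n, fs a) ↔ ∃ t, (Code.evaln t c (Nat.pair n a)).isSome = true := by
    intro n a
    have h3 : w (n, fs a) ↔ ∃ x, x ∈ Code.eval c (Nat.pair n a) := by
      rw [hc, h, e]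
      simp [Part.mem_assert_iff]
    rw [h3]
    simp only [Code.evaln_complete, Option.isSome_iff_exists, Option.mem_def]
    exact exists_comm
  have h3 : ∀ t, okk (Nat.pair (Encodable.encode c) b + 2) t = true ↔ (fs t.unpair.1).card ≤ b ∧
      (Code.evaln t.unpair.2 c (Nat.pair (Nat.pair (Encodable.encode c) b + 2) t.unpair.1)).isSome
        = true := by
    intro t
    simp [okk]
  refine ⟨Nat.pair (Encodable.encode c) b + 2, ?_⟩
  by_cases h4 : ∃ t, okk (Nat.pair (Encodable.encode c) b + 2) t = true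
  · have h5 := (h3 _).1 (Nat.find_spec h4)
    refine Or.inr ⟨_, h5.1, (h2 _ _).2 ⟨_, h5.2⟩, ?_⟩
    simp only [tgt, kill, dif_pos h4]
    exact Finset.disjoint_sdiff
  · refine Or.inl fun A hA hw => h4 ?_
    rw [← fs_code A] at hw hA
    obtain ⟨t, ht⟩ := (h2 _ _).1 hw
    exact ⟨Nat.pair (code A) t, (h3 _).2 (by simpa using ⟨by simpa using hA, ht⟩)⟩

theorem not_good_of_path {X : Re} (hX : IsPath tree X) : ¬ Good tgt X := by
  intro h
  have h1 : SigIn X fun x : ℕ × Finset ℕ => ∃ v, v < 2 ^ x.1 ∧ x.2 = {v} ∧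
      ∀ i < x.1, X i = v.testBit i :=
    sigIn_bex (by fun_prop) (SigIn.and (SigIn.dec (by fun_prop)) (SigIn.ball (by fun_prop)
      (SigIn.orc (Red.refl X) (by fun_prop) (by fun_prop))))
  obtain ⟨n, h2 | ⟨A, -, ⟨v, h2, h3, h4⟩, h5⟩⟩ := h 1 _ h1
  · exact h2 {Nat.ofBits fun i : Fin n => X i} (by simp) ⟨_, Nat.ofBits_lt_two_pow _, rfl,
      fun i hi => (Nat.testBit_ofBits_lt (fun i : Fin n => X i) i hi).symm⟩
  · simp only at h2 h3 h4
    subst h3
    have h6 : v ∈ kill n := by simpa [tgt, h2] using h5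
    unfold kill at h6
    split_ifs at h6 with h7
    · refine tree_iff.1 (hX (n + Nat.find h7 + 1)) n (by simp; omega) (Nat.find h7)
        (by simp) (fst'_iff.2 ⟨h7, rfl⟩) v h6 fun i hi => ?_
      rw [← h4 i hi]
      simp [show i < n + Nat.find h7 + 1 by omega]
    · simp at h6

end Pool.Agent.Lib.MP_b33ea7_lc
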