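import Pool.Agent.Lib.MP_b33ea7_lc.Lower

/-!
At the Catalan bound the thin set principle for `n + 1` gives the free set principle for `n`,
unless arithmetical comprehension holds.
-/

namespace Pool.Agent.Lib.MP_b33ea7_lc

open Pool.Agent.Shared.Oracle Pool.Agent.Lib.MP_5290c5_lc

attribute [local irreducible] Computable

variable {f : ℕ → ℕ} {Z H : Re}

theorem glue {s t : BinaryTree Unit} {l l' : List ℕ} {b y z : ℕ} (a1 : Has f s l)
    (a2 : l.Pairwise (· < ·)) (a3 : ∀ a ∈ l, b ≤ a ∧ a ≤ y) (h3 : ¬ Big f b y) (hz : Big f y z)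
    (b1 : Has f t l') (b2 : l'.Pairwise (· < ·)) (b3 : ∀ a ∈ l', z + y < a) :
    Has f (.node () s t) (l ++ l') ∧ (l ++ l').Pairwise (· < ·) := by
  have e1 := a1.length
  have e2 := b1.length
  have g1 : ∀ i < s.numNodes + 1, (l ++ l').getD i 0 ∈ l := fun i hi => by
    rw [List.getD_append _ _ _ _ (by omega)]
    exact getD_mem (by omega)
  have g2 : ∀ i, s.numNodes + 1 ≤ i → i < (l ++ l').length → (l ++ l').getD i 0 ∈ l' :=
    fun i hi hi' => by
      rw [List.getD_append_right _ _ _ _ (by omega)]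
      exact getD_mem (by simp at hi'; omega)
  have g3 := b3 _ (g2 ((l ++ l').length - 1) (by simp; omega) (by simp; omega))
  refine ⟨⟨?_, ?_, ?_, fun i hi hL => h3 ?_⟩, List.pairwise_append.2 ⟨a2, b2, ?_⟩⟩
  · rwa [List.take_left' e1]
  · rwa [List.drop_left' e1]
  · have c1 := a3 _ (g1 s.numNodes (by omega))
    have c2 := b3 _ (g2 (s.numNodes + 1) le_rfl (by simp; omega))
    exact fun w _ => hz.mono c1.2 (by omega) w
  · have c1 := a3 _ (g1 i (by omega))
    have c2 := a3 _ (g1 (i + 1) (by omega))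
    exact (hL.big (hz.mono c1.2 (by omega))).mono c1.1 c2.2
  · intro a ha a' ha'
    have c1 := (a3 a ha).2
    have c2 := b3 a' ha'
    omega

theorem not_big (hf : ComputableIn {orc Z} f) (hn : ¬ SigIn Z fun i => i ∉ Set.range f)
    {w : ℕ × ℕ → Prop} (hw : SigIn Z w) (ht : ∀ b, ∃ y, w (b, y)) (b₀ : ℕ) :
    ∃ b y, b₀ ≤ b ∧ w (b, y) ∧ ¬ Big f b y := by
  by_contra hc
  push Not at hc
  refine hn ((SigIn.ex (p := fun i y => w (i + b₀, y) ∧ ∀ x < y, ¬ f x = i)
    (SigIn.and (hw.comp (by fun_prop)) (SigIn.ball (by fun_prop)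
      (Dec.of_cin (f := fun x : (ℕ × ℕ) × ℕ => f x.2) (cin_comp hf ComputableIn.snd)
        (r := fun y => y.1 = y.2.1.1) (Dec.dec (by fun_prop))).2))).congr fun i => ?_)
  constructor
  · rintro ⟨y, h1, h2⟩ ⟨x, rfl⟩
    exact hc _ y (by omega) h1 x ⟨by omega, h2⟩
  · intro h
    obtain ⟨y, hy⟩ := ht (i + b₀)
    exact ⟨y, hy, fun x _ hx => h ⟨x, hx⟩⟩

/-- An increasing list of shape `t` in `H` above `b`. -/
def Real' (f : ℕ → ℕ) (H : Re) (t : BinaryTree Unit) (b : ℕ) (l : List ℕ) : Prop :=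
  Has f t l ∧ l.Pairwise (· < ·) ∧ ∀ a ∈ l, H a = true ∧ b ≤ a

theorem sigIn_real (hf : ComputableIn {orc Z} f) (hH : Red H Z) (t : BinaryTree Unit) :
    SigIn Z fun x : (ℕ × ℕ) × List ℕ => Real' f H t x.1.1 x.2 ∧ ∀ a ∈ x.2, a ≤ x.1.2 :=
  SigIn.and (SigIn.and ((dec_has hf t).1.comp Computable.snd) (SigIn.and
    (sigIn_pairwise.comp Computable.snd) (sigIn_ball_list Computable.snd
      (SigIn.and (sigIn_true hH Computable.snd) (SigIn.dec (by fun_prop))))))
    (sigIn_ball_list Computable.snd (SigIn.dec (by fun_prop)))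

theorem Real'.glue {s t : BinaryTree Unit} {l l' : List ℕ} {b₀ b y z : ℕ} (h : Real' f H s b l)
    (hy : ∀ a ∈ l, a ≤ y) (hb : b₀ ≤ b) (h3 : ¬ Big f b y) (hz : Big f y z)
    (h' : Real' f H t (z + y + b₀ + 1) l') : Real' f H (.node () s t) b₀ (l ++ l') := by
  obtain ⟨c1, c2⟩ := Pool.Agent.Lib.MP_b33ea7_lc.glue h.1 h.2.1
    (fun a ha => ⟨(h.2.2 a ha).2, hy a ha⟩) h3 hz h'.1 h'.2.1
    fun a ha => by have := (h'.2.2 a ha).2; omega
  refine ⟨c1, c2, fun a ha => ?_⟩
  rcases List.mem_append.1 ha with ha | ha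
  · exact ⟨(h.2.2 a ha).1, hb.trans (h.2.2 a ha).2⟩
  · exact ⟨(h'.2.2 a ha).1, by have := (h'.2.2 a ha).2; omega⟩

/-- Every shape is realised by two lists that differ exactly at a given place. -/
theorem realize_two (hf : ComputableIn {orc Z} f) (hH : Red H Z) (hinf : Inf H)
    (hn : ¬ SigIn Z fun i => i ∉ Set.range f) (t : BinaryTree Unit) : ∀ j ≤ t.numNodes, ∀ b,
      ∃ x : (List ℕ × List ℕ) × ℕ × ℕ, (x.1.1.length = j ∧ x.2.1 < x.2.2) ∧
        Real' f H t b (x.1.1 ++ [x.2.1] ++ x.1.2) ∧ Real' f H t b (x.1.1 ++ [x.2.2] ++ x.1.2) := by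
  induction t with
  | nil =>
    intro j hj b
    obtain ⟨a, h1, h2⟩ := hinf b
    obtain ⟨a', h3, h4⟩ := hinf (a + 1)
    exact ⟨(([], []), a, a'), ⟨(Nat.le_zero.1 hj).symm, h3⟩,
      ⟨rfl, by simp, by simpa using ⟨h2, h1⟩⟩, rfl, by simp, by simpa using ⟨h4, by omega⟩⟩
  | node _ s t ihs iht =>
    intro j hj b
    by_cases h : j ≤ s.numNodes
    · obtain ⟨b', y, h1, ⟨x, a1, a2, a3⟩, h3⟩ := not_big hf hn
        (w := fun p => ∃ x : (List ℕ × List ℕ) × ℕ × ℕ, (x.1.1.length = j ∧ x.2.1 < x.2.2) ∧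
          (Real' f H s p.1 (x.1.1 ++ [x.2.1] ++ x.1.2) ∧ ∀ a ∈ x.1.1 ++ [x.2.1] ++ x.1.2, a ≤ p.2) ∧
          Real' f H s p.1 (x.1.1 ++ [x.2.2] ++ x.1.2) ∧ ∀ a ∈ x.1.1 ++ [x.2.2] ++ x.1.2, a ≤ p.2)
        (SigIn.ex (SigIn.and (SigIn.dec (by fun_prop)) (SigIn.and
          ((sigIn_real hf hH s).comp (f := fun x : (ℕ × ℕ) × (List ℕ × List ℕ) × ℕ × ℕ =>
            (x.1, x.2.1.1 ++ [x.2.2.1] ++ x.2.1.2)) (by fun_prop))
          ((sigIn_real hf hH s).comp (f := fun x : (ℕ × ℕ) × (List ℕ × List ℕ) × ℕ × ℕ =>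
            (x.1, x.2.1.1 ++ [x.2.2.2] ++ x.2.1.2)) (by fun_prop)))))
        (fun b => by
          obtain ⟨x, a1, a2, a3⟩ := ihs j h b
          exact ⟨(x.1.1 ++ [x.2.1] ++ x.1.2).sum + (x.1.1 ++ [x.2.2] ++ x.1.2).sum, x, a1,
            ⟨a2, fun a ha => (List.le_sum_of_mem ha).trans (Nat.le_add_right _ _)⟩, a3,
            fun a ha => (List.le_sum_of_mem ha).trans (Nat.le_add_left _ _)⟩) b
      obtain ⟨z, hz⟩ := exists_big (f := f) y
      obtain ⟨l, hl⟩ := realize hf hH hinf hn t (z + y + b + 1)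
      refine ⟨((x.1.1, x.1.2 ++ l), x.2), a1, ?_, ?_⟩ <;> rw [← List.append_assoc]
      · exact a2.1.glue a2.2 h1 h3 hz hl
      · exact a3.1.glue a3.2 h1 h3 hz hl
    · obtain ⟨b', y, h1, ⟨l, a1, a2⟩, h3⟩ := not_big hf hn
        (w := fun p => ∃ l, Real' f H s p.1 l ∧ ∀ a ∈ l, a ≤ p.2) (SigIn.ex (sigIn_real hf hH s))
        (fun b => by
          obtain ⟨l, hl⟩ := realize hf hH hinf hn s b
          exact ⟨l.sum, l, hl, fun a ha => List.le_sum_of_mem ha⟩) b
      obtain ⟨z, hz⟩ := exists_big (f := f) y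
      obtain ⟨x, b1, b2, b3⟩ := iht (j - (s.numNodes + 1))
        (by simp only [BinaryTree.numNodes] at hj; omega) (z + y + b + 1)
      have e := a1.1.length
      refine ⟨((l ++ x.1.1, x.1.2), x.2), ⟨by simp only [List.length_append]; omega, b1.2⟩, ?_, ?_⟩
      · simpa only [List.append_assoc] using a1.glue a2 h1 h3 hz b2
      · simpa only [List.append_assoc] using a1.glue a2 h1 h3 hz b3

theorem exists_shape (hf : ComputableIn {orc Z} f) (S : Finset (BinaryTree Unit)) :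
    ∃ g : List ℕ → ℕ, ComputableIn {orc Z} g ∧ (∀ l, g l ≤ S.card) ∧
      ∀ t ∈ S, ∀ l, Has f t l → g l = S.toList.idxOf t := by
  classical
  let g : List ℕ → ℕ := fun l =>
    if h : ∃ t ∈ S, Has f t l then S.toList.idxOf h.choose else S.card
  have hg : ∀ t ∈ S, ∀ l, Has f t l → g l = S.toList.idxOf t := fun t ht l hl => by
    have h1 : ∃ t ∈ S, Has f t l := ⟨t, ht, hl⟩
    simp only [g, dif_pos h1]
    rw [h1.choose_spec.2.unique hl]
  have h1 : SigIn Z fun x : List ℕ × ℕ => (∃ t ∈ S, Has f t x.1 ∧ S.toList.idxOf t = x.2) ∨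
      ((∀ t ∈ S, ¬ Has f t x.1) ∧ S.card = x.2) :=
    (S1.or (S1.exists_finset S fun t => S1.and (S1.of_sigIn ((dec_has hf t).1.comp Computable.fst))
      (S1.dec (by fun_prop))) (S1.and (S1.forall_finset S fun t =>
        S1.of_sigIn ((dec_has hf t).2.comp Computable.fst)) (S1.dec (by fun_prop)))).to_sigIn
  refine ⟨g, cin_of_graph (h1.congr fun x => ?_), fun l => ?_, hg⟩
  · by_cases h3 : ∃ t ∈ S, Has f t x.1
    · obtain ⟨t, t1, t2⟩ := h3
      rw [hg t t1 _ t2]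
      exact ⟨fun h => h.elim (fun ⟨t', a, b, c⟩ => b.unique t2 ▸ c) fun h => absurd t2 (h.1 t t1),
        fun h => Or.inl ⟨t, t1, t2, h⟩⟩
    · simp only [g, dif_neg h3]
      exact ⟨fun h => h.elim (fun ⟨t', a, b, _⟩ => absurd ⟨t', a, b⟩ h3) And.right,
        fun h => Or.inr ⟨fun t a b => h3 ⟨t, a, b⟩, h⟩⟩
  · simp only [g]
    split_ifs
    · exact List.idxOf_le_length.trans (by simp)
    · exact le_rfl

/-- The first place below `n` where a decidable property holds. -/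
theorem exists_first {P : List ℕ → ℕ → Prop} (hP : Dec Z fun x : List ℕ × ℕ => P x.1 x.2) (n : ℕ) :
    ∃ c : List ℕ → ℕ, ComputableIn {orc Z} c ∧
      ∀ l, c l ≤ n ∧ (c l < n → P l (c l)) ∧ ∀ i < c l, ¬ P l i := by
  classical
  have ex : ∀ l, ∃ i, i = n ∨ P l i := fun l => ⟨n, Or.inl rfl⟩
  have h1 : SigIn Z fun x : List ℕ × ℕ => (x.2 = n ∨ P x.1 x.2) ∧ ∀ i < x.2, ¬ i = n ∧ ¬ P x.1 i :=
    SigIn.and (SigIn.or (SigIn.dec (by fun_prop)) hP.1) (SigIn.ball (by fun_prop)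
      (SigIn.and (SigIn.dec (by fun_prop))
        (hP.2.comp (f := fun x : (List ℕ × ℕ) × ℕ => (x.1.1, x.2)) (by fun_prop))))
  refine ⟨fun l => Nat.find (ex l), cin_of_graph (h1.congr fun x => ?_), fun l =>
    ⟨Nat.find_le (Or.inl rfl), fun h => (Nat.find_spec (ex l)).resolve_left h.ne,
      fun i hi h => Nat.find_min (ex l) hi (Or.inr h)⟩⟩
  simp only [Nat.find_eq_iff, not_or]

theorem fs_of_rt {I : Set Re} (hI : IsIdeal I) {n : ℕ} (h : RT I (n + 1) (catalan n))
    (hA : ¬ ACA I) : FS I n := by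
  classical
  rintro F ⟨Z₁, hZ₁, hF⟩
  unfold ACA at hA
  push Not at hA
  obtain ⟨f, ⟨Z₀, hZ₀, hf⟩, hA⟩ := hA
  have hZ := hI.join _ hZ₀ _ hZ₁
  replace hf : ComputableIn {orc (join Z₀ Z₁)} f := cin_red hf (red_left _ _)
  replace hF : ComputableIn {orc (join Z₀ Z₁)} F := cin_red hF (red_right _ _)
  generalize join Z₀ Z₁ = Z at hZ hf hF
  let S := BinaryTree.treesOfNumNodesEq n
  obtain ⟨g, g1, g2, g3⟩ := exists_shape hf S
  obtain ⟨c, c1, c2⟩ := exists_first (Z := Z)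
    (P := fun l j => F (l.take j ++ l.drop (j + 1)) = l.getD j 0)
    (Dec.of_cin (f := fun x : List ℕ × ℕ => F (x.1.take x.2 ++ x.1.drop (x.2 + 1)))
      (cin_comp hF (Computable.computableIn (by fun_prop)))
      (r := fun y => y.1 = y.2.1.getD y.2.2 0) (Dec.dec (by fun_prop))) (n + 1)
  obtain ⟨H, hH, hinf, J, hJ, hthin⟩ := h ((S.card + 1) * (n + 2)) (fun l => g l * (n + 2) + c l)
    ⟨Z, hZ, cin_comp₂ (f := fun a b : ℕ => a * (n + 2) + b)
      (Computable.computableIn (by fun_prop)) g1 c1⟩ fun l => by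
      have := Nat.mul_le_mul_right (n + 2) (g2 l)
      have := (c2 l).1
      rw [Nat.add_mul]
      omega
  have hf' : ComputableIn {orc (join Z H)} f := cin_red hf (red_left _ _)
  have hn : ¬ SigIn (join Z H) fun i => i ∉ Set.range f := fun hn =>
    hA (hI.down _ ⟨_, hI.join Z hZ H hH, Dec.cin ⟨SigIn.ex (p := fun i x => f x = i)
      ((graph_of_cin hf').comp (f := fun x : ℕ × ℕ => (x.2, x.1)) (by fun_prop)), hn⟩⟩)
  have mem : ∀ t ∈ S, ∀ l, Real' f H t 0 l → S.toList.idxOf t * (n + 2) + c l ∈ J := by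
    intro t ht l hl
    rw [← g3 t ht l hl.1]
    exact hthin l (by rw [hl.1.length, BinaryTree.mem_treesOfNumNodesEq.1 ht]) hl.2.1
      fun a ha => (hl.2.2 a ha).1
  have dm : ∀ a a' l l', a * (n + 2) + c l = a' * (n + 2) + c l' → a = a' ∧ c l = c l' := by
    intro a a' l l' e
    have e1 := congrArg (· % (n + 2)) e
    simp only [Nat.mul_add_mod_self_right, Nat.mod_eq_of_lt (Nat.lt_succ_of_le (c2 _).1)] at e1
    rw [e1] at e
    exact ⟨Nat.eq_of_mul_eq_mul_right (by omega) (Nat.add_right_cancel e), e1⟩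
  choose r hr using fun t => realize hf' (red_right _ _) (inf_iff.2 hinf) hn t 0
  have sur : ∀ x ∈ J, ∃ t ∈ S, S.toList.idxOf t * (n + 2) + c (r t) = x := by
    have := Finset.surjOn_of_injOn_of_card_le (s := S) (t := J)
      (fun t => S.toList.idxOf t * (n + 2) + c (r t)) (fun t ht => mem t ht _ (hr t))
      (fun t ht t' _ e => (List.idxOf_inj (by simpa using ht)).1 (dm _ _ _ _ e).1)
      (by rwa [BinaryTree.treesOfNumNodesEq_card_eq_catalan])
    exact fun x hx => this hx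
  refine ⟨H, hH, hinf, fun s h1 h2 h3 h4 => ?_⟩
  by_contra h5
  obtain ⟨u, v, rfl, h6⟩ : ∃ u v, s = u ++ v ∧ (u ++ [F s] ++ v).Pairwise (· < ·) := by
    refine ⟨s.takeWhile (· < F s), s.dropWhile (· < F s), List.takeWhile_append_dropWhile.symm, ?_⟩
    generalize F s = a at h5
    clear h1 h3 h4
    induction s with
    | nil => simp
    | cons x s ih =>
      rw [List.pairwise_cons] at h2
      rw [List.mem_cons, not_or] at h5
      by_cases hx : x < a
      · have := ih h2.2 h5.2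
        simp only [List.takeWhile_cons, List.dropWhile_cons, hx, decide_true, if_true,
          List.cons_append, List.pairwise_cons]
        refine ⟨fun y hy => ?_, this⟩
        simp only [List.mem_append, List.mem_singleton] at hy
        rcases hy with (hy | rfl) | hy
        · exact h2.1 y ((List.takeWhile_sublist _).subset hy)
        · exact hx
        · exact h2.1 y ((List.dropWhile_sublist _).subset hy)
      · have h7 : a < x := by omega
        simp only [List.takeWhile_cons, List.dropWhile_cons, hx, decide_false]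
        simpa [h7] using ⟨fun y hy => h7.trans (h2.1 y hy), h2⟩
  have key : ∀ (u v : List ℕ) (a : ℕ),
      (u ++ [a] ++ v).take u.length ++ (u ++ [a] ++ v).drop (u.length + 1) = u ++ v ∧
        (u ++ [a] ++ v).getD u.length 0 = a := fun u v a => by simp
  set l := u ++ [F (u ++ v)] ++ v with hl
  have h7 : c l ≤ n := by
    by_contra h8
    rw [List.length_append] at h1
    exact (c2 l).2.2 u.length (by omega) (by rw [hl, (key u v _).1, (key u v _).2])
  obtain ⟨t, ht, e⟩ := sur _ (hthin l (by simp at h1; simp [hl]; omega) h6 fun a ha => by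
    simp only [hl, List.mem_append, List.mem_singleton] at ha h3
    rcases ha with (ha | rfl) | ha
    · exact h3 a (Or.inl ha)
    · exact h4
    · exact h3 a (Or.inr ha))
  have same : ∀ l', Real' f H t 0 l' → c l' = c l := fun l' hl' => by
    obtain ⟨t', ht', e'⟩ := sur _ (mem t ht l' hl')
    obtain ⟨e1, e2⟩ := dm _ _ _ _ e'
    rw [← e2, (List.idxOf_inj (by simpa using ht')).1 e1, (dm _ _ _ _ e).2]
  obtain ⟨x, ⟨a1, a2⟩, a3, a4⟩ := realize_two hf' (red_right _ _) (inf_iff.2 hinf) hn t (c l)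
    (by rwa [BinaryTree.mem_treesOfNumNodesEq.1 ht]) 0
  have b1 := (c2 _).2.1 ((same _ a3).trans_lt (Nat.lt_succ_of_le h7))
  have b2 := (c2 _).2.1 ((same _ a4).trans_lt (Nat.lt_succ_of_le h7))
  rw [same _ a3, ← a1, (key _ _ _).1, (key _ _ _).2] at b1
  rw [same _ a4, ← a1, (key _ _ _).1, (key _ _ _).2] at b2
  omega

end Pool.Agent.Lib.MP_b33ea7_lc
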