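import Pool.Agent.Lib.MP_b33ea7_lc.Fin

/-!
Predicates of a parameter and a point of Cantor space that are existential relative to an oracle.
-/

namespace Pool.Agent.Lib.MP_b33ea7_lc

open Pool.Agent.Shared.Oracle Pool.Agent.Lib.MP_5290c5_lc

attribute [local irreducible] Computable

variable {α β : Type} [Primcodable α] [Primcodable β]

/-- Points of Cantor space. -/
abbrev Re := ℕ → Bool

/-- Existential relative to `Z`, uniformly in a parameter and a point. -/
def S1 (Z : Re) (P : α → Re → Prop) : Prop :=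
  ∃ w : α × List Bool → Prop, SigIn Z w ∧ ∀ a p, P a p ↔ ∃ k, w (a, seg p k)

theorem sigIn_bex {Z : Re} {p : α → ℕ → Prop} {f : α → ℕ} (hf : Computable f)
    (h : SigIn Z fun x : α × ℕ => p x.1 x.2) : SigIn Z fun a => ∃ j, j < f a ∧ p a j :=
  SigIn.ex (p := fun a j => j < f a ∧ p a j) (SigIn.and (SigIn.dec (by fun_prop)) h)

namespace S1

variable {Z : Re} {P Q : α → Re → Prop}

theorem congr (h : S1 Z P) (e : ∀ a p, P a p ↔ Q a p) : S1 Z Q :=
  let ⟨w, hw, h⟩ := h
  ⟨w, hw, fun a p => (e a p).symm.trans (h a p)⟩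

theorem nf (h : S1 Z P) : ∃ w : α × List Bool → Prop, SigIn Z w ∧
    (∀ a σ τ, σ <+: τ → w (a, σ) → w (a, τ)) ∧ ∀ a p, P a p ↔ ∃ k, w (a, seg p k) := by
  obtain ⟨w, hw, h⟩ := h
  refine ⟨fun x => ∃ j, j < x.2.length + 1 ∧ w (x.1, x.2.take j), sigIn_bex (by fun_prop)
    (hw.comp (f := fun y : (α × List Bool) × ℕ => (y.1.1, y.1.2.take y.2)) (by fun_prop)), ?_, ?_⟩
  · rintro a σ _ ⟨τ, rfl⟩ ⟨j, hj, h⟩
    refine ⟨j, by simp at hj ⊢; omega, ?_⟩
    dsimp only at hj h ⊢
    rwa [List.take_append_of_le_length (by omega)]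
  · intro a p
    rw [h]
    constructor
    · rintro ⟨k, hk⟩
      exact ⟨k, k, by simp, by rwa [seg_take p le_rfl]⟩
    · rintro ⟨k, j, hj, h⟩
      simp only [seg_length] at hj
      rw [seg_take p (by omega)] at h
      exact ⟨j, h⟩

theorem of_sigIn {q : α → Prop} (hq : SigIn Z q) : S1 Z fun a _ => q a :=
  ⟨fun x => q x.1, hq.comp Computable.fst, fun _ _ => by simp⟩

theorem dec {q : α → Prop} (hq : Computable fun a => @decide (q a) (Classical.propDecidable _)) :
    S1 Z fun a _ => q a := of_sigIn (SigIn.dec hq)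

theorem comp {P : β → Re → Prop} {f : α → β} (h : S1 Z P) (hf : Computable f) :
    S1 Z fun a p => P (f a) p := by
  obtain ⟨w, hw, h⟩ := h
  exact ⟨fun x => w (f x.1, x.2), hw.comp (by fun_prop), fun a p => h _ _⟩

theorem or (hP : S1 Z P) (hQ : S1 Z Q) : S1 Z fun a p => P a p ∨ Q a p := by
  obtain ⟨v, hv, h⟩ := hP
  obtain ⟨w, hw, h'⟩ := hQ
  exact ⟨_, hv.or hw, fun a p => by beta_reduce; rw [h, h', exists_or]⟩

theorem and (hP : S1 Z P) (hQ : S1 Z Q) : S1 Z fun a p => P a p ∧ Q a p := by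
  obtain ⟨v, hv, mv, h⟩ := hP.nf
  obtain ⟨w, hw, mw, h'⟩ := hQ.nf
  refine ⟨_, hv.and hw, fun a p => ?_⟩
  beta_reduce
  rw [h, h']
  constructor
  · rintro ⟨⟨k, h1⟩, l, h2⟩
    exact ⟨k + l, mv _ _ _ (seg_prefix p (by omega)) h1, mw _ _ _ (seg_prefix p (by omega)) h2⟩
  · rintro ⟨k, h1, h2⟩
    exact ⟨⟨k, h1⟩, k, h2⟩

theorem ex {P : α → β → Re → Prop} (h : S1 Z fun (x : α × β) p => P x.1 x.2 p) :
    S1 Z fun a p => ∃ b, P a b p := by
  obtain ⟨w, hw, h⟩ := h
  refine ⟨fun x => ∃ b, w ((x.1, b), x.2), SigIn.ex (p := fun (x : α × List Bool) b =>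
    w ((x.1, b), x.2)) (hw.comp (by fun_prop)), fun a p => ?_⟩
  rw [exists_comm]
  exact exists_congr fun b => h (a, b) p

theorem ball {P : α → ℕ → Re → Prop} {f : α → ℕ} (hf : Computable f)
    (h : S1 Z fun (x : α × ℕ) p => P x.1 x.2 p) : S1 Z fun a p => ∀ j < f a, P a j p := by
  obtain ⟨w, hw, mw, h⟩ := h.nf
  refine ⟨fun x => ∀ j < f x.1, w ((x.1, j), x.2), SigIn.ball (by fun_prop)
    (hw.comp (f := fun y : (α × List Bool) × ℕ => ((y.1.1, y.2), y.1.2)) (by fun_prop)),
    fun a p => ⟨fun H => ?_, fun ⟨k, hk⟩ j hj => (h (a, j) p).2 ⟨k, hk j hj⟩⟩⟩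
  dsimp only at H ⊢
  generalize f a = n at H
  induction n with
  | zero => exact ⟨0, by simp⟩
  | succ n ih =>
    obtain ⟨k, hk⟩ := ih fun j hj => H j (by omega)
    obtain ⟨l, hl⟩ := (h (a, n) p).1 (H n (by omega))
    refine ⟨k + l, fun j hj => ?_⟩
    rcases (Nat.lt_succ_iff.1 hj).eq_or_lt with rfl | hlt
    · exact mw _ _ _ (seg_prefix p (by omega)) hl
    · exact mw _ _ _ (seg_prefix p (by omega)) (hk j hlt)

theorem pt {f : α → ℕ} {g : α → Bool} (hf : Computable f) (hg : Computable g) :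
    S1 Z fun a p => p (f a) = g a := by
  obtain ⟨w, hw, h⟩ := Sig.orc hf hg
  exact ⟨w, SigIn.of_re hw, h⟩

theorem red {Y : Re} (h : S1 Z P) (hZ : Red Z Y) : S1 Y P :=
  let ⟨w, hw, h⟩ := h
  ⟨w, hw.red hZ, h⟩

/-- The use property. -/
theorem use (h : S1 Z P) {a : α} {p : Re} (hp : P a p) :
    ∃ u, ∀ q : Re, (∀ i < u, q i = p i) → P a q := by
  obtain ⟨w, -, h⟩ := h
  obtain ⟨k, hk⟩ := (h a p).1 hp
  exact ⟨k, fun q hq => (h a q).2 ⟨k, by rwa [seg_congr.2 hq]⟩⟩

theorem isOpen (h : S1 Z P) (a : α) : IsOpen {p | P a p} := by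
  obtain ⟨w, -, h⟩ := h
  have : {p | P a p} = ⋃ k, {p | w (a, seg p k)} := by ext p; simp [h]
  rw [this]
  exact isOpen_iUnion fun k => (isClopen_seg (fun σ => w (a, σ)) k).isOpen

/-- Effective compactness. -/
theorem all (h : S1 Z P) : SigIn Z fun a => ∀ p, P a p := by
  obtain ⟨w, hw, mw, h⟩ := h.nf
  have h1 : SigIn Z fun a => ∃ L, ∀ m < 2 ^ L, w (a, seg (Nat.testBit m) L) :=
    SigIn.ex (p := fun a L => ∀ m < 2 ^ L, w (a, seg (Nat.testBit m) L))
      (SigIn.ball (p := fun (x : α × ℕ) m => w (x.1, seg (Nat.testBit m) x.2)) (by fun_prop)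
        (hw.comp (by unfold seg; fun_prop)))
  refine h1.congr fun a => ⟨?_, fun H => ?_⟩
  · rintro ⟨L, hL⟩ p
    obtain ⟨m, hm, em⟩ := exists_bits p L
    exact (h a p).2 ⟨L, em L le_rfl ▸ hL m hm⟩
  · by_contra hcon
    push Not at hcon
    have hK : ∀ L, IsClosed {p : Re | ¬ w (a, seg p L)} := fun L =>
      (isClopen_seg (fun σ => ¬ w (a, σ)) L).isClosed
    obtain ⟨p, hp⟩ := IsCompact.nonempty_iInter_of_sequence_nonempty_isCompact_isClosed
      (fun L => {p : Re | ¬ w (a, seg p L)})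
      (fun L p hp hw' => hp (mw _ _ _ (seg_prefix p (by omega)) hw'))
      (fun L => by
        obtain ⟨m, -, hm⟩ := hcon L
        exact ⟨_, hm⟩)
      (hK 0).isCompact hK
    obtain ⟨k, hk⟩ := (h a p).1 (H p)
    exact Set.mem_iInter.1 hp k hk

/-- Substituting for the point a point that is itself computed from the point and the oracle. -/
theorem subst {f : α → Re → Re} (h : S1 Z P)
    (hf : S1 Z fun (x : α × ℕ × Bool) p => f x.1 p x.2.1 = x.2.2) :
    S1 Z fun a p => P a (f a p) := by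
  obtain ⟨w, hw, h⟩ := h
  have h1 : S1 Z fun a p => ∃ ρ : List Bool, w (a, ρ) ∧
      ∀ j < ρ.length, f a p j = ρ.getD j false :=
    S1.ex (S1.and (S1.of_sigIn hw) (S1.ball (by fun_prop)
      (hf.comp (f := fun y : (α × List Bool) × ℕ => (y.1.1, y.2, y.1.2.getD y.2 false))
        (by fun_prop))))
  refine h1.congr fun a p => ?_
  rw [h]
  constructor
  · rintro ⟨ρ, h1, h2⟩
    refine ⟨ρ.length, ?_⟩
    have : seg (f a p) ρ.length = ρ := by
      apply List.ext_getElem (by simp)
      intro i h3 h4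
      simp [seg, h2 i h4, h4]
    rwa [this]
  · rintro ⟨k, hk⟩
    exact ⟨_, hk, fun j hj => by simp at hj; simp [seg, hj]⟩

theorem reindex {g : ℕ → ℕ} (h : S1 Z P) (hg : Computable g) : S1 Z fun a p => P a (p ∘ g) :=
  h.subst (f := fun _ p => p ∘ g) (S1.pt (f := fun x : α × ℕ × Bool => g x.2.1) (by fun_prop)
    (by fun_prop))

theorem to_sigIn {q : α → Prop} (h : S1 Z fun a _ => q a) : SigIn Z q :=
  h.all.congr fun _ => ⟨fun H => H fun _ => false, fun H _ => H⟩

/-- Substituting a computable family of points. -/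
theorem at_comp {P : β → Re → Prop} {g : α → β} {f : α → Re} (h : S1 Z P) (hg : Computable g)
    (hf : Computable fun x : α × ℕ => f x.1 x.2) : SigIn Z fun a => P (g a) (f a) := by
  classical
  exact ((h.comp hg).subst (f := fun a _ => f a) (S1.dec
    (FP.c_decide_eq (hf.comp (g := fun x : α × ℕ × Bool => (x.1, x.2.1)) (by fun_prop))
      (by fun_prop)))).to_sigIn

theorem at_red (h : S1 Z P) {X : Re} (hX : Red X Z) : SigIn Z fun a => P a X :=
  (h.subst (f := fun _ _ => X) (S1.of_sigIn (SigIn.orc hX (by fun_prop) (by fun_prop)))).to_sigIn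

theorem true' : S1 Z fun (_ : α) _ => True := S1.dec (by simpa using Computable.const true)

theorem false' : S1 Z fun (_ : α) _ => False := S1.dec (by simpa using Computable.const false)

theorem const (q : Prop) : S1 Z fun (_ : α) _ => q := by
  by_cases h : q
  · exact true'.congr fun _ _ => by simp [h]
  · exact false'.congr fun _ _ => by simp [h]

theorem forall_finset {ι : Type*} {P : ι → α → Re → Prop} (s : Finset ι)
    (h : ∀ i, S1 Z (P i)) : S1 Z fun a p => ∀ i ∈ s, P i a p := by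
  classical
  induction s using Finset.induction_on with
  | empty => exact true'.congr fun _ _ => by simp
  | insert i s _ ih => exact ((h i).and ih).congr fun _ _ => by simp

theorem exists_finset {ι : Type*} {P : ι → α → Re → Prop} (s : Finset ι)
    (h : ∀ i, S1 Z (P i)) : S1 Z fun a p => ∃ i ∈ s, P i a p := by
  classical
  induction s using Finset.induction_on with
  | empty => exact false'.congr fun _ _ => by simp
  | insert i s _ ih => exact ((h i).or ih).congr fun _ _ => by simp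

theorem forall_fin {ι : Type*} [Finite ι] {P : ι → α → Re → Prop} (h : ∀ i, S1 Z (P i)) :
    S1 Z fun a p => ∀ i, P i a p := by
  have := Fintype.ofFinite ι
  exact (forall_finset Finset.univ h).congr fun _ _ => by simp

theorem exists_fin {ι : Type*} [Finite ι] {P : ι → α → Re → Prop} (h : ∀ i, S1 Z (P i)) :
    S1 Z fun a p => ∃ i, P i a p := by
  have := Fintype.ofFinite ι
  exact (exists_finset Finset.univ h).congr fun _ _ => by simp

theorem ball_mem {P : α → ℕ → Re → Prop} {s : α → Finset ℕ} (hs : Computable s)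
    (h : S1 Z fun (x : α × ℕ) p => P x.1 x.2 p) : S1 Z fun a p => ∀ j ∈ s a, P a j p := by
  have h1 : S1 Z fun a p => ∀ j < code (s a), j ∉ s a ∨ P a j p :=
    S1.ball (by fun_prop) (S1.or (S1.dec (by fun_prop)) h)
  exact h1.congr fun a p => ⟨fun H j hj => (H j (lt_code hj)).resolve_left (not_not.2 hj),
    fun H j _ => (em (j ∈ s a)).symm.imp id (H j)⟩

theorem ball_sub {P : α → Finset ℕ → Re → Prop} {s : α → Finset ℕ} (hs : Computable s)
    (h : S1 Z fun (x : α × Finset ℕ) p => P x.1 x.2 p) :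
    S1 Z fun a p => ∀ D ⊆ s a, P a D p := by
  have h1 : S1 Z fun a p => ∀ c < code (s a) + 1, (∃ j, j ∈ fs c ∧ j ∉ s a) ∨ P a (fs c) p :=
    S1.ball (by fun_prop) (S1.or (S1.ex (S1.dec (by fun_prop)))
      (h.comp (f := fun x : α × ℕ => (x.1, fs x.2)) (by fun_prop)))
  refine h1.congr fun a p => ⟨fun H D hD => ?_, fun H c _ => ?_⟩
  · rcases H (code D) (Nat.lt_succ_of_le (code_mono hD)) with ⟨j, h1, h2⟩ | h1
    · rw [fs_code] at h1
      exact absurd (hD h1) h2
    · rwa [fs_code] at h1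
  · by_cases h : fs c ⊆ s a
    · exact Or.inr (H _ h)
    · exact Or.inl (by simpa [Finset.subset_iff] using h)

end S1

theorem countable_re : {p : α → Prop | REPred p}.Countable := by
  refine Set.countable_of_injective_of_countable_image
    (f := fun (p : α → Prop) (a : α) => Part.assert (p a) fun _ => Part.some ()) ?_
    (countable_partrec.mono ?_)
  · intro p _ q _ e
    funext a
    have h := congrArg (fun o => () ∈ o) (congrFun e a)
    simpa [Part.mem_assert_iff] using h
  · rintro _ ⟨p, hp, rfl⟩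
    exact hp

theorem countable_sigIn (Z : Re) : {p : α → Prop | SigIn Z p}.Countable := by
  refine ((countable_re (α := α × List Bool)).image
    fun w a => ∃ k, w (a, seg Z k)).mono ?_
  rintro p ⟨P, ⟨w, hw, e⟩, h⟩
  exact ⟨w, hw, funext fun a => propext ((h a).trans (e a Z)).symm⟩

theorem countable_s1 (Z : Re) : {P : α → Re → Prop | S1 Z P}.Countable := by
  refine ((countable_sigIn (α := α × List Bool) Z).image
    fun w a p => ∃ k, w (a, seg p k)).mono ?_
  rintro P ⟨w, hw, e⟩
  exact ⟨w, hw, funext fun a => funext fun p => propext (e a p).symm⟩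

@[simp] theorem join_even (X Y : Re) (n : ℕ) : join X Y (2 * n) = X n := by simp [join]

@[simp] theorem join_odd (X Y : Re) (n : ℕ) : join X Y (2 * n + 1) = Y n := by
  have h1 : (2 * n + 1) % 2 = 1 := by omega
  have h2 : (2 * n + 1) / 2 = n := by omega
  simp [join, h1, h2]

theorem red_left (X Y : Re) : Red X (join X Y) :=
  (SigIn.orc (Red.refl (join X Y)) (f := fun x : ℕ × Bool => 2 * x.1) (g := Prod.snd)
    (by fun_prop) (by fun_prop)).congr fun x => by simp

theorem red_right (X Y : Re) : Red Y (join X Y) :=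
  (SigIn.orc (Red.refl (join X Y)) (f := fun x : ℕ × Bool => 2 * x.1 + 1) (g := Prod.snd)
    (by fun_prop) (by fun_prop)).congr fun x => by simp

theorem s1_join {Z X : Re} (hX : Red X Z) :
    S1 Z fun (x : ℕ × Bool) p => join X p x.1 = x.2 := by
  have h1 : S1 Z fun (x : ℕ × Bool) p => (x.1 % 2 = 0 ∧ X (x.1 / 2) = x.2) ∨
      (¬ x.1 % 2 = 0 ∧ p (x.1 / 2) = x.2) :=
    S1.or (S1.and (S1.dec (by fun_prop)) (S1.of_sigIn (SigIn.orc hX (by fun_prop) (by fun_prop))))
      (S1.and (S1.dec (by fun_prop)) (S1.pt (by fun_prop) (by fun_prop)))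
  exact h1.congr fun x p => by unfold join; split_ifs with h <;> simp [h]

theorem red_join {X Y Z : Re} (hX : Red X Z) (hY : Red Y Z) : Red (join X Y) Z :=
  (s1_join hX).at_red hY

theorem red_join_mono {X X' Y : Re} (h : Red X X') : Red (join X Y) (join X' Y) :=
  red_join (h.trans (red_left _ _)) (red_right _ _)

theorem s1_of_join {Z X : Re} {w : α → Prop} (h : SigIn (join Z X) w) :
    ∃ W : α → Re → Prop, S1 Z W ∧ ∀ a, w a ↔ W a X := by
  obtain ⟨P, ⟨v, hv, e⟩, h⟩ := h
  have h1 : S1 Z P := ⟨v, SigIn.of_re hv, e⟩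
  exact ⟨fun a p => P a (join Z p), h1.subst (f := fun _ p => join Z p)
    ((s1_join (Red.refl Z)).comp (f := fun x : α × ℕ × Bool => x.2) (by fun_prop)), h⟩

/-- A total function is computable in `Z` if its graph is existential in `Z`. -/
theorem cin_of_graph {Z : Re} {f : α → β} (h : SigIn Z fun x : α × β => f x.1 = x.2) :
    ComputableIn {orc Z} f := by
  classical
  have h1 : SigIn Z fun x : α × ℕ => Encodable.encode (f x.1) = x.2 :=
    (SigIn.ex (p := fun (x : α × ℕ) b => f x.1 = b ∧ Encodable.encode b = x.2)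
      (SigIn.and (h.comp (f := fun y : (α × ℕ) × β => (y.1.1, y.2)) (by fun_prop))
        (SigIn.dec (by fun_prop)))).congr fun x => by simp
  obtain ⟨q, hq, e⟩ := h1.nf
  have h2 : ComputableIn₂ {orc Z} fun a (n : ℕ) => q (a, n.unpair.1) n.unpair.2 :=
    cin_comp (g := fun x : α × ℕ => ((x.1, x.2.unpair.1), x.2.unpair.2)) hq
      (Computable.computableIn (by fun_prop))
  have hex : ∀ a, ∃ n : ℕ, q (a, n.unpair.1) n.unpair.2 = true := by
    intro a
    obtain ⟨k, hk⟩ := (e (a, Encodable.encode (f a))).1 rfl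
    exact ⟨Nat.pair (Encodable.encode (f a)) k, by simpa using hk⟩
  have h3 : ComputableIn {orc Z} fun a => Encodable.encode (f a) :=
    cin_of_eq (cin_comp (f := fun n : ℕ => n.unpair.1) (Computable.computableIn (by fun_prop))
      (cin_find h2 hex)) fun a => ((e (a, _)).2 ⟨_, Nat.find_spec (hex a)⟩).symm
  exact Nat.RecursiveIn.of_eq h3 fun n => by
    rcases Encodable.decode (α := α) n <;> simp

theorem graph_of_cin {Z : Re} {f : α → β} (h : ComputableIn {orc Z} f) :
    SigIn Z fun x : α × β => f x.1 = x.2 := by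
  classical
  have h1 : ComputableIn {orc Z} fun x : α × β => decide (f x.1 = x.2) :=
    cin_comp₂ (f := fun a b : β => decide (a = b)) Primrec.eq.decide.computableIn₂
      (cin_comp h ComputableIn.fst) ComputableIn.snd
  exact (SigIn.of_cin h1).congr fun x => by simp

end Pool.Agent.Lib.MP_b33ea7_lc
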