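import Pool.Agent.Lib.MP_b33ea7_lc.Force

/-!
Arbitrary colourings: good sets made of widely separated thin blocks.
-/

namespace Pool.Agent.Lib.MP_b33ea7_lc

open Pool.Agent.Shared.Oracle Pool.Agent.Lib.MP_5290c5_lc

attribute [local irreducible] Computable

variable {T : Tgt} {c : ℕ → ℕ}

/-- Thinning for several arities at once. -/
theorem multi {n : ℕ} (hS : ∀ j < n, SProp T (j + 1) (c j)) {Z Y : Re} {P : Set Re} {κ : Type}
    [Finite κ] {col : Re → Finset ℕ → κ} (h : WF T Z Y P col) :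
    ∃ (Z' Y' : Re) (Q : Set Re) (J : ℕ → Finset κ), WF T Z' Y' Q col ∧ Red Z Z' ∧ Sub Y' Y ∧
      Q ⊆ P ∧ ∀ j < n, (J j).card ≤ c j ∧ ∀ p ∈ Q, Thin (j + 1) (col p) (J j) Y' := by
  induction n with
  | zero => exact ⟨Z, Y, P, fun _ => ∅, h, Red.refl _, Sub.refl _, subset_rfl, by simp⟩
  | succ n ih =>
    obtain ⟨Z', Y', Q, J, h1, h2, h3, h4, h5⟩ := ih fun j hj => hS j (by omega)
    obtain ⟨p, hp, H, J', a1, a2, a3, a4, a5⟩ := hS n (by omega) Z' Y' Q κ col h1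
    have hZ : Red Z' (join Z' H) := red_left _ _
    refine ⟨join Z' H, H, {q | q ∈ Q ∧ Thin (n + 1) (col q) J' H}, Function.update J n J',
      ⟨a3, red_right _ _, a2, ⟨p, hp, a5⟩,
        pi1_thin (h1.pi.red hZ) (h1.col.red hZ) (red_right _ _) J', h1.col.red hZ⟩,
      h2.trans hZ, a1.trans h3, fun q hq => h4 hq.1, fun j hj => ?_⟩
    rcases (Nat.lt_succ_iff.1 hj).eq_or_lt with rfl | hlt
    · rw [Function.update_self]
      exact ⟨a4, fun q hq => hq.2⟩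
    · rw [Function.update_of_ne hlt.ne]
      exact ⟨(h5 j hlt).1, fun q hq => ((h5 j hlt).2 q hq.1).sub a1⟩

/-- Sides: a small set of colours for each arity. -/
abbrev Side (n : ℕ) (c : ℕ → ℕ) (κ : Type) : Type :=
  {J : Fin n → Finset κ // ∀ j, (J j).card ≤ c j}

/-- The finite set `D` splits at a large gap after a piece whose colour is in the side. -/
def Split {n : ℕ} {κ : Type} (μ : ℕ → ℕ) (F : Finset ℕ → κ) (J : Fin n → Finset κ)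
    (D : Finset ℕ) : Prop :=
  ∃ D₀ D₁ : Finset ℕ, D = D₀ ∪ D₁ ∧ D₁.Nonempty ∧ (∀ a ∈ D₀, ∀ b ∈ D₁, a < b ∧ μ a ≤ b) ∧
    ∃ j : Fin n, D₀.card = j + 1 ∧ F D₀ ∈ J j

/-- The invariant of a stem and a reservoir. -/
def Inv {n : ℕ} {κ : Type} (μ : ℕ → ℕ) (F : Finset ℕ → κ) (J : Fin n → Finset κ)
    (σ : Finset ℕ) (Y : Re) : Prop :=
  ∀ D : Finset ℕ, (∀ a ∈ D, a ∈ σ ∨ Y a = true) → (∃ a ∈ D, a ∈ σ) → (∃ a ∈ D, a ∉ σ) →
    D.card ≤ n + 1 → Split μ F J D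

section

variable {n : ℕ} {κ : Type} {μ : ℕ → ℕ} {F : Finset ℕ → κ}

theorem Inv.sub {J : Fin n → Finset κ} {σ : Finset ℕ} {Y Y' : Re} (h : Inv μ F J σ Y)
    (hY : Sub Y' Y) : Inv μ F J σ Y' :=
  fun D h1 => h D fun a ha => (h1 a ha).imp id (hY a)

theorem Inv.extend {J : Fin n → Finset κ} {σ ρ : Finset ℕ} {Y : Re} (h : Inv μ F J σ Y)
    (hρ : In ρ Y) (ht : ∀ j : Fin n, ThinF (j + 1) F (J j) ρ) {N : ℕ}
    (hN : ∀ a ∈ ρ, a < N ∧ μ a ≤ N) : Inv μ F J (σ ∪ ρ) (cut Y N) := by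
  intro D h1 h2 h3 h4
  by_cases h5 : ∃ a ∈ D, a ∈ σ
  · refine h D (fun a ha => ?_) h5 (h3.imp fun a ha => ⟨ha.1, fun h => ha.2 (by simp [h])⟩) h4
    rcases h1 a ha with h6 | h6
    · exact (Finset.mem_union.1 h6).imp id (hρ a)
    · exact Or.inr (cut_true.1 h6).2
  push Not at h5
  obtain ⟨x, x1, x2⟩ := h2
  obtain ⟨y, y1, y2⟩ := h3
  have x3 : x ∈ D ∩ ρ := by
    have := h5 x x1
    simp_all
  have y3 : y ∈ D \ ρ := by simp_all
  have h6 := Finset.card_sdiff_add_card_inter D ρ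
  have h7 := Finset.card_pos.2 ⟨x, x3⟩
  have h8 := Finset.card_pos.2 ⟨y, y3⟩
  refine ⟨D ∩ ρ, D \ ρ, by ext a; by_cases a ∈ ρ <;> simp [*], ⟨y, y3⟩, fun a ha b hb => ?_,
    ⟨(D ∩ ρ).card - 1, by omega⟩, by simp only; omega,
    ht _ _ Finset.inter_subset_right (by simp only; omega)⟩
  have h9 := hN a (Finset.mem_inter.1 ha).2
  obtain ⟨b1, b2⟩ := Finset.mem_sdiff.1 hb
  have := (cut_true.1 ((h1 b b1).resolve_left (by simp [h5 b b1, b2]))).1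
  omega

theorem cyl_mono {σ : Finset ℕ} {Y Y' : Re} (h : Sub Y' Y) : Cyl σ Y' ⊆ Cyl σ Y :=
  fun _ hX => ⟨hX.1, fun a ha => (hX.2 a ha).imp id (h a)⟩

theorem cyl_extend {σ ρ : Finset ℕ} {Y Y' : Re} (h : Sub Y' Y) (hρ : In ρ Y) :
    Cyl (σ ∪ ρ) Y' ⊆ Cyl σ Y :=
  fun _ hX => ⟨hX.1.mono Finset.subset_union_left, fun a ha => (hX.2 a ha).elim
    (fun h => (Finset.mem_union.1 h).imp id (hρ a)) fun h' => Or.inr (h a h')⟩

theorem cyl_agree {σ : Finset ℕ} {Y X : Re} {N u : ℕ} (hX : X ∈ Cyl σ (cut Y N)) (h : u ≤ N) :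
    ∀ i < u, X i = add σ emp i := fun i hi => re_ext ⟨fun h1 => by
      rcases hX.2 i h1 with h2 | h2
      · simp [h2]
      · have := (cut_true.1 h2).1
        omega, fun h1 => hX.1 i (by simpa using h1)⟩

/-- Conditions. -/
structure BCond (T : Tgt) (n : ℕ) (c : ℕ → ℕ) (μ : ℕ → ℕ) (F : Finset ℕ → κ) (Z₀ : Re) where
  /-- The oracle. -/
  Z : Re
  /-- The reservoir. -/
  Y : Re
  /-- The stems. -/
  σ : Side n c κ → Finset ℕ
  good : Good T Z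
  base : Red Z₀ Z
  red : Red Y Z
  inf : Inf Y
  inv : ∀ J, Inv μ F J.1 (σ J) Y

variable {Z₀ : Re}

theorem BCond.extend (d : BCond T n c μ F Z₀) (J : Side n c κ) {ρ : Finset ℕ} (hρ : In ρ d.Y)
    (ht : ∀ j : Fin n, ThinF (j + 1) F (J.1 j) ρ) (u : ℕ) :
    ∃ d' : BCond T n c μ F Z₀, (∀ J, Cyl (d'.σ J) d'.Y ⊆ Cyl (d.σ J) d.Y) ∧ Sub d'.Y d.Y ∧
      ∀ X ∈ Cyl (d'.σ J) d'.Y, In ρ X ∧ ∀ i < u, X i = add (d.σ J ∪ ρ) emp i := by
  classical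
  let N := u + ρ.sup fun a => a + 1 + μ a
  have hN : ∀ a ∈ ρ, a < N ∧ μ a ≤ N := fun a ha => by
    have := Finset.le_sup (f := fun a => a + 1 + μ a) ha
    omega
  refine ⟨⟨d.Z, cut d.Y N, Function.update d.σ J (d.σ J ∪ ρ), d.good, d.base, red_cut d.red _,
    d.inf.cut _, fun J' => ?_⟩, fun J' => ?_, cut_sub _ _, fun X hX => ?_⟩
  · by_cases h : J' = J
    · subst h
      rw [Function.update_self]
      exact (d.inv J').extend hρ ht hN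
    · rw [Function.update_of_ne h]
      exact (d.inv J').sub (cut_sub _ _)
  · dsimp only
    by_cases h : J' = J
    · subst h
      rw [Function.update_self]
      exact cyl_extend (cut_sub _ _) hρ
    · rw [Function.update_of_ne h]
      exact cyl_mono (cut_sub _ _)
  · dsimp only at hX
    rw [Function.update_self] at hX
    exact ⟨hX.1.mono Finset.subset_union_right, cyl_agree hX (by omega)⟩

theorem BCond.step [Finite κ] (hS : ∀ j < n, SProp T (j + 1) (c j)) (d : BCond T n c μ F Z₀)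
    {R : Side n c κ → Re → Prop} (hR : ∀ J, IsReq T d.Z (R J)) :
    ∃ d' : BCond T n c μ F Z₀, (∀ J, Cyl (d'.σ J) d'.Y ⊆ Cyl (d.σ J) d.Y) ∧ Sub d'.Y d.Y ∧
      ∃ J, ∀ X ∈ Cyl (d'.σ J) d'.Y, R J X := by
  classical
  have := Fintype.ofFinite (Side n c κ)
  have : Nonempty κ := ⟨F ∅⟩
  have h0 : ∀ J, ∃ (t : Prop) (N : ℕ) (W : ℕ × Finset ℕ → Re → Prop) (b : ℕ), S1 d.Z W ∧
      (t → ∀ X, R J X ↔ ∃ a, N ≤ a ∧ X a = true) ∧
      (¬ t → ∀ X, R J X ↔ Tr T b fun x => W x X) := by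
    intro J
    rcases hR J with ⟨N, e⟩ | ⟨W, b, hW, e⟩
    · exact ⟨True, N, _, 0, S1.true', fun _ => e, fun h => absurd trivial h⟩
    · exact ⟨False, 0, W, b, hW, False.elim, fun _ => e⟩
  choose t N W b hW e1 e2 using h0
  by_cases h1 : ∃ J, t J ∧ ∃ y, N J ≤ y ∧ d.Y y = true ∧ ∀ j : Fin n, ThinF (j + 1) F (J.1 j) {y}
  · obtain ⟨J, hJ, y, y1, y2, y3⟩ := h1
    obtain ⟨d', a1, a2, a3⟩ := d.extend J (ρ := {y}) (by simpa [In] using y2) y3 0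
    exact ⟨d', a1, a2, J, fun X hX => (e1 J hJ X).2 ⟨y, y1, (a3 X hX).1 y (by simp)⟩⟩
  obtain ⟨dec, hdec, hF⟩ := exists_dec d.Z κ
  obtain ⟨p₀, hp₀⟩ := hF F
  let Y₁ := cut d.Y (Finset.univ.sup N)
  have hY₁ : Red Y₁ d.Z := red_cut d.red _
  let bad : Re → Prop := fun p => ∃ y, Y₁ y = true ∧ ∃ J, t J ∧
    ∀ j : Fin n, ThinF (j + 1) (dec p) (J.1 j) {y}
  have hbad : S1 d.Z fun (_ : Unit) p => bad p :=
    S1.ex (S1.and (S1.of_sigIn (sigIn_true hY₁ (by fun_prop))) (S1.exists_fin fun J =>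
      S1.and (S1.const _) (S1.forall_fin fun j => s1_thinF hdec _ (by fun_prop))))
  have hΦ := (pi1_univ d.Z).sep hbad
  have hp₁ : ¬ bad p₀ := by
    rintro ⟨y, y1, J, y2, y3⟩
    obtain ⟨y4, y5⟩ := cut_true.1 y1
    exact h1 ⟨J, y2, y, (Finset.le_sup (Finset.mem_univ J)).trans y4, y5, hp₀ ▸ y3⟩
  let V : ℕ × Finset ℕ → Re → Prop := fun x p => ∃ J, ¬ t J ∧ ∃ ρ, In ρ Y₁ ∧
    (∀ j : Fin n, ThinF (j + 1) (dec p) (J.1 j) ρ) ∧
    ∃ B : Finset ℕ, B.card ≤ b J ∧ Disjoint B x.2 ∧ W J (x.1, B) (add (d.σ J ∪ ρ) emp)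
  have hV : S1 d.Z V := S1.exists_fin fun J => S1.and (S1.const _)
    (S1.ex (S1.and (s1_in hY₁ (by fun_prop))
      (S1.and (S1.forall_fin fun j => s1_thinF hdec _ (by fun_prop))
        (S1.ex (S1.and (S1.dec (by fun_prop)) (S1.and (s1_disjoint (by fun_prop) (by fun_prop))
          (s1_at_add (hW J) _ (by fun_prop) (by fun_prop))))))))
  rcases d.good.disperse (hΦ.all hV) with ⟨k, hk⟩ | h
  · obtain ⟨J, hJ, ρ, r1, r2, B, r3, r4, r5⟩ := hk p₀ ⟨trivial, hp₁⟩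
    obtain ⟨u, hu⟩ := (hW J).use r5
    obtain ⟨d', a1, a2, a3⟩ := d.extend J (r1.sub (cut_sub _ _)) (hp₀ ▸ r2) u
    exact ⟨d', a1, a2, J, fun X hX =>
      (e2 J hJ X).2 ⟨k, Or.inr ⟨B, r3, hu X (a3 X hX).2, r4⟩⟩⟩
  obtain ⟨k, hk⟩ := h (∑ J, b J)
  have key : ∀ L : Finset (Finset ℕ), ∃ Z' Y', Good T Z' ∧ Red d.Z Z' ∧ Red Y' Z' ∧ Inf Y' ∧
      Sub Y' Y₁ ∧ ∀ S ∈ L, (∃ p, ¬ bad p ∧ ¬ V (k, S) p) → ∃ (J : Side n c κ) (p : Re),
        ¬ bad p ∧ ¬ V (k, S) p ∧ ∀ j : Fin n, Thin (j + 1) (dec p) (J.1 j) Y' := by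
    intro L
    induction L using Finset.induction_on with
    | empty => exact ⟨d.Z, Y₁, d.good, Red.refl _, hY₁, d.inf.cut _, Sub.refl _, by simp⟩
    | insert S L _ ih =>
      obtain ⟨Z', Y', a1, a2, a3, a4, a5, a6⟩ := ih
      by_cases hS' : ∃ p, ¬ bad p ∧ ¬ V (k, S) p
      · obtain ⟨p, p1, p2⟩ := hS'
        obtain ⟨Z'', Y'', Q, J, b1, b2, b3, b4, b5⟩ := multi hS (Z := Z') (Y := Y')
          (P := {p | p ∈ {p | p ∈ Set.univ ∧ ¬ bad p} ∧ ¬ V (k, S) p}) (col := dec)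
          ⟨a1, a3, a4, ⟨p, ⟨trivial, p1⟩, p2⟩,
            (hΦ.sep (hV.comp (f := fun _ => (k, S)) (by fun_prop))).red a2, hdec.red a2⟩
        refine ⟨Z'', Y'', b1.good, a2.trans b2, b1.red, b1.inf, b3.trans a5, fun S' hS' h' => ?_⟩
        rcases Finset.mem_insert.1 hS' with rfl | hS'
        · obtain ⟨q, hq⟩ := b1.ne
          exact ⟨⟨fun j => J j, fun j => (b5 j j.2).1⟩, q, (b4 hq).1.2, (b4 hq).2,
            fun j => (b5 j j.2).2 q hq⟩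
        · obtain ⟨J', q, q1, q2, q3⟩ := a6 S' hS' h'
          exact ⟨J', q, q1, q2, fun j => (q3 j).sub b3⟩
      · refine ⟨Z', Y', a1, a2, a3, a4, a5, fun S' hS'' h' => ?_⟩
        rcases Finset.mem_insert.1 hS'' with rfl | hS''
        · exact absurd h' hS'
        · exact a6 S' hS'' h'
  obtain ⟨Z', Y', a1, a2, a3, a4, a5, a6⟩ := key (Finset.range (2 ^ k)).powerset
  have hsub : Sub Y' d.Y := a5.trans (cut_sub _ _)
  refine ⟨⟨Z', Y', d.σ, a1, d.base.trans a2, a3, a4, fun J => (d.inv J).sub hsub⟩,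
    fun J => cyl_mono hsub, hsub, ?_⟩
  dsimp only
  have h2 : ∃ J, ¬ t J ∧ ∀ B : Finset ℕ, B.card ≤ b J → ∃ S p, Disjoint B S ∧ ¬ V (k, S) p ∧
      ∀ j : Fin n, Thin (j + 1) (dec p) (J.1 j) Y' := by
    by_contra hc
    have h3 : ∀ J, ∃ B : Finset ℕ, B.card ≤ b J ∧ (¬ t J → ¬ ∃ S p, Disjoint B S ∧
        ¬ V (k, S) p ∧ ∀ j : Fin n, Thin (j + 1) (dec p) (J.1 j) Y') := by
      intro J
      by_cases hJ : t J
      · exact ⟨∅, by simp, fun h => absurd hJ h⟩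
      · by_contra h4
        refine hc ⟨J, hJ, fun B hB => ?_⟩
        by_contra h5
        exact h4 ⟨B, hB, fun _ => h5⟩
    choose B hB hB' using h3
    obtain ⟨S, s1, s2, s3⟩ := hk (Finset.univ.biUnion B)
      (Finset.card_biUnion_le.trans (Finset.sum_le_sum fun J _ => hB J))
    push Not at s2
    obtain ⟨p, p1, p2⟩ := s2
    obtain ⟨J, q, q1, q2, q3⟩ := a6 S (Finset.mem_powerset.2 s1) ⟨p, p1.2, p2⟩
    obtain ⟨y, -, hy⟩ := a4 0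
    refine hB' J (fun hJ => q1 ⟨y, a5 y hy, J, hJ, fun j => (q3 j).thinF (by simpa [In] using hy)⟩)
      ⟨S, q, s3.mono_left (Finset.subset_biUnion_of_mem B (Finset.mem_univ J)), q2, q3⟩
  obtain ⟨J, hJ, h3⟩ := h2
  refine ⟨J, fun X hX => (e2 J hJ X).2 ⟨k, Or.inl fun B hB hW' => ?_⟩⟩
  obtain ⟨S, p, s1, s2, s3⟩ := h3 B hB
  obtain ⟨u, hu⟩ := (hW J).use hW'
  have h4 : In ((Finset.range u).filter fun a => X a = true ∧ Y' a = true) Y' :=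
    fun a ha => (Finset.mem_filter.1 ha).2.2
  refine s2 ⟨J, hJ, _, h4.sub a5, fun j => (s3 j).thinF h4, B, hB, s1, hu _ fun i hi => re_ext ?_⟩
  simp only [add_true, Finset.mem_union, Finset.mem_filter, Finset.mem_range, emp_true, or_false]
  exact ⟨fun h => h.elim (hX.1 i) fun h => h.2.1,
    fun h => (hX.2 i h).imp id fun h' => ⟨hi, h, h'⟩⟩

/-- The block lemma. -/
theorem block [Finite κ] (hS : ∀ j < n, SProp T (j + 1) (c j)) (μ : ℕ → ℕ) (F : Finset ℕ → κ)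
    {Z Y : Re} (hZ : Good T Z) (hY : Red Y Z) (hinf : Inf Y) :
    ∃ (H : Re) (J : Fin n → Finset κ), Sub H Y ∧ Inf H ∧ Good T (join Z H) ∧
      (∀ j, (J j).card ≤ c j) ∧ ∀ x, ∃ N, ∀ D, In D H → (∃ a ∈ D, a ≤ x) → (∃ a ∈ D, N ≤ a) →
        D.card ≤ n + 1 → Split μ F J D := by
  obtain ⟨R, hR, hX⟩ := exists_reqs T Z
  obtain ⟨τ, hτ⟩ := exists_surjective_nat (Side n c κ → ℕ)
  have step : ∀ (s : ℕ) (d : BCond T n c μ F Z), ∃ d' : BCond T n c μ F Z,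
      (∀ J, Cyl (d'.σ J) d'.Y ⊆ Cyl (d.σ J) d.Y) ∧ (∀ a, d'.Y a = true → s ≤ a) ∧
      ∃ J, ∀ X ∈ Cyl (d'.σ J) d'.Y, R (τ s J) X := by
    intro s d
    obtain ⟨d', a1, a2, a3⟩ := BCond.step hS (⟨d.Z, cut d.Y s, d.σ, d.good, d.base,
      red_cut d.red _, d.inf.cut _, fun J => (d.inv J).sub (cut_sub _ _)⟩ : BCond T n c μ F Z)
      (R := fun J => R (τ s J)) fun J => (hR _).red d.base
    exact ⟨d', fun J => (a1 J).trans (cyl_mono (cut_sub _ _)),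
      fun a ha => (cut_true.1 (a2 a ha)).1, a3⟩
  obtain ⟨d, d0, hd⟩ := exists_seq (γ := BCond T n c μ F Z)
    ⟨Z, Y, fun _ => ∅, hZ, Red.refl _, hY, hinf, fun J D _ h => by simp at h⟩ step
  have h1 : ∃ J, ∀ e, ∃ s, ∀ X ∈ Cyl ((d s).σ J) (d s).Y, R e X := by
    by_contra hc
    have h2 : ∀ J, ∃ e, ¬ ∃ s, ∀ X ∈ Cyl ((d s).σ J) (d s).Y, R e X := fun J =>
      not_forall.1 fun h => hc ⟨J, h⟩
    choose e he using h2
    obtain ⟨s, rfl⟩ := hτ e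
    obtain ⟨J, hJ⟩ := (hd s).2.2
    exact he J ⟨s + 1, hJ⟩
  obtain ⟨J, hJ⟩ := h1
  obtain ⟨X, hX'⟩ := exists_mem_all (K := fun s => Cyl ((d s).σ J) (d s).Y)
    (fun s => (hd s).1 J) (fun s => cyl_nonempty _ _) fun s => isClosed_cyl _ _
  obtain ⟨h2, h3⟩ := hX X fun e => let ⟨s, hs⟩ := hJ e; hs X (hX' s)
  refine ⟨X, J.1, fun a ha => ?_, h2, h3, J.2, fun x => ?_⟩
  · have := (hX' 0).2 a ha
    rw [d0] at this
    simpa using this
  · refine ⟨((d (x + 2)).σ J).sup id + 1, fun D a1 ⟨a, a2, a3⟩ ⟨a', a4, a5⟩ a6 => ?_⟩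
    refine (d (x + 2)).inv J D (fun a ha => (hX' (x + 2)).2 a (a1 a ha)) ⟨a, a2, ?_⟩
      ⟨a', a4, fun h => ?_⟩ a6
    · refine ((hX' (x + 2)).2 a (a1 a a2)).resolve_right fun h => ?_
      have := (hd (x + 1)).2.1 a h
      omega
    · have := Finset.le_sup (f := id) h
      simp only [id] at this
      omega

end

end Pool.Agent.Lib.MP_b33ea7_lc
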