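import Mathlib

/-!
Turing ideals (omega-models of the base theory) and the principles they may satisfy.
-/

namespace Pool.Agent.Lib.MP_b33ea7_lc

/-- A set of natural numbers, given by its characteristic function, as an oracle. -/
def oracle (X : ℕ → Bool) : ℕ →. ℕ := fun n => Part.some (X n).toNat

/-- The Turing join of two sets. -/
def join (X Y : ℕ → Bool) : ℕ → Bool := fun n => if n % 2 = 0 then X (n / 2) else Y (n / 2)

/-- The function `f` is computable from some member of `I`. -/
def InI {α σ : Type} [Primcodable α] [Primcodable σ] (I : Set (ℕ → Bool)) (f : α → σ) : Prop :=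
  ∃ X ∈ I, ComputableIn {oracle X} f

/-- Turing ideals: nonempty, closed under relative computability and under join. -/
structure IsIdeal (I : Set (ℕ → Bool)) : Prop where
  nonempty : I.Nonempty
  down : ∀ Y : ℕ → Bool, InI I Y → Y ∈ I
  join : ∀ X ∈ I, ∀ Y ∈ I, join X Y ∈ I

/-- Every colouring in `I` of the `n`-element sets (increasing lists) with finitely many colours
has an infinite set in `I` whose `n`-element subsets use at most `ℓ` colours. -/
def RT (I : Set (ℕ → Bool)) (n ℓ : ℕ) : Prop :=
  ∀ (k : ℕ) (f : List ℕ → ℕ), InI I f → (∀ l, f l < k) →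
    ∃ H ∈ I, {a | H a = true}.Infinite ∧ ∃ J : Finset ℕ, J.card ≤ ℓ ∧
      ∀ l : List ℕ, l.length = n → l.Pairwise (· < ·) → (∀ a ∈ l, H a = true) → f l ∈ J

/-- The thin set principle: every colouring in `I` of the `n`-element sets by natural numbers
has an infinite set in `I` whose `n`-element subsets omit some colour. -/
def TS (I : Set (ℕ → Bool)) (n : ℕ) : Prop :=
  ∀ f : List ℕ → ℕ, InI I f → ∃ H ∈ I, {a | H a = true}.Infinite ∧ ∃ c : ℕ,
    ∀ l : List ℕ, l.length = n → l.Pairwise (· < ·) → (∀ a ∈ l, H a = true) → f l ≠ c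

/-- The free set principle: every colouring `f` in `I` of the `n`-element sets by natural numbers
has an infinite set `H` in `I` such that `f s ∈ H` implies `f s ∈ s` for `n`-element `s ⊆ H`. -/
def FS (I : Set (ℕ → Bool)) (n : ℕ) : Prop :=
  ∀ f : List ℕ → ℕ, InI I f → ∃ H ∈ I, {a | H a = true}.Infinite ∧
    ∀ l : List ℕ, l.length = n → l.Pairwise (· < ·) → (∀ a ∈ l, H a = true) →
      H (f l) = true → f l ∈ l

/-- Binary trees: sets of binary strings closed under initial segments. -/
def IsTree (T : List Bool → Bool) : Prop := ∀ σ τ : List Bool, σ <+: τ → T τ = true → T σ = true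

/-- Infinite paths. -/
def IsPath (T : List Bool → Bool) (X : ℕ → Bool) : Prop :=
  ∀ L, T ((List.range L).map X) = true

/-- The strings of length `L` in `T`. -/
def level (T : List Bool → Bool) (L : ℕ) : Finset (Fin L → Bool) :=
  Finset.univ.filter fun s => T (List.ofFn s) = true

/-- Weak König's lemma: every infinite binary tree in `I` has a path in `I`. -/
def WKL (I : Set (ℕ → Bool)) : Prop :=
  ∀ T : List Bool → Bool, InI I T → IsTree T → (∀ L, (level T L).Nonempty) → ∃ X ∈ I, IsPath T X

/-- Weak weak König's lemma: every binary tree of positive measure in `I` has a path in `I`. -/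
def WWKL (I : Set (ℕ → Bool)) : Prop :=
  ∀ T : List Bool → Bool, InI I T → IsTree T → (∃ r : ℕ, ∀ L, 2 ^ L ≤ r * (level T L).card) →
    ∃ X ∈ I, IsPath T X

open Classical in
/-- Arithmetical comprehension, in the form: the range of every function in `I` is in `I`. -/
def ACA (I : Set (ℕ → Bool)) : Prop :=
  ∀ f : ℕ → ℕ, InI I f → (fun n => decide (n ∈ Set.range f)) ∈ I

end Pool.Agent.Lib.MP_b33ea7_lc
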