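import Pool.Agent.Lib.MP_b33ea7_lc.Defs

/-!
Ramsey-like statements with a promise.
-/

namespace Pool.Agent.Lib.MP_b33ea7_lc

/-- A pattern: a number `m` of points and a colouring of the lists of places below `m`. -/
abbrev Pattern := ℕ × (List ℕ → ℕ)

/-- Some increasing list of `p.1` elements of `H` carries the pattern `p`: the colour of each of
its increasing sublists of length `n` is the colour that `p` gives to the list of places. -/
def Meets (n : ℕ) (f : List ℕ → ℕ) (H : ℕ → Bool) (p : Pattern) : Prop :=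
  ∃ l : List ℕ, l.length = p.1 ∧ l.Pairwise (· < ·) ∧ (∀ a ∈ l, H a = true) ∧
    ∀ s : List ℕ, s.length = n → s.Pairwise (· < ·) → (∀ i ∈ s, i < p.1) →
      f (s.map fun i => l.getD i 0) = p.2 s

/-- Every colouring in `I` of the `n`-element sets with `k` colours that meets no pattern of `V`
has an infinite set in `I` on which it meets no pattern of `W`. -/
def RL (I : Set (ℕ → Bool)) (n k : ℕ) (V W : Set Pattern) : Prop :=
  ∀ f : List ℕ → ℕ, InI I f → (∀ l, f l < k) → (∀ p ∈ V, ¬ Meets n f (fun _ => true) p) →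
    ∃ H ∈ I, {a | H a = true}.Infinite ∧ ∀ p ∈ W, ¬ Meets n f H p

/-- The shape of a list `l` for a weight `ψ`: the places `i < j ≤ k` such that every weight on the
interval `[l j, l k)` is at least some weight on the interval `[l i, l j)`. -/
def shape (ψ : ℕ → ℕ) (l : List ℕ) : Set (ℕ × ℕ × ℕ) :=
  {u | u.1 < u.2.1 ∧ u.2.1 ≤ u.2.2 ∧ u.2.2 < l.length ∧ ∀ s, l.getD u.2.1 0 ≤ s →
    s < l.getD u.2.2 0 → ∃ a, l.getD u.1 0 ≤ a ∧ a < l.getD u.2.1 0 ∧ ψ a ≤ ψ s}

/-- Some colouring of shapes with `k` colours meets no pattern of `V`, whatever the weight, and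
meets a pattern of `W` for some weight. -/
def Crit (n k : ℕ) (V W : Set Pattern) : Prop :=
  ∃ χ : Set (ℕ × ℕ × ℕ) → ℕ, (∀ r, χ r < k) ∧
    (∀ ψ, ∀ p ∈ V, ¬ Meets n (fun l => χ (shape ψ l)) (fun _ => true) p) ∧
    ∃ ψ, ∃ p ∈ W, Meets n (fun l => χ (shape ψ l)) (fun _ => true) p

end Pool.Agent.Lib.MP_b33ea7_lc
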