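import Pool.Agent.Lib.MP_b33ea7_lc.Block

/-!
Existence of valid sides, and the induction on the arity.
-/

namespace Pool.Agent.Lib.MP_b33ea7_lc

open Pool.Agent.Shared.Oracle Pool.Agent.Lib.MP_5290c5_lc

attribute [local irreducible] Computable

variable {T : Tgt}

theorem eProp_one : EProp T 1 1 := by
  intro Z Y P κ _ col h
  obtain ⟨p, hp⟩ := h.ne
  have h1 : ∃ c, ∀ N, ∃ y, N ≤ y ∧ Y y = true ∧ col p {y} = c := by
    by_contra hc
    push Not at hc
    choose N hN using hc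
    have := Fintype.ofFinite κ
    obtain ⟨y, y1, y2⟩ := h.inf (Finset.univ.sup N)
    exact hN _ y ((Finset.le_sup (Finset.mem_univ _)).trans y1) y2 rfl
  obtain ⟨c, hc⟩ := h1
  refine ⟨{c}, by simp, p, hp, Y, Sub.refl _, h.good.red (red_join (Red.refl _) h.red),
    fun N => ?_, fun x => ⟨x + 1, fun D _ hD ⟨a, a1, a2⟩ ⟨b, b1, b2⟩ => ?_⟩⟩
  · obtain ⟨y, y1, y2, y3⟩ := hc N
    refine ⟨y, y1, y2, fun D hD hm => ?_⟩
    rw [Finset.eq_of_subset_of_card_le hD (by simp [hm]), y3]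
    simp
  · have := Finset.card_le_one.1 hD.le a a1 b b1
    omega

/-- One step of Mathias forcing. -/
theorem mathias {Z Y : Re} {R : Re → Prop} (hR : IsReq T Z R) (hZ : Good T Z) (hY : Red Y Z)
    (hinf : Inf Y) (σ : Finset ℕ) :
    ∃ ρ N, In ρ Y ∧ ∀ X ∈ Cyl (σ ∪ ρ) (cut Y N), R X := by
  have e : ∀ (τ : Finset ℕ) (Y' X : Re), X ∈ Cyl τ Y' → X = add τ fun a => X a && Y' a :=
    fun τ Y' X hX => funext fun a => re_ext (by
      simp only [add_true, Bool.and_eq_true]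
      exact ⟨fun h => (hX.2 a h).imp id fun h' => ⟨h, h'⟩, fun h => h.elim (hX.1 a) And.left⟩)
  rcases dich (m := 0) (col := fun _ _ => ()) hR hZ hY (fun _ => S1.const _) (pi1_univ Z)
    Finset.univ σ (Set.mem_univ emp) (fun N => let ⟨y, a, b⟩ := hinf N; ⟨y, a, b, fun _ _ _ =>
      Finset.mem_univ _⟩) with ⟨ρ, h1, -, u, hu⟩ | ⟨L, -, h1, h2⟩
  · refine ⟨ρ, u, h1, fun X hX => ?_⟩
    rw [e _ _ X hX]
    exact hu _ fun a ha => by simp [cut, not_le.2 ha]
  · refine ⟨∅, 0, by simp [In], fun X hX => ?_⟩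
    rw [e _ _ X hX, Finset.union_empty]
    refine h2 _ (fun a ha => ?_) fun Q hQ => ?_
    · simp only [Bool.and_eq_true, cut_true] at ha
      exact ha.2.2
    · obtain ⟨q, hq⟩ := (h1 Q hQ).2.1
      exact ⟨q, hq, fun _ _ _ => Finset.mem_univ _⟩

theorem exists_enum {V : Type} [Nonempty V] (J : Finset V) {k : ℕ} (h : J.card ≤ k) :
    ∃ e : ℕ → V, ∀ v ∈ J, ∃ i < k, e i = v := by
  refine ⟨fun i => J.toList.getD i (Classical.arbitrary V), fun v hv => ?_⟩
  obtain ⟨i, hi, e⟩ := List.mem_iff_getElem.1 (Finset.mem_toList.2 hv)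
  exact ⟨i, by simp at hi; omega, by simp [List.getElem?_eq_getElem hi, e]⟩

/-- Conditions for the generic reservoir. -/
structure GCond (T : Tgt) (Z₀ : Re) {κ : Type} (col : Re → Finset ℕ → κ) where
  /-- The oracle. -/
  Z : Re
  /-- The reservoir. -/
  Y : Re
  /-- The class. -/
  Q : Set Re
  /-- The stem. -/
  σ : Finset ℕ
  wf : WF T Z Y Q col
  base : Red Z₀ Z

/-- A good reservoir on which a member of the class has few limit types. -/
theorem types {n : ℕ} {c : ℕ → ℕ} (hS : ∀ j < n, SProp T (j + 1) (c j)) {Z Y : Re} {P : Set Re}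
    {κ : Type} [Finite κ] {col : Re → Finset ℕ → κ} (h : WF T Z Y P col) :
    ∃ p ∈ P, ∃ G, Sub G Y ∧ Inf G ∧ Good T (join Z G) ∧
      ∃ (t : ℕ → ℕ → Finset ℕ → κ) (μ : ℕ → ℕ), ∀ N, ∀ a < n, ∀ D, In D G → (∀ x ∈ D, μ N ≤ x) →
        D.card = a + 1 → ∃ i < c a, ∀ D₀ ⊆ Finset.range N, col p (D₀ ∪ D) = t a i D₀ := by
  classical
  have : Nonempty κ := ⟨col emp ∅⟩
  obtain ⟨R, hR, hX⟩ := exists_reqs T Z
  have step : ∀ (s : ℕ) (d : GCond T Z col), ∃ d' : GCond T Z col,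
      Cyl d'.σ d'.Y ⊆ Cyl d.σ d.Y ∧ d'.Q ⊆ d.Q ∧ (∀ X ∈ Cyl d'.σ d'.Y, R s X) ∧
      ∃ l : ℕ → ℕ → Finset ℕ → κ, ∀ q ∈ d'.Q, ∀ a < n, ∀ D, In D d'.Y → D.card = a + 1 →
        ∃ i < c a, ∀ D₀ ⊆ Finset.range s, col q (D₀ ∪ D) = l a i D₀ := by
    intro s d
    obtain ⟨ρ, N, h1, h2⟩ := mathias ((hR s).red d.base) d.wf.good d.wf.red d.wf.inf d.σ
    obtain ⟨Z', Y', Q, J, a1, a2, a3, a4, a5⟩ := multi hS (Z := d.Z) (Y := cut d.Y N) (P := d.Q)
      (col := fun p D (D₀ : (Finset.range s).powerset) => col p (D₀.1 ∪ D))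
      ⟨d.wf.good, red_cut d.wf.red _, d.wf.inf.cut _, d.wf.ne, d.wf.pi,
        Col.pi fun D₀ => d.wf.col.comp (by fun_prop)⟩
    have a6 : ∀ a, ∃ e : ℕ → (Finset.range s).powerset → κ, a < n → ∀ v ∈ J a,
        ∃ i < c a, e i = v := by
      intro a
      by_cases ha : a < n
      · obtain ⟨e, he⟩ := exists_enum (J a) (a5 a ha).1
        exact ⟨e, fun _ => he⟩
      · exact ⟨Classical.arbitrary _, fun h => absurd h ha⟩
    choose e he using a6
    refine ⟨⟨Z', Y', Q, d.σ ∪ ρ, ⟨a1.good, a1.red, a1.inf, a1.ne, a1.pi, d.wf.col.red a2⟩,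
      d.base.trans a2⟩, cyl_extend (a3.trans (cut_sub _ _)) h1, a4,
      fun X hX => h2 X (cyl_mono a3 hX), fun a i D₀ =>
        if h : D₀ ∈ (Finset.range s).powerset then e a i ⟨D₀, h⟩ else Classical.arbitrary _,
      fun q hq a ha D hD hc => ?_⟩
    obtain ⟨i, hi, e'⟩ := he a ha _ ((a5 a ha).2 q hq D hD hc)
    refine ⟨i, hi, fun D₀ h₀ => ?_⟩
    beta_reduce
    rw [dif_pos (Finset.mem_powerset.2 h₀), e']
  obtain ⟨d, d0, hd⟩ := exists_seq (γ := GCond T Z col) ⟨Z, Y, P, ∅, h, Red.refl _⟩ step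
  obtain ⟨G, hG⟩ := exists_mem_all (K := fun s => Cyl (d s).σ (d s).Y)
    (fun s => (hd s).1) (fun s => cyl_nonempty _ _) fun s => isClosed_cyl _ _
  obtain ⟨p, hp⟩ := exists_mem_all (K := fun s => (d s).Q)
    (fun s => (hd s).2.1) (fun s => (d s).wf.ne) fun s => (d s).wf.pi.isClosed
  obtain ⟨h2, h3⟩ := hX G fun s => (hd s).2.2.1 G (hG (s + 1))
  choose l hl using fun s => (hd s).2.2.2
  have h4 : ∀ a i D₀, ∃ v, ∀ᶠ s in (Filter.hyperfilter ℕ : Filter ℕ), l s a i D₀ = v :=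
    fun a i D₀ => Ultrafilter.eventually_exists_iff.1
      (Filter.Eventually.of_forall fun s => ⟨_, rfl⟩)
  choose t ht using h4
  have h5 : ∀ N, ∃ s, N ≤ s ∧ ∀ a ∈ Finset.range n, ∀ i ∈ Finset.range (c a),
      ∀ D₀ ∈ (Finset.range N).powerset, l s a i D₀ = t a i D₀ := fun N =>
    (((Filter.eventually_ge_atTop N).filter_mono Nat.hyperfilter_le_atTop).and
      ((Filter.eventually_all_finset _).2 fun a _ => (Filter.eventually_all_finset _).2 fun i _ =>
        (Filter.eventually_all_finset _).2 fun D₀ _ => ht a i D₀)).exists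
  choose S hS1 hS2 using h5
  refine ⟨p, by have := hp 0; rwa [d0] at this, G, fun a ha => ?_, h2, h3, t,
    fun N => (d (S N + 1)).σ.sup id + 1, fun N a ha D hD hμ hc => ?_⟩
  · have := (hG 0).2 a ha
    rw [d0] at this
    simpa using this
  · obtain ⟨i, hi, e⟩ := hl (S N) p (hp _) a ha D (fun x hx => ((hG _).2 x (hD x hx)).resolve_left
      fun h' => by
        have h6 := Finset.le_sup (f := id) h'
        have h7 := hμ x hx
        simp only [id] at h6 h7
        omega) hc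
    refine ⟨i, hi, fun D₀ h₀ => ?_⟩
    rw [e D₀ (h₀.trans (Finset.range_mono (hS1 N))),
      hS2 N a (Finset.mem_range.2 ha) i (Finset.mem_range.2 hi) D₀ (Finset.mem_powerset.2 h₀)]

theorem eProp_succ {n : ℕ} (hS : ∀ j < n + 1, SProp T (j + 1) (catalan j)) :
    EProp T (n + 2) (catalan (n + 1)) := by
  classical
  intro Z Y P κ _ col h
  obtain ⟨p, hp, G, h1, h2, h3, t, μ, h4⟩ := types hS h
  let L := (Finset.range (n + 1)).sup catalan
  obtain ⟨H, J, a1, a2, a3, a4, a5⟩ := block hS (fun a => μ (a + 1))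
    (fun D₀ (i : Fin L) => t (n + 1 - D₀.card) i D₀) h3 (red_right _ _) h2
  refine ⟨Finset.univ.biUnion fun j : Fin (n + 1) => (J j).biUnion fun v =>
    (Finset.range (catalan (n - j))).image fun i => if h : i < L then v ⟨i, h⟩ else col p ∅, ?_,
    p, hp, H, a1.trans h1, a3.red (red_join_mono (red_left _ _)), fun N => ?_, fun x => ?_⟩
  · rw [catalan_succ]
    refine Finset.card_biUnion_le.trans (Finset.sum_le_sum fun j _ => ?_)
    refine (Finset.card_biUnion_le_card_mul _ _ (catalan (n - j)) fun v _ => ?_).trans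
      (Nat.mul_le_mul_right _ (a4 j))
    exact Finset.card_image_le.trans (by simp)
  · obtain ⟨y, y1, y2⟩ := a2 N
    refine ⟨y, y1, y2, fun D hD hm => ?_⟩
    have := Finset.card_le_card hD
    simp at this
    omega
  · obtain ⟨N, hN⟩ := a5 x
    refine ⟨N, fun D b1 b2 b3 b4 => ?_⟩
    obtain ⟨D₀, D₁, rfl, -, c2, j, c3, c4⟩ := hN D b1 b3 b4 b2.le
    have hne : D₀.Nonempty := Finset.card_pos.1 (by omega)
    have hdisj : Disjoint D₀ D₁ := Finset.disjoint_left.2 fun a ha hb => (c2 a ha a hb).1.false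
    rw [Finset.card_union_of_disjoint hdisj] at b2
    have hj := j.2
    obtain ⟨i, hi, e⟩ := h4 (D₀.max' hne + 1) (n - j) (by omega) D₁
      ((b1.mono Finset.subset_union_right).sub a1)
      (fun y hy => (c2 _ (D₀.max'_mem hne) y hy).2) (by omega)
    have hL : i < L := hi.trans_le (Finset.le_sup (f := catalan) (Finset.mem_range.2 (by omega)))
    rw [e D₀ fun a ha => Finset.mem_range.2 (Nat.lt_succ_of_le (D₀.le_max' a ha))]
    refine Finset.mem_biUnion.2 ⟨j, Finset.mem_univ _, Finset.mem_biUnion.2 ⟨_, c4,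
      Finset.mem_image.2 ⟨i, Finset.mem_range.2 hi, ?_⟩⟩⟩
    rw [dif_pos hL]
    beta_reduce
    rw [show n + 1 - D₀.card = n - j by omega]

/-- The avoidance theorem with the Catalan bound. -/
theorem sProp_catalan (T : Tgt) (n : ℕ) : SProp T (n + 1) (catalan n) := by
  induction n using Nat.strong_induction_on with
  | _ n ih =>
    refine sProp_of_eProp (by omega) ?_
    cases n with
    | zero => simpa using eProp_one
    | succ n => exact eProp_succ ih

end Pool.Agent.Lib.MP_b33ea7_lc
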