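import Pool.Agent.Lib.MP_5290c5_lc.Sig
import Pool.Agent.Lib.MP_b33ea7_lc.Defs

/-!
Binary coding of finite sets of naturals; relative existential predicates about them.
-/

namespace Pool.Agent.Lib.MP_b33ea7_lc

open Pool.Agent.Shared.Oracle Pool.Agent.Lib.MP_5290c5_lc

attribute [local irreducible] Computable

/-- Binary code of a finite set. -/
def code (s : Finset ℕ) : ℕ := ∑ i ∈ s, 2 ^ i

/-- The finite set with a given binary code. -/
def fs (c : ℕ) : Finset ℕ := Finset.equivBitIndices c

/-- Finite sets are coded in binary. -/
@[reducible] def finsetCodable : Primcodable (Finset ℕ) :=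
  Primcodable.ofEquiv ℕ Finset.equivBitIndices.symm

scoped instance (priority := 2000) instFinsetCodable : Primcodable (Finset ℕ) := finsetCodable

@[simp] theorem fs_code (s : Finset ℕ) : fs (code s) = s :=
  Finset.equivBitIndices.apply_symm_apply s

@[simp] theorem code_fs (c : ℕ) : code (fs c) = c :=
  Finset.equivBitIndices.symm_apply_apply c

theorem mem_fs {c i : ℕ} : i ∈ fs c ↔ c.testBit i = true := by
  simp [fs]

theorem mem_iff_testBit {s : Finset ℕ} {i : ℕ} : i ∈ s ↔ (code s).testBit i = true := by
  rw [← mem_fs, fs_code]

theorem lt_code {s : Finset ℕ} {i : ℕ} (h : i ∈ s) : i < code s :=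
  Finset.lt_geomSum_of_mem le_rfl h

theorem code_mono {s t : Finset ℕ} (h : s ⊆ t) : code s ≤ code t :=
  Finset.sum_le_sum_of_subset h

theorem prim_code : Primrec code := Primrec.of_equiv (e := Finset.equivBitIndices.symm)

theorem prim_fs : Primrec fs := Primrec.of_equiv_symm (e := Finset.equivBitIndices.symm)

variable {α β : Type} [Primcodable α] [Primcodable β]

@[fun_prop] theorem c_code {s : α → Finset ℕ} (hs : Computable s) :
    Computable fun a => code (s a) := prim_code.to_comp.comp hs

@[fun_prop] theorem c_fs {f : α → ℕ} (hf : Computable f) : Computable fun a => fs (f a) :=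
  prim_fs.to_comp.comp hf

@[fun_prop] theorem c_mem {f : α → ℕ} {s : α → Finset ℕ} {inst : ∀ a, Decidable (f a ∈ s a)}
    (hf : Computable f) (hs : Computable s) :
    Computable fun a => @decide (f a ∈ s a) (inst a) :=
  (FP.c_testBit (c_code hs) hf).of_eq fun a => by
    by_cases h : f a ∈ s a
    · simp [h, mem_iff_testBit.1 h]
    · have := mem_iff_testBit.not.1 h
      simp_all

@[fun_prop] theorem c_frange {f : α → ℕ} (hf : Computable f) :
    Computable fun a => Finset.range (f a) :=
  (c_fs (f := fun a => 2 ^ f a - 1) (by fun_prop)).of_eq fun a => by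
    ext i; simp [mem_fs]

@[fun_prop] theorem c_card {s : α → Finset ℕ} (hs : Computable s) :
    Computable fun a => (s a).card := by
  have h : Computable fun a => ((List.range (code (s a))).map
      fun i => (decide (i ∈ s a)).toNat).sum := by fun_prop
  refine h.of_eq fun a => ?_
  have h1 : ∀ n, ((List.range n).map fun i => (decide (i ∈ s a)).toNat).sum =
      ((Finset.range n).filter (· ∈ s a)).card := by
    intro n
    induction n with
    | zero => simp
    | succ n ih =>
      rw [List.range_succ, List.map_append, List.sum_append, ih, Finset.range_add_one,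
        Finset.filter_insert]
      by_cases h : n ∈ s a <;> simp [h]
  rw [h1]
  congr 1
  ext i
  simp only [Finset.mem_filter, Finset.mem_range, and_iff_right_iff_imp]
  exact lt_code

@[fun_prop] theorem c_union {s t : α → Finset ℕ} (hs : Computable s) (ht : Computable t) :
    Computable fun a => s a ∪ t a := by
  have h : Computable fun a => fs ((List.range (code (s a) + code (t a))).map
      fun i => cond (decide (i ∈ s a) || decide (i ∈ t a)) (2 ^ i) 0).sum := by fun_prop
  refine h.of_eq fun a => ?_
  have h1 : ∀ n, ((List.range n).map
      fun i => cond (decide (i ∈ s a) || decide (i ∈ t a)) (2 ^ i) 0).sum =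
      code ((Finset.range n).filter (· ∈ s a ∪ t a)) := by
    intro n
    induction n with
    | zero => simp [code]
    | succ n ih =>
      rw [List.range_succ, List.map_append, List.sum_append, ih, Finset.range_add_one,
        Finset.filter_insert]
      by_cases h : n ∈ s a ∪ t a
      · rw [if_pos h, code, code, Finset.sum_insert (by simp)]
        have : (decide (n ∈ s a) || decide (n ∈ t a)) = true := by simpa using h
        simp [this, add_comm]
      · rw [if_neg h]
        have : (decide (n ∈ s a) || decide (n ∈ t a)) = false := by simpa using h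
        simp [this]
  rw [h1, fs_code]
  ext i
  simp only [Finset.mem_filter, Finset.mem_range, and_iff_right_iff_imp, Finset.mem_union]
  rintro (h | h)
  · have := lt_code h; omega
  · have := lt_code h; omega

@[fun_prop] theorem c_singleton {f : α → ℕ} (hf : Computable f) :
    Computable fun a => ({f a} : Finset ℕ) :=
  (c_fs (f := fun a => 2 ^ f a) (by fun_prop)).of_eq fun a => by
    rw [← fs_code {f a}]; simp [code]

/-- The increasing list of the elements. -/
@[fun_prop] theorem c_sort {s : α → Finset ℕ} (hs : Computable s) :
    Computable fun a => (s a).sort (· ≤ ·) := by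
  have h : Computable fun a => (List.range (code (s a))).foldr
      (fun i l => cond (decide (i ∈ s a)) (i :: l) l) [] := by
    refine FP.c_foldr (h := fun a i l => cond (decide (i ∈ s a)) (i :: l) l) ?_ ?_ ?_ <;> fun_prop
  refine h.of_eq fun a => ?_
  have h1 : ∀ L : List ℕ, L.foldr (fun i l => cond (decide (i ∈ s a)) (i :: l) l) [] =
      L.filter fun i => decide (i ∈ s a) := by
    intro L
    induction L with
    | nil => rfl
    | cons x L ih => by_cases h : x ∈ s a <;> simp [h, ih]
  rw [h1]
  refine List.Perm.eq_of_pairwise (le := (· ≤ ·)) (fun a b _ _ h1 h2 => le_antisymm h1 h2)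
    ((List.pairwise_le_range).filter _) (Finset.pairwise_sort _ _) ?_
  refine (List.perm_ext_iff_of_nodup (List.nodup_range.filter _) (Finset.sort_nodup _ _)).2 ?_
  intro i
  simp only [List.mem_filter, List.mem_range, decide_eq_true_eq, Finset.mem_sort,
    and_iff_right_iff_imp]
  exact lt_code

end Pool.Agent.Lib.MP_b33ea7_lc
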