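import Pool.Agent.Lib.MP_b33ea7_lc.Good

/-!
Thin sets for some member of a closed class of colourings: the forcing with valid sides.
-/

namespace Pool.Agent.Lib.MP_b33ea7_lc

open Pool.Agent.Shared.Oracle Pool.Agent.Lib.MP_5290c5_lc

attribute [local irreducible] Computable

/-- All `m`-element subsets of `R` have a colour in `J`. -/
def Thin (m : ℕ) {κ : Type} (h : Finset ℕ → κ) (J : Finset κ) (R : Re) : Prop :=
  ∀ D, In D R → D.card = m → h D ∈ J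

/-- All `m`-element subsets of the finite set `ρ` have a colour in `J`. -/
def ThinF (m : ℕ) {κ : Type} (h : Finset ℕ → κ) (J : Finset κ) (ρ : Finset ℕ) : Prop :=
  ∀ D ⊆ ρ, D.card = m → h D ∈ J

theorem Thin.thinF {m : ℕ} {κ : Type} {h : Finset ℕ → κ} {J : Finset κ} {R : Re}
    (H : Thin m h J R) {ρ : Finset ℕ} (hρ : In ρ R) : ThinF m h J ρ :=
  fun D hD => H D (hρ.mono hD)

theorem Thin.sub {m : ℕ} {κ : Type} {h : Finset ℕ → κ} {J : Finset κ} {R R' : Re}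
    (H : Thin m h J R) (hR : Sub R' R) : Thin m h J R' :=
  fun D hD => H D (hD.sub hR)

theorem s1_thinF {α : Type} [Primcodable α] {Z : Re} {m : ℕ} {κ : Type} [Finite κ]
    {col : Re → Finset ℕ → κ} (hc : Col Z col) (J : Finset κ) {s : α → Finset ℕ}
    (hs : Computable s) : S1 Z fun a p => ThinF m (col p) J (s a) :=
  (S1.ball_sub (P := fun _ D p => ¬ D.card = m ∨ col p D ∈ J) hs
    (S1.or (S1.dec (by fun_prop)) (hc.pred (· ∈ J) (by fun_prop)))).congr fun _ _ =>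
      forall_congr' fun _ => imp_congr_right fun _ => by tauto

theorem pi1_thin {Z G : Re} {m : ℕ} {κ : Type} [Finite κ] {col : Re → Finset ℕ → κ}
    {P : Set Re} (hP : Pi1 Z P) (hc : Col Z col) (hG : Red G Z) (J : Finset κ) :
    Pi1 Z {p | p ∈ P ∧ Thin m (col p) J G} := by
  have h1 : S1 Z fun (_ : Unit) p => ∃ D, In D G ∧ D.card = m ∧ col p D ∉ J :=
    S1.ex (S1.and (s1_in hG (by fun_prop)) (S1.and (S1.dec (by fun_prop))
      (hc.pred (· ∉ J) (by fun_prop))))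
  convert hP.sep h1 using 4
  simp [Thin]

theorem add_agree {σ : Finset ℕ} {A : Re} {u : ℕ} (h : ∀ a < u, A a = false) :
    ∀ i < u, add σ A i = add σ emp i := fun i hi => by simp [add, emp, h i hi]

theorem add_agree' (σ : Finset ℕ) (A : Re) (u : ℕ) :
    ∀ i < u, add (σ ∪ (Finset.range u).filter fun a => A a = true) emp i = add σ A i :=
  fun i hi => re_ext (by simp [hi])

variable {T : Tgt}

/-- One question: either a finite extension meets the requirement, or finitely many subclasses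
together block every way of failing it. -/
theorem dich {Z G : Re} {R : Re → Prop} (hR : IsReq T Z R) (hZ : Good T Z) (hG : Red G Z)
    {m : ℕ} {κ : Type} [Finite κ] {col : Re → Finset ℕ → κ} (hc : Col Z col) {Q : Set Re}
    (hQ : Pi1 Z Q) (J : Finset κ) (σ : Finset ℕ) {p : Re} (hp : p ∈ Q)
    (hy : ∀ N, ∃ y, N ≤ y ∧ G y = true ∧ ThinF m (col p) J {y}) :
    (∃ ρ, In ρ G ∧ ThinF m (col p) J ρ ∧
      ∃ u, ∀ A : Re, (∀ a < u, A a = false) → R (add (σ ∪ ρ) A)) ∨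
    ∃ L : List (Set Re), L ≠ [] ∧ (∀ Q' ∈ L, Q' ⊆ Q ∧ Q'.Nonempty ∧ Pi1 Z Q') ∧
      ∀ A, Sub A G → (∀ Q' ∈ L, ∃ q ∈ Q', Thin m (col q) J A) → R (add σ A) := by
  classical
  rcases hR with ⟨N, e⟩ | ⟨W, b, hW, e⟩
  · obtain ⟨y, h1, h2, h3⟩ := hy N
    exact Or.inl ⟨{y}, by simpa [In] using h2, h3, 0, fun A _ => (e _).2 ⟨y, h1, by simp⟩⟩
  let V : ℕ × Finset ℕ → Re → Prop := fun x q => ∃ ρ, In ρ G ∧ ThinF m (col q) J ρ ∧
    ∃ B : Finset ℕ, B.card ≤ b ∧ Disjoint B x.2 ∧ W (x.1, B) (add (σ ∪ ρ) emp)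
  have hV : S1 Z V :=
    S1.ex (S1.and (s1_in hG (by fun_prop)) (S1.and (s1_thinF hc J (by fun_prop))
      (S1.ex (S1.and (S1.dec (by fun_prop)) (S1.and (s1_disjoint (by fun_prop) (by fun_prop))
        (s1_at_add hW σ (by fun_prop) (by fun_prop)))))))
  rcases hZ.disperse (hQ.all hV) with ⟨n, hn⟩ | h
  · obtain ⟨ρ, h1, h2, B, h3, h4, h5⟩ := hn p hp
    obtain ⟨u, hu⟩ := hW.use h5
    exact Or.inl ⟨ρ, h1, h2, u, fun A hA =>
      (e _).2 ⟨n, Or.inr ⟨B, h3, hu _ (add_agree hA), h4⟩⟩⟩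
  · obtain ⟨n, hn⟩ := h b
    let F := (Finset.range (2 ^ n)).powerset.filter fun S => ¬ ∀ q ∈ Q, V (n, S) q
    refine Or.inr ⟨F.toList.map fun S => {q | q ∈ Q ∧ ¬ V (n, S) q}, ?_, ?_, ?_⟩
    · obtain ⟨S, h1, h2, -⟩ := hn ∅ (by simp)
      have : S ∈ F.toList := by simpa [F] using ⟨h1, by simpa using h2⟩
      intro h
      rw [List.map_eq_nil_iff.1 h] at this
      simp at this
    · intro Q' hQ'
      obtain ⟨S, hS, rfl⟩ := List.mem_map.1 hQ'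
      have h2 := (Finset.mem_filter.1 (Finset.mem_toList.1 hS)).2
      push Not at h2
      exact ⟨fun q hq => hq.1, h2, hQ.sep (hV.comp (f := fun _ => (n, S)) (by fun_prop))⟩
    · intro A hA hL
      refine (e _).2 ⟨n, Or.inl fun B hB hW' => ?_⟩
      obtain ⟨S, h1, h2, h3⟩ := hn B hB
      obtain ⟨q, ⟨-, hq⟩, hq'⟩ := hL _ (List.mem_map.2 ⟨S, Finset.mem_toList.2
        (Finset.mem_filter.2 ⟨Finset.mem_powerset.2 h1, h2⟩), rfl⟩)
      obtain ⟨u, hu⟩ := hW.use hW'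
      have h4 : In ((Finset.range u).filter fun a => A a = true) A :=
        fun a ha => (Finset.mem_filter.1 ha).2
      exact hq ⟨_, h4.sub hA, hq'.thinF h4, B, hB, h3, hu _ (add_agree' σ A u)⟩

/-- An oracle, a reservoir, and a closed class of colourings. -/
structure Frame where
  /-- The oracle. -/
  Z : Re
  /-- The reservoir. -/
  Y : Re
  /-- The class. -/
  P : Set Re
  /-- The colours. -/
  κ : Type
  fin : Finite κ
  /-- The colouring given by a point. -/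
  col : Re → Finset ℕ → κ

instance (φ : Frame) : Finite φ.κ := φ.fin

/-- The effectiveness conditions on a frame. -/
structure WF (T : Tgt) (Z Y : Re) (P : Set Re) {κ : Type} (col : Re → Finset ℕ → κ) : Prop where
  good : Good T Z
  red : Red Y Z
  inf : Inf Y
  ne : P.Nonempty
  pi : Pi1 Z P
  col : Col Z col

/-- Valid sides. -/
def Valid (T : Tgt) (m ℓ : ℕ) (Z Y : Re) (P : Set Re) {κ : Type} (col : Re → Finset ℕ → κ)
    (J : Finset κ) : Prop :=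
  J.card ≤ ℓ ∧ ∃ p ∈ P, ∃ G, Sub G Y ∧ Good T (join Z G) ∧
    (∀ N, ∃ y, N ≤ y ∧ G y = true ∧ ThinF m (col p) J {y}) ∧
    ∀ x, ∃ N, ∀ D, In D G → D.card = m → (∃ a ∈ D, a ≤ x) → (∃ a ∈ D, N ≤ a) → col p D ∈ J

/-- Allowed sets of a side. -/
def Allowed (m : ℕ) (Y : Re) (P : Set Re) {κ : Type} (col : Re → Finset ℕ → κ) (J : Finset κ)
    (A : Re) : Prop :=
  Sub A Y ∧ ∃ p ∈ P, Thin m (col p) J A

variable {m ℓ : ℕ}

theorem Valid.mono {Z Y Z' Y' : Re} {P P' : Set Re} {κ : Type} {col : Re → Finset ℕ → κ}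
    {J : Finset κ} (h : Valid T m ℓ Z' Y' P' col J) (hZ : Red Z Z') (hY : Sub Y' Y)
    (hP : P' ⊆ P) : Valid T m ℓ Z Y P col J :=
  let ⟨h1, p, hp, G, h2, h3, h4⟩ := h
  ⟨h1, p, hP hp, G, h2.trans hY, h3.red (red_join_mono hZ), h4⟩

theorem Valid.proj {Z Y : Re} {P P' : Set Re} {κ κ' : Type} [DecidableEq κ']
    {col : Re → Finset ℕ → κ} {col' : Re → Finset ℕ → κ'} {J : Finset κ}
    (h : Valid T m ℓ Z Y P col J) (f : κ → κ') (g : Re → Re) (hg : ∀ p ∈ P, g p ∈ P')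
    (e : ∀ p D, col' (g p) D = f (col p D)) : Valid T m ℓ Z Y P' col' (J.image f) := by
  obtain ⟨h1, p, hp, G, h2, h3, h4, h5⟩ := h
  refine ⟨Finset.card_image_le.trans h1, g p, hg p hp, G, h2, h3, fun N => ?_, fun x => ?_⟩
  · obtain ⟨y, a, b, c⟩ := h4 N
    exact ⟨y, a, b, fun D hD hm => e p D ▸ Finset.mem_image_of_mem f (c D hD hm)⟩
  · obtain ⟨N, hN⟩ := h5 x
    exact ⟨N, fun D a b c d => e p D ▸ Finset.mem_image_of_mem f (hN D a b c d)⟩

theorem Allowed.proj {Y : Re} {P P' : Set Re} {κ κ' : Type} [DecidableEq κ']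
    {col : Re → Finset ℕ → κ} {col' : Re → Finset ℕ → κ'} {J : Finset κ} {A : Re}
    (h : Allowed m Y P col J A) (f : κ → κ') (g : Re → Re) (hg : ∀ p ∈ P, g p ∈ P')
    (e : ∀ p D, col' (g p) D = f (col p D)) : Allowed m Y P' col' (J.image f) A :=
  let ⟨h1, p, hp, h2⟩ := h
  ⟨h1, g p, hg p hp, fun D a b => e p D ▸ Finset.mem_image_of_mem f (h2 D a b)⟩

theorem exists_prod (φ ψ : Frame) (hφ : WF T φ.Z φ.Y φ.P φ.col) (hψ : WF T ψ.Z ψ.Y ψ.P ψ.col)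
    (hZ : Red φ.Z ψ.Z) (hY : Sub ψ.Y φ.Y) :
    ∃ χ : Frame, WF T χ.Z χ.Y χ.P χ.col ∧ χ.Z = ψ.Z ∧ χ.Y = ψ.Y ∧
      ∀ J, Valid T m ℓ χ.Z χ.Y χ.P χ.col J → ∃ J₁ J₂, Valid T m ℓ φ.Z φ.Y φ.P φ.col J₁ ∧
        Valid T m ℓ ψ.Z ψ.Y ψ.P ψ.col J₂ ∧ ∀ A, Allowed m χ.Y χ.P χ.col J A →
          Allowed m φ.Y φ.P φ.col J₁ A ∧ Allowed m ψ.Y ψ.P ψ.col J₂ A := by
  classical
  let l : ℕ → ℕ := fun n => 2 * n
  let r : ℕ → ℕ := fun n => 2 * n + 1
  have hl : Computable l := by unfold l; fun_prop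
  have hr : Computable r := by unfold r; fun_prop
  refine ⟨⟨ψ.Z, ψ.Y, {p | p ∘ l ∈ φ.P ∧ p ∘ r ∈ ψ.P}, φ.κ × ψ.κ, inferInstance,
    fun p D => (φ.col (p ∘ l) D, ψ.col (p ∘ r) D)⟩, ⟨hψ.good, hψ.red, hψ.inf, ?_, ?_, ?_⟩,
    rfl, rfl, fun J hJ => ⟨J.image Prod.fst, J.image Prod.snd, ?_, ?_, fun A hA => ⟨?_, ?_⟩⟩⟩
  · obtain ⟨p, hp⟩ := hφ.ne
    obtain ⟨q, hq⟩ := hψ.ne
    have h1 : join p q ∘ l = p := funext fun n => join_even p q n
    have h2 : join p q ∘ r = q := funext fun n => join_odd p q n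
    exact ⟨join p q, by rw [h1]; exact hp, by rw [h2]; exact hq⟩
  · exact (S1.or (S1.reindex (hφ.pi.red hZ) hl) (S1.reindex hψ.pi hr)).congr fun _ p => by
      simp only [Set.mem_ofPred_eq]; tauto
  · exact Col.prod ((hφ.col.red hZ).reindex hl) (hψ.col.reindex hr)
  · exact (hJ.proj Prod.fst (· ∘ l) (fun p hp => hp.1) fun _ _ => rfl).mono hZ hY subset_rfl
  · exact hJ.proj Prod.snd (· ∘ r) (fun p hp => hp.2) fun _ _ => rfl
  · have := hA.proj (P' := φ.P) (col' := φ.col) Prod.fst (· ∘ l) (fun p hp => hp.1) fun _ _ => rfl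
    exact ⟨this.1.trans hY, this.2⟩
  · exact hA.proj Prod.snd (· ∘ r) (fun p hp => hp.2) fun _ _ => rfl

/-- The sets that a condition leaves possible. -/
def Poss (T : Tgt) (m ℓ : ℕ) (Z Y : Re) (P : Set Re) {κ : Type} (col : Re → Finset ℕ → κ)
    (σ : Finset κ → Finset ℕ) : Set Re :=
  {X | ∃ J, Valid T m ℓ Z Y P col J ∧ ∃ A, Allowed m Y P col J A ∧ X = add (σ J) A}

theorem add_add (σ ρ : Finset ℕ) (A : Re) : add (σ ∪ ρ) A = add σ (add ρ A) :=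
  funext fun a => re_ext (by simp [or_assoc])

theorem claim {κ : Type} [Finite κ] {col : Re → Finset ℕ → κ} (σ : Finset κ → Finset ℕ)
    {Z₀ Y₀ : Re} {P₀ : Set Re} {R : Re → Prop} (hR : IsReq T Z₀ R) (U : Finset (Finset κ)) :
    ∀ Z Y Q, WF T Z Y Q col → Red Z₀ Z → Sub Y Y₀ → Q ⊆ P₀ →
      ∃ ψ : Frame, WF T ψ.Z ψ.Y ψ.P ψ.col ∧ Red Z ψ.Z ∧ Sub ψ.Y Y ∧
        ∀ J', Valid T m ℓ ψ.Z ψ.Y ψ.P ψ.col J' →
          (∃ τ, ∀ A, Allowed m ψ.Y ψ.P ψ.col J' A →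
            add τ A ∈ Poss T m ℓ Z₀ Y₀ P₀ col σ ∧ R (add τ A)) ∨
          ∃ J ∉ U, Valid T m ℓ Z Y Q col J ∧ ∀ A, Allowed m ψ.Y ψ.P ψ.col J' A →
            ∃ p ∈ Q, Thin m (col p) J A := by
  classical
  induction U using Finset.induction_on with
  | empty =>
    intro Z Y Q h _ _ _
    exact ⟨⟨Z, Y, Q, κ, inferInstance, col⟩, h, Red.refl _, Sub.refl _, fun J hJ =>
      Or.inr ⟨J, by simp, hJ, fun A hA => hA.2⟩⟩
  | insert J₀ U _ ih =>
    intro Z Y Q h hZ hY hQ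
    by_cases hv : Valid T m ℓ Z Y Q col J₀
    swap
    · obtain ⟨ψ, h1, h2, h3, h4⟩ := ih Z Y Q h hZ hY hQ
      refine ⟨ψ, h1, h2, h3, fun J' hJ' => (h4 J' hJ').imp id ?_⟩
      rintro ⟨J, h5, h6, h7⟩
      refine ⟨J, ?_, h6, h7⟩
      rw [Finset.mem_insert]
      rintro (rfl | h8)
      · exact hv h6
      · exact h5 h8
    have hv₀ := hv.mono hZ hY hQ
    obtain ⟨-, p, hp, G, hG, hgood, hy, hx⟩ := hv
    have hZ₁ : Red Z (join Z G) := red_left _ _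
    have hG₁ : Red G (join Z G) := red_right _ _
    have hinf : Inf G := fun N => let ⟨y, a, b, _⟩ := hy N; ⟨y, a, b⟩
    rcases dich (hR.red (hZ.trans hZ₁)) hgood hG₁ (h.col.red hZ₁) (h.pi.red hZ₁) J₀ (σ J₀) hp hy
      with ⟨ρ, h1, h2, u, hu⟩ | ⟨L, hL0, hL, hR'⟩
    · obtain ⟨N, hN⟩ := hx (ρ.sup id)
      let bad : Re → Prop := fun q => ∃ D : Finset ℕ,
        (∀ a ∈ D, a ∈ ρ ∨ cut G (N + u) a = true) ∧ D.card = m ∧ (∃ a, a ∈ D ∧ a ∈ ρ) ∧
          col q D ∉ J₀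
      have hbad : S1 (join Z G) fun (_ : Unit) q => bad q :=
        S1.ex (S1.and (S1.ball_mem (P := fun _ a _ => a ∈ ρ ∨ cut G (N + u) a = true)
          (by fun_prop) (S1.or (S1.dec (by fun_prop))
            (S1.of_sigIn (sigIn_true (red_cut hG₁ _) (by fun_prop)))))
          (S1.and (S1.dec (by fun_prop)) (S1.and (S1.ex (S1.dec (by fun_prop)))
            ((h.col.red hZ₁).pred (· ∉ J₀) (by fun_prop)))))
      have hp' : ¬ bad p := by
        rintro ⟨D, a1, a2, ⟨a, a3, a4⟩, a5⟩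
        by_cases hD : D ⊆ ρ
        · exact a5 (h2 D hD a2)
        · obtain ⟨c, c1, c2⟩ := Finset.not_subset.1 hD
          have c3 := cut_true.1 ((a1 c c1).resolve_left c2)
          exact a5 (hN D (fun a ha => (a1 a ha).elim (h1 a) fun h => (cut_true.1 h).2) a2
            ⟨a, a3, Finset.le_sup (f := id) a4⟩ ⟨c, c1, by omega⟩)
      have hsub : Sub (cut G (N + u)) Y := (cut_sub _ _).trans hG
      obtain ⟨ψ, h3, h4, h5, h6⟩ := ih (join Z G) (cut G (N + u)) {q | q ∈ Q ∧ ¬ bad q}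
        ⟨hgood, red_cut hG₁ _, hinf.cut _, ⟨p, hp, hp'⟩, (h.pi.red hZ₁).sep hbad, h.col.red hZ₁⟩
        (hZ.trans hZ₁) (hsub.trans hY) fun q hq => hQ hq.1
      refine ⟨ψ, h3, hZ₁.trans h4, h5.trans hsub, fun J' hJ' => ?_⟩
      rcases h6 J' hJ' with h7 | ⟨J, h7, h8, h9⟩
      · exact Or.inl h7
      by_cases hJ : J = J₀
      · subst hJ
        refine Or.inl ⟨σ J ∪ ρ, fun A hA => ⟨⟨J, hv₀, add ρ A, ⟨?_, ?_⟩, add_add _ _ _⟩, ?_⟩⟩
        · intro a ha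
          rcases add_true.1 ha with ha | ha
          · exact hY a (hG a (h1 a ha))
          · exact hY a (hsub a (h5 a (hA.1 a ha)))
        · obtain ⟨q, ⟨q1, q2⟩, q3⟩ := h9 A hA
          refine ⟨q, hQ q1, fun D hD hm => ?_⟩
          by_cases hρ : ∃ a, a ∈ D ∧ a ∈ ρ
          · by_contra hc
            exact q2 ⟨D, fun a ha => (add_true.1 (hD a ha)).imp id fun h => h5 a (hA.1 a h),
              hm, hρ, hc⟩
          · exact q3 D (fun a ha => (add_true.1 (hD a ha)).resolve_left fun h => hρ ⟨a, ha, h⟩) hm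
        · refine hu A fun a ha => ?_
          by_contra hc
          have := (cut_true.1 (h5 a (hA.1 a (by simpa using hc)))).1
          omega
      · refine Or.inr ⟨J, by simp [hJ, h7], h8.mono hZ₁ hsub fun q hq => hq.1, fun A hA => ?_⟩
        obtain ⟨q, q1, q2⟩ := h9 A hA
        exact ⟨q, q1.1, q2⟩
    · have key : ∀ L : List (Set Re), (∀ Q' ∈ L, Q' ⊆ Q ∧ Q'.Nonempty ∧ Pi1 (join Z G) Q') →
          ∃ ψ : Frame, WF T ψ.Z ψ.Y ψ.P ψ.col ∧ Red (join Z G) ψ.Z ∧ Sub ψ.Y G ∧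
            ∀ J', Valid T m ℓ ψ.Z ψ.Y ψ.P ψ.col J' →
              ((∃ τ, ∀ A, Allowed m ψ.Y ψ.P ψ.col J' A →
                add τ A ∈ Poss T m ℓ Z₀ Y₀ P₀ col σ ∧ R (add τ A)) ∨
              ∃ J ∉ insert J₀ U, Valid T m ℓ Z Y Q col J ∧ ∀ A, Allowed m ψ.Y ψ.P ψ.col J' A →
                ∃ p ∈ Q, Thin m (col p) J A) ∨
              ∀ A, Allowed m ψ.Y ψ.P ψ.col J' A → ∀ Q' ∈ L, ∃ q ∈ Q', Thin m (col q) J₀ A := by
        intro L
        induction L with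
        | nil =>
          intro _
          exact ⟨⟨join Z G, G, Q, κ, inferInstance, col⟩,
            ⟨hgood, hG₁, hinf, h.ne, h.pi.red hZ₁, h.col.red hZ₁⟩, Red.refl _, Sub.refl _,
            fun J' _ => Or.inr fun A _ => by simp⟩
        | cons Q' L ihL =>
          intro hL
          obtain ⟨φ, a1, a2, a3, a4⟩ := ihL fun Q'' h => hL Q'' (List.mem_cons_of_mem _ h)
          obtain ⟨b1, b2, b3⟩ := hL Q' List.mem_cons_self
          obtain ⟨ψ, c1, c2, c3, c4⟩ := ih φ.Z φ.Y Q'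
            ⟨a1.good, a1.red, a1.inf, b2, b3.red a2, h.col.red (hZ₁.trans a2)⟩
            (hZ.trans (hZ₁.trans a2)) (a3.trans (hG.trans hY)) (b1.trans hQ)
          obtain ⟨χ, d1, d2, d3, d4⟩ := exists_prod (m := m) (ℓ := ℓ) φ ψ a1 c1 c2 c3
          refine ⟨χ, d1, d2 ▸ a2.trans c2, d3 ▸ c3.trans a3, fun J' hJ' => ?_⟩
          obtain ⟨J₁, J₂, e1, e2, e3⟩ := d4 J' hJ'
          rcases a4 J₁ e1 with (⟨τ, f1⟩ | ⟨J, f1, f2, f3⟩) | f1
          · exact Or.inl (Or.inl ⟨τ, fun A hA => f1 A (e3 A hA).1⟩)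
          · exact Or.inl (Or.inr ⟨J, f1, f2, fun A hA => f3 A (e3 A hA).1⟩)
          rcases c4 J₂ e2 with ⟨τ, g1⟩ | ⟨J, g1, g2, g3⟩
          · exact Or.inl (Or.inl ⟨τ, fun A hA => g1 A (e3 A hA).2⟩)
          by_cases hJ : J = J₀
          · subst hJ
            refine Or.inr fun A hA Q'' hQ'' => ?_
            rcases List.mem_cons.1 hQ'' with rfl | hQ''
            · exact g3 A (e3 A hA).2
            · exact f1 A (e3 A hA).1 Q'' hQ''
          · refine Or.inl (Or.inr ⟨J, by simp [hJ, g1],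
              g2.mono (hZ₁.trans a2) (a3.trans hG) b1, fun A hA => ?_⟩)
            obtain ⟨q, q1, q2⟩ := g3 A (e3 A hA).2
            exact ⟨q, b1 q1, q2⟩
      obtain ⟨ψ, a1, a2, a3, a4⟩ := key L hL
      refine ⟨ψ, a1, hZ₁.trans a2, a3.trans hG, fun J' hJ' => (a4 J' hJ').elim id fun a5 => ?_⟩
      refine Or.inl ⟨σ J₀, fun A hA => ⟨⟨J₀, hv₀, A, ⟨hA.1.trans (a3.trans (hG.trans hY)), ?_⟩,
        rfl⟩, hR' A (hA.1.trans a3) (a5 A hA)⟩⟩
      obtain ⟨Q', hQ'⟩ := List.exists_mem_of_ne_nil L hL0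
      obtain ⟨q, q1, q2⟩ := a5 A hA Q' hQ'
      exact ⟨q, hQ ((hL Q' hQ').1 q1), q2⟩

theorem isClosed_poss {Z Y : Re} {P : Set Re} {κ : Type} [Finite κ] {col : Re → Finset ℕ → κ}
    (h : WF T Z Y P col) (σ : Finset κ → Finset ℕ) : IsClosed (Poss T m ℓ Z Y P col σ) := by
  have h1 : ∀ J : Finset κ, IsClosed {x : Re × Re | Sub x.1 Y ∧ x.2 ∈ P ∧ Thin m (col x.2) J x.1} := by
    intro J
    have e : {x : Re × Re | Sub x.1 Y ∧ x.2 ∈ P ∧ Thin m (col x.2) J x.1} =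
        (Prod.fst ⁻¹' Cyl ∅ Y ∩ Prod.snd ⁻¹' P) ∩ ⋂ D : Finset ℕ, ⋂ (_ : D.card = m),
          ((Prod.fst ⁻¹' ⋃ a ∈ D, {X : Re | X a = true}ᶜ) ∪
            Prod.snd ⁻¹' {p | col p D ∉ J}ᶜ) := by
      ext x
      simp only [Sub, Thin, In, Cyl, Set.mem_ofPred_eq, Set.mem_inter_iff, Set.mem_preimage,
        Set.mem_iInter, Set.mem_union, Set.mem_iUnion, Set.mem_compl_iff, Finset.notMem_empty,
        false_or, not_not, and_assoc, IsEmpty.forall_iff, implies_true, true_and, exists_prop]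
      refine and_congr_right fun _ => and_congr_right fun _ => forall_congr' fun D => ?_
      constructor
      · intro H hm
        by_contra hc
        push Not at hc
        exact hc.2 (H hc.1 hm)
      · intro H h1 hm
        rcases H hm with ⟨a, h2, h3⟩ | h2
        · exact absurd (h1 a h2) h3
        · exact h2
    rw [e]
    refine (((isClosed_cyl _ _).preimage continuous_fst).inter
      (h.pi.isClosed.preimage continuous_snd)).inter
      (isClosed_iInter fun D => isClosed_iInter fun _ => IsClosed.union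
        (IsClosed.preimage continuous_fst ?_) (IsClosed.preimage continuous_snd ?_))
    · exact D.finite_toSet.isClosed_biUnion fun a _ => (isClosed_eq_true a).compl.isClosed
    · exact ((h.col.pred (· ∉ J) Computable.id).isOpen D).isClosed_compl
  have h2 : Poss T m ℓ Z Y P col σ = ⋃ J, ⋃ (_ : Valid T m ℓ Z Y P col J),
      (fun x : Re × Re => add (σ J) x.1) ''
        {x : Re × Re | Sub x.1 Y ∧ x.2 ∈ P ∧ Thin m (col x.2) J x.1} := by
    ext X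
    simp only [Poss, Allowed, Set.mem_ofPred_eq, Set.mem_iUnion, Set.mem_image, exists_prop]
    refine exists_congr fun J => and_congr_right fun _ => ?_
    constructor
    · rintro ⟨A, ⟨a1, p, a2, a3⟩, rfl⟩
      exact ⟨(A, p), ⟨a1, a2, a3⟩, rfl⟩
    · rintro ⟨⟨A, p⟩, ⟨a1, a2, a3⟩, rfl⟩
      exact ⟨A, ⟨a1, p, a2, a3⟩, rfl⟩
  rw [h2]
  have := Fintype.ofFinite κ
  refine isClosed_iUnion_of_finite fun J => isClosed_iUnion_of_finite fun _ =>
    (((h1 J).isCompact).image (continuous_pi fun a => ?_)).isClosed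
  exact (continuous_of_discreteTopology (f := fun b => decide (a ∈ σ J) || b)).comp
    ((continuous_apply a).comp continuous_fst)

/-- Some member of every closed class of colourings has a good infinite thin set. -/
def SProp (T : Tgt) (m ℓ : ℕ) : Prop :=
  ∀ (Z Y : Re) (P : Set Re) (κ : Type) [Finite κ] (col : Re → Finset ℕ → κ), WF T Z Y P col →
    ∃ p ∈ P, ∃ H J, Sub H Y ∧ Inf H ∧ Good T (join Z H) ∧ J.card ≤ ℓ ∧ Thin m (col p) J H

/-- Every frame has a valid side. -/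
def EProp (T : Tgt) (m ℓ : ℕ) : Prop :=
  ∀ (Z Y : Re) (P : Set Re) (κ : Type) [Finite κ] (col : Re → Finset ℕ → κ), WF T Z Y P col →
    ∃ J, Valid T m ℓ Z Y P col J

theorem sProp_of_eProp (hm : m ≠ 0) (hE : EProp T m ℓ) : SProp T m ℓ := by
  classical
  intro Z Y P κ _ col h
  obtain ⟨R, hR, hX⟩ := exists_reqs T Z
  let γ := {c : (φ : Frame) × (Finset φ.κ → Finset ℕ) //
    WF T c.1.Z c.1.Y c.1.P c.1.col ∧ Red Z c.1.Z}
  let K : γ → Set Re := fun c => Poss T m ℓ c.1.1.Z c.1.1.Y c.1.1.P c.1.1.col c.1.2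
  have step : ∀ (s : ℕ) (c : γ), ∃ c' : γ, ∀ X ∈ K c', X ∈ K c ∧ R s X := by
    rintro s ⟨⟨φ, σ⟩, h1, h2⟩
    have := Fintype.ofFinite φ.κ
    obtain ⟨ψ, a1, a2, -, a4⟩ := claim (m := m) (ℓ := ℓ) (Y₀ := φ.Y) (P₀ := φ.P) σ
      ((hR s).red h2) Finset.univ φ.Z φ.Y φ.P h1 (Red.refl _) (Sub.refl _) subset_rfl
    have a5 : ∀ J', ∃ τ, Valid T m ℓ ψ.Z ψ.Y ψ.P ψ.col J' → ∀ A, Allowed m ψ.Y ψ.P ψ.col J' A →
        add τ A ∈ Poss T m ℓ φ.Z φ.Y φ.P φ.col σ ∧ R s (add τ A) := by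
      intro J'
      by_cases hv : Valid T m ℓ ψ.Z ψ.Y ψ.P ψ.col J'
      · rcases a4 J' hv with ⟨τ, hτ⟩ | ⟨J, hJ, -⟩
        · exact ⟨τ, fun _ => hτ⟩
        · exact absurd (Finset.mem_univ J) hJ
      · exact ⟨∅, fun h => absurd h hv⟩
    choose τ hτ using a5
    refine ⟨⟨⟨ψ, τ⟩, a1, h2.trans a2⟩, ?_⟩
    rintro X ⟨J', b1, A, b2, rfl⟩
    exact hτ J' b1 A b2
  obtain ⟨c, c0, hc⟩ := exists_seq (γ := γ) (r := fun s c c' => ∀ X ∈ K c', X ∈ K c ∧ R s X)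
    ⟨⟨⟨Z, Y, P, κ, inferInstance, col⟩, fun _ => ∅⟩, h, Red.refl _⟩ step
  obtain ⟨X, hX'⟩ := exists_mem_all (K := fun s => K (c s)) (fun s X h => (hc s X h).1)
    (fun s => by
      obtain ⟨J, hJ⟩ := hE _ _ _ _ _ (c s).2.1
      obtain ⟨p, hp⟩ := (c s).2.1.ne
      refine ⟨_, J, hJ, emp, ⟨fun a ha => by simp at ha, p, hp, fun D hD hm' => ?_⟩, rfl⟩
      obtain ⟨a, ha⟩ := Finset.card_pos.1 (show 0 < D.card by omega)
      simpa using hD a ha)
    fun s => isClosed_poss (c s).2.1 _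
  obtain ⟨h1, h2⟩ := hX X fun s => (hc s X (hX' (s + 1))).2
  have h3 := hX' 0
  rw [c0] at h3
  obtain ⟨J, hJ, A, ⟨a1, p, a2, a3⟩, e⟩ := h3
  have e' : X = A := e.trans (funext fun a => re_ext (by simp))
  subst e'
  exact ⟨p, a2, X, J, a1, h1, h2, hJ.1, a3⟩

end Pool.Agent.Lib.MP_b33ea7_lc
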