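import Pool.Agent.Lib.MP_b33ea7_lc.Api

/-!
Oracles that give no bounded trace of a fixed sequence of finite sets; requirements, colour
functionals and closed classes.
-/

namespace Pool.Agent.Lib.MP_b33ea7_lc

open Pool.Agent.Shared.Oracle Pool.Agent.Lib.MP_5290c5_lc

attribute [local irreducible] Computable

variable {α β : Type} [Primcodable α] [Primcodable β]

/-- A sequence of sets of numbers, the `n`-th one below `2 ^ n`. -/
structure Tgt where
  /-- The sets. -/
  C : ℕ → Finset ℕ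
  sub : ∀ n, C n ⊆ Finset.range (2 ^ n)

/-- The relation `w` is not a trace with bound `b`. -/
def Tr (T : Tgt) (b : ℕ) (w : ℕ × Finset ℕ → Prop) : Prop :=
  ∃ n, (∀ A : Finset ℕ, A.card ≤ b → ¬ w (n, A)) ∨
    ∃ A : Finset ℕ, A.card ≤ b ∧ w (n, A) ∧ Disjoint A (T.C n)

/-- No relation existential in `Z` is a bounded trace. -/
def Good (T : Tgt) (Z : Re) : Prop := ∀ b w, SigIn Z w → Tr T b w

/-- Infinite sets. -/
def Inf (X : Re) : Prop := ∀ N, ∃ a, N ≤ a ∧ X a = true

/-- Inclusion of sets. -/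
def Sub (X Y : Re) : Prop := ∀ a, X a = true → Y a = true

/-- A finite set is included in a set. -/
def In (D : Finset ℕ) (X : Re) : Prop := ∀ a ∈ D, X a = true

/-- Union of a finite set and a set. -/
def add (σ : Finset ℕ) (R : Re) : Re := fun a => decide (a ∈ σ) || R a

/-- The set without its elements below `N`. -/
def cut (Y : Re) (N : ℕ) : Re := fun a => decide (N ≤ a) && Y a

/-- The empty set. -/
def emp : Re := fun _ => false

@[simp] theorem add_true {σ : Finset ℕ} {R : Re} {a : ℕ} :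
    add σ R a = true ↔ a ∈ σ ∨ R a = true := by simp [add]

@[simp] theorem cut_true {Y : Re} {N a : ℕ} : cut Y N a = true ↔ N ≤ a ∧ Y a = true := by
  simp [cut]

@[simp] theorem emp_true {a : ℕ} : emp a = true ↔ False := by simp [emp]

theorem re_ext {X Y : Re} {a : ℕ} (h : X a = true ↔ Y a = true) : X a = Y a :=
  Bool.eq_iff_iff.2 h

theorem Sub.refl (X : Re) : Sub X X := fun _ h => h

theorem Sub.trans {X Y Z : Re} (h : Sub X Y) (h' : Sub Y Z) : Sub X Z := fun a ha => h' a (h a ha)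

theorem In.sub {D : Finset ℕ} {X Y : Re} (h : In D X) (h' : Sub X Y) : In D Y :=
  fun a ha => h' a (h a ha)

theorem In.mono {D E : Finset ℕ} {X : Re} (h : In E X) (h' : D ⊆ E) : In D X :=
  fun a ha => h a (h' ha)

theorem cut_sub (Y : Re) (N : ℕ) : Sub (cut Y N) Y := fun _ h => (cut_true.1 h).2

theorem Inf.cut {Y : Re} (h : Inf Y) (N : ℕ) : Inf (cut Y N) := fun M =>
  let ⟨a, h1, h2⟩ := h (M + N)
  ⟨a, by omega, cut_true.2 ⟨by omega, h2⟩⟩

theorem sigIn_true {Z Y : Re} (h : Red Y Z) {f : α → ℕ} (hf : Computable f) :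
    SigIn Z fun a => Y (f a) = true := SigIn.orc h hf (Computable.const true)

theorem sigIn_not {Z Y : Re} (h : Red Y Z) {f : α → ℕ} (hf : Computable f) :
    SigIn Z fun a => ¬ Y (f a) = true :=
  (SigIn.orc h hf (Computable.const false)).congr fun a => by simp

theorem red_cut {Y Z : Re} (h : Red Y Z) (N : ℕ) : Red (cut Y N) Z := by
  have h1 : SigIn Z fun x : ℕ × Bool => (N ≤ x.1 ∧ Y x.1 = x.2) ∨ (x.1 < N ∧ x.2 = false) :=
    SigIn.or (SigIn.and (SigIn.dec (by fun_prop)) h) (SigIn.dec (by fun_prop))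
  refine h1.congr fun x => ?_
  by_cases hx : N ≤ x.1
  · simp [cut, hx, not_lt.2 hx]
  · have h2 : cut Y N x.1 = false := by simp [cut, hx]
    rw [h2]
    exact ⟨fun h => h.elim (fun h => absurd h.1 hx) fun h => h.2.symm,
      fun h => Or.inr ⟨not_le.1 hx, h.symm⟩⟩

theorem s1_in {Z Y : Re} (h : Red Y Z) {s : α → Finset ℕ} (hs : Computable s) :
    S1 Z fun a _ => In (s a) Y :=
  S1.ball_mem (P := fun _ j _ => Y j = true) hs (S1.of_sigIn (sigIn_true h (by fun_prop)))

theorem s1_disjoint {Z : Re} {s t : α → Finset ℕ} (hs : Computable s) (ht : Computable t) :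
    S1 Z fun a _ => Disjoint (s a) (t a) :=
  (S1.ball_mem (P := fun a j _ => j ∉ t a) hs (S1.dec (by fun_prop))).congr fun _ _ =>
    Finset.disjoint_left.symm

/-- Evaluating at the union of a fixed finite set and a varying finite set. -/
theorem s1_at_add {Z : Re} {W : β → Re → Prop} (h : S1 Z W) (σ : Finset ℕ) {g : α → β}
    {s : α → Finset ℕ} (hg : Computable g) (hs : Computable s) :
    S1 Z fun a _ => W (g a) (add (σ ∪ s a) emp) :=
  S1.of_sigIn (h.at_comp hg (by unfold add emp; fun_prop))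

variable {T : Tgt}

theorem Good.red {Z Y : Re} (h : Good T Z) (hY : Red Y Z) : Good T Y :=
  fun b w hw => h b w (hw.red hY)

/-- The dispersal lemma. -/
theorem Good.disperse {Z : Re} (h : Good T Z) {w : ℕ × Finset ℕ → Prop} (hw : SigIn Z w) :
    (∃ n, w (n, T.C n)) ∨ ∀ b, ∃ n, ∀ A : Finset ℕ, A.card ≤ b →
      ∃ S ⊆ Finset.range (2 ^ n), ¬ w (n, S) ∧ Disjoint A S := by
  by_contra hcon
  push Not at hcon
  obtain ⟨h1, b, h2⟩ := hcon
  have h3 : SigIn Z fun x : ℕ × Finset ℕ => ∀ S ⊆ Finset.range (2 ^ x.1),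
      w (x.1, S) ∨ ∃ j, j ∈ x.2 ∧ j ∈ S :=
    (S1.ball_sub (P := fun (x : ℕ × Finset ℕ) S _ => w (x.1, S) ∨ ∃ j, j ∈ x.2 ∧ j ∈ S)
      (by fun_prop) (S1.or (S1.of_sigIn (hw.comp (by fun_prop)))
        (S1.ex (S1.dec (by fun_prop))))).to_sigIn
  obtain ⟨n, h4 | ⟨A, -, h4, h5⟩⟩ := h b _ h3
  · obtain ⟨A, hA, h5⟩ := h2 n
    refine h4 A hA fun S hS => ?_
    by_cases h6 : w (n, S)
    · exact Or.inl h6
    · exact Or.inr (Finset.not_disjoint_iff.1 (h5 S hS h6))
  · rcases h4 _ (T.sub n) with h6 | ⟨j, h6, h7⟩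
    · exact h1 n h6
    · exact Finset.disjoint_left.1 h5 h6 h7

/-- Requirements: to have a large element, or to defeat one possible trace. -/
def IsReq (T : Tgt) (Z : Re) (R : Re → Prop) : Prop :=
  (∃ N, ∀ X, R X ↔ ∃ a, N ≤ a ∧ X a = true) ∨
    ∃ (W : ℕ × Finset ℕ → Re → Prop) (b : ℕ), S1 Z W ∧ ∀ X, R X ↔ Tr T b fun x => W x X

theorem IsReq.red {Z Y : Re} {R : Re → Prop} (h : IsReq T Z R) (hZ : Red Z Y) : IsReq T Y R :=
  h.imp id fun ⟨W, b, hW, e⟩ => ⟨W, b, hW.red hZ, e⟩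

theorem exists_reqs (T : Tgt) (Z : Re) : ∃ R : ℕ → Re → Prop, (∀ e, IsReq T Z (R e)) ∧
    ∀ X, (∀ e, R e X) → Inf X ∧ Good T (join Z X) := by
  obtain ⟨W, hW⟩ := (countable_s1 (α := ℕ × Finset ℕ) Z).exists_eq_range ⟨_, S1.true'⟩
  refine ⟨fun e X => if e % 2 = 0 then ∃ a, e / 2 ≤ a ∧ X a = true else
    Tr T (e / 2).unpair.2 fun x => W (e / 2).unpair.1 x X, fun e => ?_, fun X h => ⟨?_, ?_⟩⟩
  · by_cases he : e % 2 = 0
    · exact Or.inl ⟨e / 2, fun X => by simp [he]⟩
    · refine Or.inr ⟨W (e / 2).unpair.1, (e / 2).unpair.2, ?_, fun X => by simp [he]⟩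
      have : W (e / 2).unpair.1 ∈ {P : ℕ × Finset ℕ → Re → Prop | S1 Z P} :=
        hW ▸ Set.mem_range_self _
      exact this
  · intro N
    simpa using h (2 * N)
  · intro b w hw
    obtain ⟨V, hV, e⟩ := s1_of_join hw
    obtain ⟨i, rfl⟩ : V ∈ Set.range W := hW ▸ hV
    have h1 := h (2 * Nat.pair i b + 1)
    have h2 : (2 * Nat.pair i b + 1) % 2 ≠ 0 := by omega
    have h3 : (2 * Nat.pair i b + 1) / 2 = Nat.pair i b := by omega
    simp only [if_neg h2, h3, Nat.unpair_pair] at h1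
    have : w = fun x => W i x X := funext fun x => propext (e x)
    rwa [this]

/-- Dependent choice. -/
theorem exists_seq {γ : Sort*} (c₀ : γ) {r : ℕ → γ → γ → Prop} (h : ∀ s c, ∃ c', r s c c') :
    ∃ c : ℕ → γ, c 0 = c₀ ∧ ∀ s, r s (c s) (c (s + 1)) := by
  choose f hf using h
  exact ⟨fun s => Nat.rec c₀ f s, rfl, fun s => hf s _⟩

theorem exists_mem_all {K : ℕ → Set Re} (h1 : ∀ s, K (s + 1) ⊆ K s) (h2 : ∀ s, (K s).Nonempty)
    (h3 : ∀ s, IsClosed (K s)) : ∃ X, ∀ s, X ∈ K s := by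
  obtain ⟨X, hX⟩ := IsCompact.nonempty_iInter_of_sequence_nonempty_isCompact_isClosed K h1 h2
    (h3 0).isCompact h3
  exact ⟨X, Set.mem_iInter.1 hX⟩

/-- Mathias cylinders. -/
def Cyl (σ : Finset ℕ) (Y : Re) : Set Re := {X | In σ X ∧ ∀ a, X a = true → a ∈ σ ∨ Y a = true}

theorem cyl_nonempty (σ : Finset ℕ) (Y : Re) : (Cyl σ Y).Nonempty :=
  ⟨add σ emp, fun a ha => by simp [ha], fun a ha => by simpa using Or.inl ha⟩

theorem isClosed_eq_true (a : ℕ) : IsClopen {X : Re | X a = true} :=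
  (isClopen_discrete {true}).preimage (continuous_apply a)

theorem isClosed_cyl (σ : Finset ℕ) (Y : Re) : IsClosed (Cyl σ Y) := by
  have : Cyl σ Y = (⋂ a ∈ σ, {X : Re | X a = true}) ∩
      ⋂ a, ⋂ (_ : ¬ (a ∈ σ ∨ Y a = true)), {X : Re | X a = true}ᶜ := by
    ext X
    simp only [Cyl, In, Set.mem_ofPred_eq, Set.mem_inter_iff, Set.mem_iInter, Set.mem_compl_iff]
    exact and_congr_right fun _ => forall_congr' fun a => by tauto
  rw [this]
  exact (isClosed_biInter fun a _ => (isClosed_eq_true a).isClosed).inter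
    (isClosed_iInter fun a => isClosed_iInter fun _ => (isClosed_eq_true a).compl.isClosed)

/-- Closed classes. -/
def Pi1 (Z : Re) (P : Set Re) : Prop := S1 Z fun (_ : Unit) p => p ∉ P

theorem Pi1.red {Z Y : Re} {P : Set Re} (h : Pi1 Z P) (hZ : Red Z Y) : Pi1 Y P := S1.red h hZ

theorem Pi1.s1 {Z : Re} {P : Set Re} (h : Pi1 Z P) : S1 Z fun (_ : α) p => p ∉ P :=
  S1.comp (f := fun _ : α => ()) h (Computable.const ())

theorem Pi1.isClosed {Z : Re} {P : Set Re} (h : Pi1 Z P) : IsClosed P :=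
  ⟨S1.isOpen h ()⟩

theorem pi1_univ (Z : Re) : Pi1 Z Set.univ := S1.false'.congr fun _ _ => by simp

theorem Pi1.sep {Z : Re} {P : Set Re} (h : Pi1 Z P) {q : Re → Prop}
    (hq : S1 Z fun (_ : Unit) p => q p) : Pi1 Z {p | p ∈ P ∧ ¬ q p} :=
  (S1.or h hq).congr fun _ p => by simp only [Set.mem_ofPred_eq]; tauto

theorem Pi1.all {Z : Re} {P : Set Re} (h : Pi1 Z P) {q : α → Re → Prop} (hq : S1 Z q) :
    SigIn Z fun a => ∀ p ∈ P, q a p :=
  (S1.or h.s1 hq).all.congr fun _ => forall_congr' fun _ => by tauto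

/-- Colour functionals. -/
def Col (Z : Re) {κ : Type} (col : Re → Finset ℕ → κ) : Prop :=
  ∀ c, S1 Z fun (D : Finset ℕ) p => col p D = c

namespace Col

variable {Z : Re} {κ κ' : Type} {col : Re → Finset ℕ → κ}

theorem red {Y : Re} (h : Col Z col) (hZ : Red Z Y) : Col Y col := fun c => (h c).red hZ

theorem pred [Finite κ] (h : Col Z col) (q : κ → Prop) {s : α → Finset ℕ} (hs : Computable s) :
    S1 Z fun a p => q (col p (s a)) :=
  (S1.exists_fin (ι := {c // q c}) fun c => (h c.1).comp hs).congr fun _ _ =>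
    ⟨fun ⟨c, e⟩ => e ▸ c.2, fun e => ⟨⟨_, e⟩, rfl⟩⟩

theorem map [Finite κ] (h : Col Z col) (f : κ → κ') : Col Z fun p D => f (col p D) :=
  fun c => h.pred (fun x => f x = c) Computable.id

theorem prod {col' : Re → Finset ℕ → κ'} (h : Col Z col) (h' : Col Z col') :
    Col Z fun p D => (col p D, col' p D) :=
  fun c => ((h c.1).and (h' c.2)).congr fun _ _ => by simp [Prod.ext_iff]

theorem pi {ι : Type} [Finite ι] {col : ι → Re → Finset ℕ → κ} (h : ∀ i, Col Z (col i)) :
    Col Z fun p D i => col i p D :=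
  fun c => (S1.forall_fin fun i => h i (c i)).congr fun _ _ => funext_iff.symm

theorem reindex (h : Col Z col) {g : ℕ → ℕ} (hg : Computable g) :
    Col Z fun p D => col (p ∘ g) D := fun c => (h c).reindex hg

theorem comp (h : Col Z col) {s : Finset ℕ → Finset ℕ} (hs : Computable s) :
    Col Z fun p D => col p (s D) := fun c => (h c).comp hs

end Col

/-- Every colouring is given by a point, through one colour functional. -/
theorem exists_dec (Z : Re) (κ : Type) [Finite κ] [Nonempty κ] :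
    ∃ dec : Re → Finset ℕ → κ, Col Z dec ∧ ∀ F : Finset ℕ → κ, ∃ p, dec p = F := by
  classical
  obtain ⟨e, he⟩ := exists_injective_nat κ
  have hi : Function.Injective fun (a : κ) (c : κ) => decide (c = a) := by
    intro a b h
    simpa using congrFun h a
  refine ⟨fun p D => Function.invFun (fun (a : κ) (c : κ) => decide (c = a))
    fun c => p (Nat.pair (code D) (e c)), Col.map (Col.pi fun c v => ?_) _, fun F => ?_⟩
  · exact S1.pt (by fun_prop) (by fun_prop)
  · refine ⟨fun n => decide (n.unpair.2 = e (F (fs n.unpair.1))), funext fun D => ?_⟩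
    simp only [Nat.unpair_pair, fs_code, he.eq_iff]
    exact Function.leftInverse_invFun hi (F D)

end Pool.Agent.Lib.MP_b33ea7_lc
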