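import Pool.Agent.Lib.MP_b33ea7_lc.Free
import Pool.Agent.Lib.MP_b33ea7_lc.DefsRL

/-!
Shapes given by the minima of a function on the gaps of a list. A Ramsey-like statement meeting
the shape criterion gives arithmetical comprehension; otherwise it holds in every ideal without
arithmetical comprehension that satisfies the thin set principle at the Catalan bound.
-/

namespace Pool.Agent.Lib.MP_b33ea7_lc

open Pool.Agent.Shared.Oracle Pool.Agent.Lib.MP_5290c5_lc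

attribute [local irreducible] Computable

/-- The minimum on `[x, y)` is at most the minimum on `[y, z)`. -/
def Lg (ψ : ℕ → ℕ) (x y z : ℕ) : Prop := ∀ s < z, ¬ (y ≤ s ∧ ∀ a < y, ¬ (x ≤ a ∧ ψ a ≤ ψ s))

/-- The comparison of minima prescribed by a tree. -/
def rho : BinaryTree Unit → ℕ → ℕ → ℕ → Prop
  | .nil, _, _, _ => True
  | .node _ s t, i, j, k => (k ≤ s.numNodes → rho s i j k) ∧
      (s.numNodes < i → rho t (i - (s.numNodes + 1)) (j - (s.numNodes + 1)) (k - (s.numNodes + 1))) ∧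
      (i ≤ s.numNodes → s.numNodes < k → s.numNodes < j)

/-- The sequence `x` has shape `t`. -/
def Can (ψ : ℕ → ℕ) (t : BinaryTree Unit) (x : ℕ → ℕ) : Prop :=
  ∀ i j k, i < j → j ≤ k → k ≤ t.numNodes → (Lg ψ (x i) (x j) (x k) ↔ rho t i j k)

/-- Increasing up to `n`. -/
def Inc (x : ℕ → ℕ) (n : ℕ) : Prop := ∀ i j, i < j → j ≤ n → x i < x j

variable {ψ ψ' φ : ℕ → ℕ} {Z H : Re}

theorem Inc.le {x : ℕ → ℕ} {n i j : ℕ} (h : Inc x n) (h1 : i ≤ j) (h2 : j ≤ n) : x i ≤ x j :=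
  h1.eq_or_lt.elim (fun e => e ▸ le_rfl) fun e => (h i j e h2).le

theorem inc_list {l : List ℕ} {n : ℕ} (h : l.Pairwise (· < ·)) (e : l.length = n + 1) :
    Inc (fun i => l.getD i 0) n := fun i j h1 h2 => by
  have hj : j < l.length := by omega
  have hi : i < l.length := by omega
  simpa [List.getElem?_eq_getElem hi, List.getElem?_eq_getElem hj] using
    List.pairwise_iff_getElem.1 h i j hi hj h1

theorem Can.congr {t : BinaryTree Unit} {x y : ℕ → ℕ} (h : Can ψ t x)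
    (e : ∀ i ≤ t.numNodes, y i = x i) : Can ψ t y := fun i j k h1 h2 h3 => by
  rw [e i (by omega), e j (by omega), e k h3]
  exact h i j k h1 h2 h3

theorem can_node {s t : BinaryTree Unit} {x : ℕ → ℕ} {c : ℕ}
    (hx : Inc x (s.numNodes + t.numNodes + 1)) (hs : Can ψ s x)
    (ht : Can ψ t fun i => x (i + (s.numNodes + 1))) (h1 : x s.numNodes ≤ c)
    (h2 : c < x (s.numNodes + 1)) (h3 : ∀ a, x 0 ≤ a → a < c → ψ c < ψ a)
    (h4 : ∀ a, c ≤ a → a < x (s.numNodes + t.numNodes + 1) → ψ c ≤ ψ a) :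
    Can ψ (.node () s t) x := by
  intro i j k a1 a2 a3
  simp only [BinaryTree.numNodes] at a3
  unfold rho
  by_cases b1 : k ≤ s.numNodes
  · rw [hs i j k a1 a2 b1]
    exact ⟨fun h => ⟨fun _ => h, by omega, by omega⟩, fun h => h.1 b1⟩
  by_cases b2 : s.numNodes < i
  · have := ht (i - (s.numNodes + 1)) (j - (s.numNodes + 1)) (k - (s.numNodes + 1)) (by omega)
      (by omega) (by omega)
    simp only [Nat.sub_add_cancel (show s.numNodes + 1 ≤ i from b2),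
      Nat.sub_add_cancel (show s.numNodes + 1 ≤ j by omega),
      Nat.sub_add_cancel (show s.numNodes + 1 ≤ k by omega)] at this
    rw [this]
    exact ⟨fun h => ⟨by omega, fun _ => h, by omega⟩, fun h => h.2.1 b2⟩
  have c1 := hx.le (i := s.numNodes + 1) (j := k) (by omega) a3
  constructor
  · intro h
    refine ⟨by omega, by omega, fun _ _ => not_le.1 fun b3 => ?_⟩
    have c2 := hx.le b3 (by omega)
    refine h c (by omega) ⟨by omega, fun a b4 b5 => ?_⟩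
    have := h3 a ((hx.le i.zero_le (by omega)).trans b5.1) (by omega)
    omega
  · rintro ⟨-, -, h⟩ u b3 ⟨b4, b5⟩
    have c2 := hx.le (i := s.numNodes + 1) (j := j) (h (by omega) (by omega)) (by omega)
    have c3 := hx.le (i := i) (j := s.numNodes) (by omega) (by omega)
    have c4 := hx.le a3 le_rfl
    exact b5 c (by omega) ⟨by omega, h4 u (by omega) (by omega)⟩

theorem exists_low (ψ : ℕ → ℕ) {S : Set ℕ} (h : S.Nonempty) :
    ∃ c ∈ S, ∀ a ∈ S, ψ c ≤ ψ a ∧ (a < c → ψ c < ψ a) := by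
  obtain ⟨c, h1, h2⟩ := (InvImage.wf (fun a => toLex (ψ a, a)) wellFounded_lt).has_min S h
  refine ⟨c, h1, fun a ha => ?_⟩
  have := h2 a ha
  simp only [InvImage, Prod.Lex.toLex_lt_toLex] at this
  omega

theorem exists_can (ψ : ℕ → ℕ) (n : ℕ) : ∀ x, Inc x n → ∃ t, t.numNodes = n ∧ Can ψ t x := by
  induction n using Nat.strong_induction_on with
  | _ n ih =>
    intro x hx
    rcases n with _ | n
    · exact ⟨.nil, rfl, fun i j k h1 h2 h3 => by simp only [BinaryTree.numNodes] at h3; omega⟩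
    obtain ⟨c, ⟨c1, c2⟩, c3⟩ := exists_low ψ (S := Set.Ico (x 0) (x (n + 1)))
      ⟨x 0, le_rfl, hx 0 _ n.succ_pos le_rfl⟩
    have ex : ∃ p, c < x (p + 1) := ⟨n, c2⟩
    have p1 : Nat.find ex ≤ n := Nat.find_le c2
    have p2 := Nat.find_spec ex
    have p3 : x (Nat.find ex) ≤ c := by
      rcases e : Nat.find ex with _ | p
      · exact c1
      · exact not_lt.1 (Nat.find_min ex (by omega))
    generalize Nat.find ex = p at p1 p2 p3
    obtain ⟨s, rfl, hs⟩ := ih p (by omega) x fun i j h1 h2 => hx i j h1 (by omega)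
    obtain ⟨t, e, ht⟩ := ih (n - s.numNodes) (by omega) (fun i => x (i + (s.numNodes + 1)))
      fun i j h1 h2 => hx _ _ (by omega) (by omega)
    have e' : s.numNodes + t.numNodes + 1 = n + 1 := by omega
    exact ⟨.node () s t, e', can_node (e' ▸ hx) hs ht p3 p2
      (fun a h1 h2 => (c3 a ⟨h1, h2.trans c2⟩).2 h2) fun a h1 h2 => (c3 a ⟨c1.trans h1, e' ▸ h2⟩).1⟩

theorem rho_inj : ∀ {t t' : BinaryTree Unit}, t.numNodes = t'.numNodes →
    (∀ i j k, i < j → j ≤ k → k ≤ t.numNodes → (rho t i j k ↔ rho t' i j k)) → t = t'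
  | .nil, .nil, _, _ => rfl
  | .nil, .node _ _ _, e, _ => by simp [BinaryTree.numNodes] at e
  | .node _ _ _, .nil, e, _ => by simp [BinaryTree.numNodes] at e
  | .node _ s t, .node _ s' t', e, h => by
    simp only [BinaryTree.numNodes] at e h
    have e1 : s.numNodes = s'.numNodes := by
      rcases lt_trichotomy s.numNodes s'.numNodes with h1 | h1 | h1
      · have := ((h s.numNodes _ _ (Nat.lt_succ_self _) (by omega) le_rfl).1
          ⟨by omega, by omega, by omega⟩).2.2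
        omega
      · exact h1
      · have := ((h s'.numNodes _ _ (Nat.lt_succ_self _) (by omega) le_rfl).2
          ⟨by omega, by omega, by omega⟩).2.2
        omega
    rw [rho_inj e1 fun i j k h1 h2 h3 => ⟨fun a => ((h i j k h1 h2 (by omega)).1
        ⟨fun _ => a, by omega, by omega⟩).1 (by omega), fun a => ((h i j k h1 h2 (by omega)).2
        ⟨fun _ => a, by omega, by omega⟩).1 h3⟩,
      rho_inj (t := t) (t' := t') (by omega) fun i j k h1 h2 h3 => ?_]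
    have := h (i + (s.numNodes + 1)) (j + (s.numNodes + 1)) (k + (s.numNodes + 1)) (by omega)
      (by omega) (by omega)
    simp only [rho, ← e1, Nat.add_sub_cancel] at this
    exact ⟨fun a => (this.1 ⟨by omega, fun _ => a, by omega⟩).2.1 (by omega),
      fun a => (this.2 ⟨by omega, fun _ => a, by omega⟩).2.1 (by omega)⟩

theorem Can.unique {t t' : BinaryTree Unit} {x : ℕ → ℕ} (h : Can ψ t x) (h' : Can ψ t' x)
    (e : t.numNodes = t'.numNodes) : t = t' :=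
  rho_inj e fun i j k h1 h2 h3 => (h i j k h1 h2 h3).symm.trans (h' i j k h1 h2 (e ▸ h3))

theorem dec_lg (hψ : ComputableIn {orc Z} ψ) :
    Dec Z fun x : ℕ × ℕ × ℕ => Lg ψ x.1 x.2.1 x.2.2 := by
  have h1 : Dec Z fun x : ℕ × ℕ => ψ x.1 ≤ x.2 :=
    Dec.of_cin (f := fun x : ℕ × ℕ => ψ x.1) (cin_comp hψ ComputableIn.fst)
      (r := fun y => y.1 ≤ y.2.2) (Dec.dec (by fun_prop))
  have h2 : Dec Z fun y : ℕ × (ℕ × ℕ × ℕ) × ℕ =>
      y.2.1.2.1 ≤ y.2.2 ∧ ∀ a < y.2.1.2.1, ¬ (y.2.1.1 ≤ a ∧ ψ a ≤ y.1) :=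
    Dec.and (Dec.dec (by fun_prop)) (Dec.ball (by fun_prop) (Dec.and (Dec.dec (by fun_prop))
      (h1.comp (f := fun u : (ℕ × (ℕ × ℕ × ℕ) × ℕ) × ℕ => (u.2, u.1.1)) (by fun_prop))).not)
  exact Dec.ball (by fun_prop) (Dec.of_cin (f := fun y : (ℕ × ℕ × ℕ) × ℕ => ψ y.2)
    (cin_comp hψ ComputableIn.snd) h2).not

theorem dec_can (hψ : ComputableIn {orc Z} ψ) (t : BinaryTree Unit) :
    Dec Z fun l : List ℕ => Can ψ t fun i => l.getD i 0 := by
  have h1 : ∀ u : ℕ × ℕ × ℕ, Dec Z fun l : List ℕ =>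
      Lg ψ (l.getD u.1 0) (l.getD u.2.1 0) (l.getD u.2.2 0) ↔ rho t u.1 u.2.1 u.2.2 := fun u => by
    have := (dec_lg hψ).comp (f := fun l : List ℕ => (l.getD u.1 0, l.getD u.2.1 0, l.getD u.2.2 0))
      (by fun_prop)
    by_cases h : rho t u.1 u.2.1 u.2.2
    · exact this.congr fun _ => by simp [h]
    · exact this.not.congr fun _ => by simp [h]
  let R := Finset.range (t.numNodes + 1)
  let S := (R ×ˢ R ×ˢ R).filter fun u => u.1 < u.2.1 ∧ u.2.1 ≤ u.2.2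
  have e : ∀ l : List ℕ, (∀ u ∈ S, (Lg ψ (l.getD u.1 0) (l.getD u.2.1 0) (l.getD u.2.2 0) ↔
      rho t u.1 u.2.1 u.2.2)) ↔ Can ψ t fun i => l.getD i 0 := fun l =>
    ⟨fun h i j k h1 h2 h3 => h (i, j, k) (by simp [S, R]; omega), fun h u hu => by
      simp only [S, R, Finset.mem_filter, Finset.mem_product, Finset.mem_range] at hu
      exact h _ _ _ hu.2.1 hu.2.2 (by omega)⟩
  exact ⟨(S1.forall_finset S fun u => S1.of_sigIn (h1 u).1).to_sigIn.congr e,
    (S1.exists_finset S fun u => S1.of_sigIn (h1 u).2).to_sigIn.congr fun l => by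
      beta_reduce; rw [← e]; push Not; rfl⟩

/-- New values are kept, repeated values are replaced by the argument. -/
def psi (φ : ℕ → ℕ) (s : ℕ) : ℕ := cond (decide (∀ a < s, ¬ φ a = φ s)) (φ s) s

theorem cin_psi (hφ : ComputableIn {orc Z} φ) : ComputableIn {orc Z} (psi φ) := by
  have h1 : Dec Z fun x : ℕ × ℕ => φ x.1 = x.2 :=
    Dec.of_cin (f := fun x : ℕ × ℕ => φ x.1) (cin_comp hφ ComputableIn.fst)
      (r := fun y => y.1 = y.2.2) (Dec.dec (by fun_prop))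
  exact cin_cond (Dec.of_cin hφ (r := fun y => ∀ a < y.2, ¬ φ a = y.1) (Dec.ball (by fun_prop)
    (h1.comp (f := fun u : (ℕ × ℕ) × ℕ => (u.2, u.1.1)) (by fun_prop)).not)).cin hφ
    Computable.id.computableIn

theorem wild (hφ : ComputableIn {orc Z} φ) (hn : ¬ SigIn Z fun i => i ∉ Set.range φ)
    {w : ℕ × ℕ → Prop} (hw : SigIn Z w) (ht : ∀ b, ∃ y, w (b, y)) (b₀ : ℕ) :
    ∃ b y, b₀ ≤ b ∧ w (b, y) ∧ ∃ s, y ≤ s ∧ ∀ a, b ≤ a → a < y → psi φ s < psi φ a := by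
  by_contra hc
  push Not at hc
  refine hn ((SigIn.ex (p := fun v (x : ℕ × ℕ) => (b₀ ≤ x.1 ∧ w x) ∧
      (∀ a < x.2, ¬ (x.1 ≤ a ∧ psi φ a ≤ v)) ∧ ∀ s < x.2, ¬ φ s = v)
    (SigIn.and (SigIn.and (SigIn.dec (by fun_prop)) (hw.comp (by fun_prop)))
      (SigIn.and (SigIn.ball (by fun_prop) (Dec.of_cin
        (f := fun x : (ℕ × ℕ × ℕ) × ℕ => psi φ x.2) (cin_comp (cin_psi hφ) ComputableIn.snd)
        (r := fun y => y.2.1.2.1 ≤ y.2.2 ∧ y.1 ≤ y.2.1.1) (Dec.dec (by fun_prop))).2)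
      (SigIn.ball (by fun_prop) (Dec.of_cin (f := fun x : (ℕ × ℕ × ℕ) × ℕ => φ x.2)
        (cin_comp hφ ComputableIn.snd) (r := fun y => y.1 = y.2.1.1)
        (Dec.dec (by fun_prop))).2)))).congr fun v => ?_)
  constructor
  · rintro ⟨⟨b, y⟩, ⟨h1, h2⟩, h3, h4⟩ (ex : ∃ s, φ s = v)
    have h5 := Nat.find_spec ex
    obtain ⟨a, a1, a2, a3⟩ := hc b y h1 h2 (Nat.find ex) (not_lt.1 fun h => h4 _ h h5)
    have h6 : psi φ (Nat.find ex) = v := by
      rw [psi, decide_eq_true fun a ha => h5.symm ▸ Nat.find_min ex ha, cond_true, h5]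
    exact h3 a a2 ⟨a1, h6 ▸ a3⟩
  · intro h
    obtain ⟨N, hN⟩ := exists_big (f := φ) v
    obtain ⟨y, hy⟩ := ht (b₀ + N + v + 1)
    refine ⟨(_, y), ⟨by omega, hy⟩, fun a _ ⟨a1, a2⟩ => ?_, fun s _ e => h ⟨s, e⟩⟩
    by_cases e : ∀ u < a, ¬ φ u = φ a
    · rw [psi, decide_eq_true e, cond_true] at a2
      exact hN a ⟨a2, fun u hu => e u (by omega)⟩
    · rw [psi, decide_eq_false e, cond_false] at a2
      omega

/-- An increasing list of shape `t` in `H` above `b`. -/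
def Wit (ψ : ℕ → ℕ) (H : Re) (t : BinaryTree Unit) (b : ℕ) (l : List ℕ) : Prop :=
  l.length = t.numNodes + 1 ∧ l.Pairwise (· < ·) ∧ (∀ a ∈ l, H a = true ∧ b ≤ a) ∧
    Can ψ t fun i => l.getD i 0

theorem exists_wit (hφ : ComputableIn {orc Z} φ) (hH : Red H Z) (hinf : Inf H)
    (hn : ¬ SigIn Z fun i => i ∉ Set.range φ) (t : BinaryTree Unit) :
    ∀ b, ∃ l, Wit (psi φ) H t b l := by
  induction t with
  | nil =>
    intro b
    obtain ⟨a, h1, h2⟩ := hinf b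
    exact ⟨[a], rfl, by simp, by simpa using ⟨h2, h1⟩,
      fun i j k h1 h2 h3 => by simp only [BinaryTree.numNodes] at h3; omega⟩
  | node _ s t ihs iht =>
    intro b
    obtain ⟨b', y, h1, ⟨l, ⟨a1, a2, a3, a4⟩, a5⟩, u, h2, h3⟩ := wild hφ hn
      (w := fun p => ∃ l, Wit (psi φ) H s p.1 l ∧ ∀ a ∈ l, a ≤ p.2)
      (SigIn.ex (SigIn.and (SigIn.and (SigIn.dec (by fun_prop)) (SigIn.and
        (sigIn_pairwise.comp Computable.snd) (SigIn.and (sigIn_ball_list Computable.snd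
          (SigIn.and (sigIn_true hH Computable.snd) (SigIn.dec (by fun_prop))))
          ((dec_can (cin_psi hφ) s).1.comp Computable.snd))))
        (sigIn_ball_list Computable.snd (SigIn.dec (by fun_prop)))))
      (fun b => by
        obtain ⟨l, hl⟩ := ihs b
        exact ⟨l.sum, l, hl, fun a ha => List.le_sum_of_mem ha⟩) b
    obtain ⟨c, c1, c2⟩ := exists_low (psi φ) (S := Set.Ici y) ⟨y, Set.mem_Ici.2 le_rfl⟩
    simp only [Set.mem_Ici] at c1 c2
    obtain ⟨l', b1, b2, b3, b4⟩ := iht (c + b + 1)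
    have g1 : ∀ i ≤ s.numNodes, (l ++ l').getD i 0 = l.getD i 0 := fun i hi =>
      List.getD_append _ _ _ _ (by omega)
    have g2 : ∀ i, (l ++ l').getD (i + (s.numNodes + 1)) 0 = l'.getD i 0 := fun i => by
      rw [List.getD_append_right _ _ _ _ (by omega), a1, Nat.add_sub_cancel]
    have g3 : (l ++ l').Pairwise (· < ·) := List.pairwise_append.2 ⟨a2, b2, fun a ha a' ha' => by
      have := a5 a ha
      have := (b3 a' ha').2
      omega⟩
    have g4 : (l ++ l').length = s.numNodes + t.numNodes + 1 + 1 := by simp; omega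
    refine ⟨l ++ l', g4, g3, fun a ha => ?_, can_node (c := c) (inc_list g3 g4) (a4.congr g1)
      (b4.congr fun i _ => g2 i) ?_ ?_ (fun a d1 d2 => ?_) fun a d1 _ => (c2 a (c1.trans d1)).1⟩
    · rcases List.mem_append.1 ha with ha | ha
      · exact ⟨(a3 a ha).1, h1.trans (a3 a ha).2⟩
      · exact ⟨(b3 a ha).1, by have := (b3 a ha).2; omega⟩
    · rw [g1 _ le_rfl]
      exact (a5 _ (getD_mem (by omega))).trans c1
    · have := g2 0
      rw [Nat.zero_add] at this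
      have := (b3 _ (getD_mem (l := l') (i := 0) (by omega))).2
      omega
    · rw [g1 0 (Nat.zero_le _)] at d1
      by_cases d3 : a < y
      · exact (c2 u h2).1.trans_lt (h3 a ((a3 _ (getD_mem (by omega))).2.trans d1) d3)
      · exact (c2 a (not_lt.1 d3)).2 d2

/-- On `H` the colour of a list is the colour `χ` gives to its shape. -/
def Dep (n : ℕ) (ψ : ℕ → ℕ) (χ : BinaryTree Unit → ℕ) (f : List ℕ → ℕ) (H : Re) : Prop :=
  ∀ t l, t.numNodes = n → Wit ψ H t 0 l → f l = χ t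

theorem transfer {n : ℕ} {χ : BinaryTree Unit → ℕ} {f f' : List ℕ → ℕ} {H' : Re}
    (h : Dep n ψ χ f H) (h' : Dep n ψ' χ f' H') (hF : ∀ t, ∃ l, Wit ψ' H' t 0 l) {p : Pattern}
    (hp : Meets (n + 1) f H p) : Meets (n + 1) f' H' p := by
  obtain ⟨m, π⟩ := p
  obtain ⟨l, a1, a2, a3, a4⟩ := hp
  rcases m with _ | m
  · refine ⟨[], rfl, by simp, by simp, fun s h1 _ h2 => ?_⟩
    rcases s with _ | ⟨i, s⟩
    · simp at h1
    · exact absurd (h2 i (by simp)) (Nat.not_lt_zero i)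
  obtain ⟨T, rfl, hT⟩ := exists_can ψ m _ (inc_list a2 a1)
  obtain ⟨l', b1, b2, b3, b4⟩ := hF T
  refine ⟨l', b1, b2, fun a ha => (b3 a ha).1, fun s h1 h2 h3 => ?_⟩
  have hs := inc_list h2 h1
  have lt : ∀ i ≤ n, s.getD i 0 ≤ T.numNodes := fun i hi =>
    Nat.lt_succ_iff.1 (h3 _ (getD_mem (by omega)))
  obtain ⟨t, rfl, ht⟩ := exists_can ψ n (fun i => l.getD (s.getD i 0) 0) fun i j c1 c2 =>
    inc_list a2 a1 _ _ (hs i j c1 c2) (lt j c2)
  have key : ∀ {ψ : ℕ → ℕ} {H : Re} {l : List ℕ}, l.length = T.numNodes + 1 → l.Pairwise (· < ·) →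
      (∀ a ∈ l, H a = true) → (Can ψ t fun i => l.getD (s.getD i 0) 0) →
      Wit ψ H t 0 (s.map fun i => l.getD i 0) := by
    intro ψ H l c1 c2 c3 c4
    refine ⟨by simpa using h1, List.pairwise_map.2 (h2.imp_of_mem fun _ hj hij =>
      inc_list c2 c1 _ _ hij (Nat.lt_succ_iff.1 (h3 _ hj))), fun a ha => ?_, c4.congr fun i hi => ?_⟩
    · obtain ⟨i, hi, rfl⟩ := List.mem_map.1 ha
      exact ⟨c3 _ (getD_mem (c1 ▸ h3 i hi)), Nat.zero_le _⟩
    · have hi' : i < s.length := by omega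
      simp [List.getElem?_eq_getElem hi']
  rw [← a4 s h1 h2 h3, h t _ rfl (key a1 a2 a3 ht), h' t _ rfl (key b1 b2 (fun a ha => (b3 a ha).1)
    fun i j k c1 c2 c3 => ?_)]
  have d1 := hs i j c1 (c2.trans c3)
  have d2 := hs.le c2 c3
  rw [b4 _ _ _ d1 d2 (lt k c3), ← hT _ _ _ d1 d2 (lt k c3)]
  exact ht i j k c1 c2 c3

theorem exists_col (hψ : ComputableIn {orc Z} ψ) (n : ℕ) (χ : BinaryTree Unit → ℕ) {k : ℕ}
    (hk : ∀ t, t.numNodes = n → χ t ≤ k) : ∃ g : List ℕ → ℕ, ComputableIn {orc Z} g ∧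
      (∀ l, g l ≤ k) ∧ ∀ H, Dep n ψ χ g H := by
  classical
  let S := BinaryTree.treesOfNumNodesEq n
  have hS : ∀ {t}, t ∈ S ↔ t.numNodes = n := BinaryTree.mem_treesOfNumNodesEq
  let g : List ℕ → ℕ := fun l =>
    if h : ∃ t ∈ S, Can ψ t fun i => l.getD i 0 then χ h.choose else 0
  have hg : ∀ t ∈ S, ∀ l : List ℕ, (Can ψ t fun i => l.getD i 0) → g l = χ t := fun t ht l hl => by
    have h1 : ∃ t ∈ S, Can ψ t fun i => l.getD i 0 := ⟨t, ht, hl⟩
    simp only [g, dif_pos h1]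
    rw [h1.choose_spec.2.unique hl ((hS.1 h1.choose_spec.1).trans (hS.1 ht).symm)]
  have h1 : SigIn Z fun x : List ℕ × ℕ =>
      (∃ t ∈ S, (Can ψ t fun i => x.1.getD i 0) ∧ χ t = x.2) ∨
      ((∀ t ∈ S, ¬ Can ψ t fun i => x.1.getD i 0) ∧ 0 = x.2) :=
    (S1.or (S1.exists_finset S fun t => S1.and (S1.of_sigIn ((dec_can hψ t).1.comp Computable.fst))
      (S1.dec (by fun_prop))) (S1.and (S1.forall_finset S fun t =>
        S1.of_sigIn ((dec_can hψ t).2.comp Computable.fst)) (S1.dec (by fun_prop)))).to_sigIn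
  refine ⟨g, cin_of_graph (h1.congr fun x => ?_), fun l => ?_,
    fun H t l e h => hg t (hS.2 e) l h.2.2.2⟩
  · by_cases h3 : ∃ t ∈ S, Can ψ t fun i => x.1.getD i 0
    · obtain ⟨t, t1, t2⟩ := h3
      exact ⟨fun h => h.elim (fun ⟨t', a, b, c⟩ => (hg t' a _ b).trans c)
        fun h => absurd t2 (h.1 t t1), fun h => Or.inl ⟨t, t1, t2, (hg t t1 _ t2).symm.trans h⟩⟩
    · simp only [g, dif_neg h3]
      exact ⟨fun h => h.elim (fun ⟨t', a, b, _⟩ => absurd ⟨t', a, b⟩ h3) And.right,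
        fun h => Or.inr ⟨fun t a b => h3 ⟨t, a, b⟩, h⟩⟩
  · simp only [g]
    split_ifs with h
    · exact hk _ (hS.1 h.choose_spec.1)
    · exact k.zero_le

theorem exists_full {I : Set Re} (hI : IsIdeal I) (hA : ¬ ACA I) : ∃ ψ : ℕ → ℕ, InI I ψ ∧
    ∀ H ∈ I, {a | H a = true}.Infinite → ∀ t, ∃ l, Wit ψ H t 0 l := by
  classical
  unfold ACA at hA
  push Not at hA
  obtain ⟨φ, ⟨Z, hZ, hφ⟩, hA⟩ := hA
  refine ⟨psi φ, ⟨Z, hZ, cin_psi hφ⟩, fun H hH hinf t => ?_⟩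
  have hf' : ComputableIn {orc (join Z H)} φ := cin_red hφ (red_left _ _)
  exact exists_wit hf' (red_right _ _) (inf_iff.2 hinf) (fun hn =>
    hA (hI.down _ ⟨_, hI.join Z hZ H hH, Dec.cin ⟨SigIn.ex (p := fun i x => φ x = i)
      ((graph_of_cin hf').comp (f := fun x : ℕ × ℕ => (x.2, x.1)) (by fun_prop)), hn⟩⟩)) t 0

/-- The relation prescribed by a tree. -/
def rel (t : BinaryTree Unit) : Set (ℕ × ℕ × ℕ) :=
  {u | u.1 < u.2.1 ∧ u.2.1 ≤ u.2.2 ∧ u.2.2 < t.numNodes + 1 ∧ rho t u.1 u.2.1 u.2.2}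

theorem rel_inj {t t' : BinaryTree Unit} (e : t.numNodes = t'.numNodes) (h : rel t = rel t') :
    t = t' :=
  rho_inj e fun i j k h1 h2 h3 =>
    ⟨fun a => (h.le (show (i, j, k) ∈ rel t from ⟨h1, h2, Nat.lt_succ_of_le h3, a⟩)).2.2.2,
     fun a => (h.ge (show (i, j, k) ∈ rel t' from ⟨h1, h2, Nat.lt_succ_of_le (e ▸ h3), a⟩)).2.2.2⟩

theorem dep_shape (n : ℕ) (ψ : ℕ → ℕ) (χ : Set (ℕ × ℕ × ℕ) → ℕ) (H : Re) :
    Dep n ψ (fun t => χ (rel t)) (fun l => χ (shape ψ l)) H := fun t l _ h => by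
  refine congrArg χ (Set.ext fun u => and_congr_right fun h1 => and_congr_right fun h2 => ?_)
  rw [h.1]
  refine and_congr_right fun h3 => Iff.trans ?_ (h.2.2.2 _ _ _ h1 h2 (Nat.lt_succ_iff.1 h3))
  unfold Lg
  push Not
  exact ⟨fun a s b c => let ⟨x, d, e, f⟩ := a s c b; ⟨x, e, d, f⟩,
    fun a s b c => let ⟨x, d, e, f⟩ := a s c b; ⟨x, e, d, f⟩⟩

theorem aca_of_crit {I : Set Re} (hI : IsIdeal I) {n k : ℕ} {V W : Set Pattern}
    (h : RL I (n + 1) k V W) (hc : Crit (n + 1) k V W) : ACA I := by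
  by_contra hA
  obtain ⟨χ, hk, hV, ψ, p, hp, hm⟩ := hc
  obtain ⟨ψ', ⟨Z, hZ, hψ⟩, hF⟩ := exists_full hI hA
  obtain ⟨g, c1, c2, c3⟩ := exists_col hψ n (fun t => χ (rel t)) (k := k - 1)
    fun t _ => Nat.le_sub_one_of_lt (hk _)
  obtain ⟨H, hH, hinf, hW⟩ := h g ⟨Z, hZ, c1⟩
    (fun l => by have := c2 l; have := hk ∅; omega) fun q hq hm =>
      hV ψ' q hq (transfer (c3 _) (dep_shape n ψ' χ _) (hF _ (hI.down _
        ⟨Z, hZ, (Computable.const true).computableIn⟩) (by simpa using Set.infinite_univ)) hm)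
  exact hW p hp (transfer (dep_shape n ψ χ _) (c3 H) (hF H hH hinf) hm)

theorem rl_of_not_crit {M : Set Re} (hM : IsIdeal M) (hB : ¬ ACA M) {n k : ℕ} {V W : Set Pattern}
    (hc : ¬ Crit (n + 1) k V W) (hR : RT M (n + 1) (catalan n)) : RL M (n + 1) k V W := by
  classical
  rintro f ⟨Z₁, hZ₁, hf⟩ hk hV
  obtain ⟨ψ, ⟨Z₀, hZ₀, hψ⟩, hF⟩ := exists_full hM hB
  have hZ := hM.join _ hZ₀ _ hZ₁
  replace hψ : ComputableIn {orc (join Z₀ Z₁)} ψ := cin_red hψ (red_left _ _)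
  replace hf : ComputableIn {orc (join Z₀ Z₁)} f := cin_red hf (red_right _ _)
  generalize join Z₀ Z₁ = Z at hZ hf hψ
  let S := BinaryTree.treesOfNumNodesEq n
  have hS : ∀ {t}, t ∈ S ↔ t.numNodes = n := BinaryTree.mem_treesOfNumNodesEq
  obtain ⟨g, g1, g2, g3⟩ := exists_col hψ n (fun t => S.toList.idxOf t) (k := S.card)
    fun t _ => List.idxOf_le_length.trans (by simp)
  obtain ⟨H, hH, hinf, J, hJ, hthin⟩ := hR ((S.card + 1) * k) (fun l => g l * k + f l)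
    ⟨Z, hZ, cin_comp₂ (f := fun a b : ℕ => a * k + b)
      (Computable.computableIn (by fun_prop)) g1 hf⟩ fun l => by
      have := Nat.mul_le_mul_right k (g2 l)
      have := hk l
      rw [Nat.add_mul]
      omega
  have mem : ∀ t ∈ S, ∀ l, Wit ψ H t 0 l → S.toList.idxOf t * k + f l ∈ J := by
    intro t ht l hl
    rw [← show g l = S.toList.idxOf t from g3 H t l (hS.1 ht) hl]
    exact hthin l (by rw [hl.1, hS.1 ht]) hl.2.1 fun a ha => (hl.2.2.1 a ha).1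
  have dm : ∀ a a' l l', a * k + f l = a' * k + f l' → a = a' ∧ f l = f l' := by
    intro a a' l l' e
    have e1 := congrArg (· % k) e
    simp only [Nat.mul_add_mod_self_right, Nat.mod_eq_of_lt (hk _)] at e1
    rw [e1] at e
    exact ⟨Nat.eq_of_mul_eq_mul_right (Nat.zero_lt_of_lt (hk l)) (Nat.add_right_cancel e), e1⟩
  choose r hr using hF H hH hinf
  have sur := Finset.surjOn_of_injOn_of_card_le (s := S) (t := J)
    (fun t => S.toList.idxOf t * k + f (r t)) (fun t ht => mem t ht _ (hr t))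
    (fun t ht t' _ e => (List.idxOf_inj (by simpa using ht)).1 (dm _ _ _ _ e).1)
    (by rwa [BinaryTree.treesOfNumNodesEq_card_eq_catalan])
  let χ : Set (ℕ × ℕ × ℕ) → ℕ := fun R =>
    if h : ∃ t, t.numNodes = n ∧ rel t = R then f (r h.choose) else f []
  have hD : Dep n ψ (fun t => χ (rel t)) f H := fun t l e hl => by
    obtain ⟨t', ht', e'⟩ := sur (mem t (hS.2 e) l hl)
    obtain ⟨e1, e2⟩ := dm _ _ _ _ e'
    have h1 : ∃ t', t'.numNodes = n ∧ rel t' = rel t := ⟨t, e, rfl⟩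
    simp only [χ, dif_pos h1]
    rw [← e2, (List.idxOf_inj (by simpa using ht')).1 e1,
      rel_inj (h1.choose_spec.1.trans e.symm) h1.choose_spec.2]
  refine ⟨H, hH, hinf, fun p hp hm => hc ⟨χ, fun R => ?_, fun ψ' q hq hm => ?_, ψ, p, hp, ?_⟩⟩
  · simp only [χ]
    split_ifs <;> exact hk _
  · obtain ⟨l, a1, a2, -, a3⟩ := transfer (dep_shape n ψ' χ _) hD (fun t => ⟨_, hr t⟩) hm
    exact hV q hq ⟨l, a1, a2, fun _ _ => rfl, a3⟩
  · obtain ⟨l, a1, a2, -, a3⟩ := transfer hD (dep_shape n ψ χ H) (fun t => ⟨_, hr t⟩) hm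
    exact ⟨l, a1, a2, fun _ _ => rfl, a3⟩

end Pool.Agent.Lib.MP_b33ea7_lc
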