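import Pool.Agent.Lib.MP_b33ea7_lc.Model

/-!
Below the Catalan bound the thin set principle gives arithmetical comprehension.
-/

namespace Pool.Agent.Lib.MP_b33ea7_lc

open Pool.Agent.Shared.Oracle Pool.Agent.Lib.MP_5290c5_lc

attribute [local irreducible] Computable

variable {α β : Type} [Primcodable α] [Primcodable β]

/-- Decidable relative to `Z`. -/
def Dec (Z : Re) (p : α → Prop) : Prop := SigIn Z p ∧ SigIn Z fun a => ¬ p a

namespace Dec

variable {Z : Re} {p q : α → Prop}

theorem not (h : Dec Z p) : Dec Z fun a => ¬ p a := ⟨h.2, h.1.congr fun _ => not_not.symm⟩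

theorem and (hp : Dec Z p) (hq : Dec Z q) : Dec Z fun a => p a ∧ q a :=
  ⟨hp.1.and hq.1, (hp.2.or hq.2).congr fun _ => not_and_or.symm⟩

theorem comp {p : β → Prop} {f : α → β} (h : Dec Z p) (hf : Computable f) :
    Dec Z fun a => p (f a) := ⟨h.1.comp hf, h.2.comp hf⟩

theorem dec (hp : Computable fun a => @decide (p a) (Classical.propDecidable _)) : Dec Z p :=
  ⟨SigIn.dec hp, SigIn.dec (FP.c_decide_not hp)⟩

theorem ball {p : α → ℕ → Prop} {f : α → ℕ} (hf : Computable f)
    (h : Dec Z fun x : α × ℕ => p x.1 x.2) : Dec Z fun a => ∀ j < f a, p a j :=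
  ⟨SigIn.ball hf h.1, (sigIn_bex (p := fun a j => ¬ p a j) hf h.2).congr fun _ => by simp⟩

theorem congr (h : Dec Z p) (e : ∀ a, p a ↔ q a) : Dec Z q :=
  ⟨h.1.congr e, h.2.congr fun a => not_congr (e a)⟩

theorem of_cin {f : α → β} (hf : ComputableIn {orc Z} f) {r : β × α → Prop}
    (hr : Dec Z r) : Dec Z fun a => r (f a, a) :=
  ⟨(SigIn.ex (p := fun a b => f a = b ∧ r (b, a))
      ((graph_of_cin hf).and (hr.1.comp (by fun_prop)))).congr fun _ => by simp,
    (SigIn.ex (p := fun a b => f a = b ∧ ¬ r (b, a))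
      ((graph_of_cin hf).and (hr.2.comp (by fun_prop)))).congr fun _ => by simp⟩

theorem cin (h : Dec Z p) {inst : ∀ a, Decidable (p a)} :
    ComputableIn {orc Z} fun a => @decide (p a) (inst a) :=
  cin_of_graph ((SigIn.or (SigIn.and (h.1.comp Computable.fst)
    (SigIn.dec (p := fun x : α × Bool => x.2 = true) (by fun_prop)))
    (SigIn.and (h.2.comp Computable.fst) (SigIn.dec (p := fun x : α × Bool => x.2 = false)
      (by fun_prop)))).congr fun x => by
        rcases x with ⟨a, _ | _⟩ <;> simp)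

end Dec

section

variable (f : ℕ → ℕ)

/-- The values up to `x` that appear before `z` appear before `y`. -/
def Large (x y z : ℕ) : Prop := ∀ w < z, ¬ (f w ≤ x ∧ ∀ w' < y, ¬ f w' = f w)

/-- The values up to `x` appear before `y`. -/
def Big (x y : ℕ) : Prop := ∀ w, ¬ (f w ≤ x ∧ ∀ w' < y, ¬ f w' = f w)

/-- The shape of the gaps of a list. -/
def Has : BinaryTree Unit → List ℕ → Prop
  | .nil, l => l.length = 1
  | .node _ s t, l => Has s (l.take (s.numNodes + 1)) ∧ Has t (l.drop (s.numNodes + 1)) ∧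
      Large f (l.getD s.numNodes 0) (l.getD (s.numNodes + 1) 0) (l.getD (l.length - 1) 0) ∧
      ∀ i < s.numNodes, ¬ Large f (l.getD i 0) (l.getD (i + 1) 0) (l.getD (l.length - 1) 0)

variable {f}

theorem Big.mono {x y x' y' : ℕ} (h : Big f x y) (hx : x' ≤ x) (hy : y ≤ y') : Big f x' y' :=
  fun w hw => h w ⟨hw.1.trans hx, fun w' h' => hw.2 w' (by omega)⟩

theorem exists_big (x : ℕ) : ∃ y, Big f x y := by
  have h : ∀ v, ∃ y, ∀ w, f w = v → ∃ w' < y, f w' = v := by
    intro v
    by_cases h : ∃ w, f w = v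
    · obtain ⟨w, hw⟩ := h
      exact ⟨w + 1, fun _ _ => ⟨w, by omega, hw⟩⟩
    · exact ⟨0, fun w hw => absurd ⟨w, hw⟩ h⟩
  choose g hg using h
  refine ⟨(Finset.range (x + 1)).sup g, fun w hw => ?_⟩
  obtain ⟨w', h1, h2⟩ := hg _ w rfl
  exact hw.2 w' (h1.trans_le (Finset.le_sup (Finset.mem_range.2 (Nat.lt_succ_of_le hw.1)))) h2

theorem Large.big {x y z : ℕ} (h : Large f x y z) (hz : Big f x z) : Big f x y := by
  intro w hw
  refine hz w ⟨hw.1, fun w' h1 h2 => h w' h1 ?_⟩
  rw [h2]
  exact hw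

theorem Has.length : ∀ {t : BinaryTree Unit} {l : List ℕ}, Has f t l → l.length = t.numNodes + 1
  | .nil, _, h => h
  | .node _ s t, l, h => by
    have h1 := h.1.length
    have h2 := h.2.1.length
    simp only [List.length_take, List.length_drop, BinaryTree.numNodes] at h1 h2 ⊢
    omega

theorem Has.unique : ∀ {t t' : BinaryTree Unit} {l : List ℕ}, Has f t l → Has f t' l → t = t'
  | .nil, .nil, _, _, _ => rfl
  | .nil, .node _ _ _, _, h, h' => by
    have h1 := h.length.symm.trans h'.length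
    simp [BinaryTree.numNodes] at h1
  | .node _ _ _, .nil, _, h, h' => by
    have h1 := h.length.symm.trans h'.length
    simp [BinaryTree.numNodes] at h1
  | .node _ s t, .node _ s' t', l, h, h' => by
    have e : s.numNodes = s'.numNodes := by
      rcases lt_trichotomy s.numNodes s'.numNodes with h1 | h1 | h1
      · exact absurd h.2.2.1 (h'.2.2.2 _ h1)
      · exact h1
      · exact absurd h'.2.2.1 (h.2.2.2 _ h1)
    rw [h.1.unique (e ▸ h'.1), h.2.1.unique (e ▸ h'.2.1)]

variable {Z : Re}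

theorem dec_large (hf : ComputableIn {orc Z} f) :
    Dec Z fun x : ℕ × ℕ × ℕ => Large f x.1 x.2.1 x.2.2 := by
  have h1 : Dec Z fun x : ℕ × ℕ => f x.1 = x.2 :=
    Dec.of_cin (f := fun x : ℕ × ℕ => f x.1) (cin_comp hf ComputableIn.fst)
      (r := fun y => y.1 = y.2.2) (Dec.dec (by fun_prop))
  have h2 : Dec Z fun y : ℕ × (ℕ × ℕ × ℕ) × ℕ => y.1 ≤ y.2.1.1 ∧ ∀ w' < y.2.1.2.1, ¬ f w' = y.1 :=
    Dec.and (Dec.dec (by fun_prop)) (Dec.ball (by fun_prop)
      (h1.comp (f := fun u : (ℕ × (ℕ × ℕ × ℕ) × ℕ) × ℕ => (u.2, u.1.1)) (by fun_prop)).not)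
  exact Dec.ball (by fun_prop) (Dec.of_cin (f := fun y : (ℕ × ℕ × ℕ) × ℕ => f y.2)
    (cin_comp hf ComputableIn.snd) h2).not

theorem dec_has (hf : ComputableIn {orc Z} f) : ∀ t, Dec Z (Has f t)
  | .nil => Dec.dec (p := fun l : List ℕ => l.length = 1) (by fun_prop)
  | .node _ s t => Dec.and ((dec_has hf s).comp (by fun_prop))
      (Dec.and ((dec_has hf t).comp (by fun_prop))
        (Dec.and ((dec_large hf).comp (f := fun l : List ℕ => (l.getD s.numNodes 0,
          l.getD (s.numNodes + 1) 0, l.getD (l.length - 1) 0)) (by fun_prop))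
        (Dec.ball (by fun_prop) ((dec_large hf).comp (f := fun x : List ℕ × ℕ => (x.1.getD x.2 0,
          x.1.getD (x.2 + 1) 0, x.1.getD (x.1.length - 1) 0)) (by fun_prop)).not)))

theorem getD_mem {l : List ℕ} {i : ℕ} (h : i < l.length) : l.getD i 0 ∈ l := by
  simp [List.getElem?_eq_getElem h]

theorem sigIn_ball_list {p : α → ℕ → Prop} {l : α → List ℕ} (hl : Computable l)
    (h : SigIn Z fun x : α × ℕ => p x.1 x.2) : SigIn Z fun a => ∀ b ∈ l a, p a b :=
  (SigIn.ball (p := fun a i => p a ((l a).getD i 0)) (f := fun a => (l a).length) (by fun_prop)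
    (h.comp (f := fun x : α × ℕ => (x.1, (l x.1).getD x.2 0)) (by fun_prop))).congr fun a =>
      ⟨fun H b hb => by
        obtain ⟨i, hi, rfl⟩ := List.mem_iff_getElem.1 hb
        simpa [List.getElem?_eq_getElem hi] using H i hi, fun H i hi => H _ (getD_mem hi)⟩

theorem sigIn_pairwise : SigIn Z fun l : List ℕ => l.Pairwise (· < ·) :=
  (SigIn.ball (p := fun (l : List ℕ) j => ∀ i < j, l.getD i 0 < l.getD j 0) (f := List.length)
    (by fun_prop) (SigIn.ball (by fun_prop) (SigIn.dec (by fun_prop)))).congr fun l => by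
      rw [List.pairwise_iff_getElem]
      constructor
      · intro H i j hi hj hij
        simpa [List.getElem?_eq_getElem hi, List.getElem?_eq_getElem hj] using H j hj i hij
      · intro H j hj i hij
        have hi : i < l.length := by omega
        simpa [List.getElem?_eq_getElem hi, List.getElem?_eq_getElem hj] using H i j hi hj hij

theorem realize (hf : ComputableIn {orc Z} f) {H : Re} (hH : Red H Z) (hinf : Inf H)
    (hn : ¬ SigIn Z fun i => i ∉ Set.range f) :
    ∀ t b, ∃ l, Has f t l ∧ l.Pairwise (· < ·) ∧ ∀ a ∈ l, H a = true ∧ b ≤ a := by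
  have hyp : ∀ w : ℕ × ℕ → Prop, SigIn Z w → (∀ b, ∃ y, w (b, y)) → ∀ b₀, ∃ b y, b₀ ≤ b ∧
      w (b, y) ∧ ¬ Big f b y := by
    intro w hw ht b₀
    by_contra hc
    push Not at hc
    refine hn ((SigIn.ex (p := fun i y => w (i + b₀, y) ∧ ∀ x < y, ¬ f x = i)
      (SigIn.and (hw.comp (by fun_prop)) (SigIn.ball (by fun_prop)
        (Dec.of_cin (f := fun x : (ℕ × ℕ) × ℕ => f x.2) (cin_comp hf ComputableIn.snd)
          (r := fun y => y.1 = y.2.1.1) (Dec.dec (by fun_prop))).2))).congr fun i => ?_)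
    constructor
    · rintro ⟨y, h1, h2⟩ ⟨x, rfl⟩
      exact hc _ y (by omega) h1 x ⟨by omega, h2⟩
    · intro h
      obtain ⟨y, hy⟩ := ht (i + b₀)
      exact ⟨y, hy, fun x _ hx => h ⟨x, hx⟩⟩
  intro t
  induction t with
  | nil =>
    intro b
    obtain ⟨a, h1, h2⟩ := hinf b
    exact ⟨[a], rfl, by simp, by simpa using ⟨h2, h1⟩⟩
  | node _ s t ihs iht =>
    intro b
    obtain ⟨b', y, h1, ⟨l, a1, a2, a3⟩, h3⟩ := hyp (fun x => ∃ l, Has f s l ∧ l.Pairwise (· < ·) ∧
      ∀ a ∈ l, H a = true ∧ x.1 ≤ a ∧ a ≤ x.2)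
      (SigIn.ex (SigIn.and ((dec_has hf s).1.comp Computable.snd) (SigIn.and
        (sigIn_pairwise.comp Computable.snd) (sigIn_ball_list Computable.snd
          (SigIn.and (sigIn_true hH Computable.snd) (SigIn.dec (by fun_prop)))))))
      (fun b => by
        obtain ⟨l, a1, a2, a3⟩ := ihs b
        exact ⟨l.sum, l, a1, a2, fun a ha => ⟨(a3 a ha).1, (a3 a ha).2, List.le_sum_of_mem ha⟩⟩) b
    obtain ⟨z, hz⟩ := exists_big (f := f) y
    obtain ⟨l', b1, b2, b3⟩ := iht (z + y + b + 1)
    have e1 := a1.length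
    have e2 := b1.length
    have g1 : ∀ i < s.numNodes + 1, (l ++ l').getD i 0 ∈ l := fun i hi => by
      rw [List.getD_append _ _ _ _ (by omega)]
      exact getD_mem (by omega)
    have g2 : ∀ i, s.numNodes + 1 ≤ i → i < (l ++ l').length → (l ++ l').getD i 0 ∈ l' :=
      fun i hi hi' => by
        rw [List.getD_append_right _ _ _ _ (by omega)]
        exact getD_mem (by simp at hi'; omega)
    have g3 := b3 _ (g2 ((l ++ l').length - 1) (by simp; omega) (by simp; omega))
    refine ⟨l ++ l', ⟨?_, ?_, ?_, fun i hi hL => h3 ?_⟩, List.pairwise_append.2 ⟨a2, b2, ?_⟩, ?_⟩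
    · rwa [List.take_left' e1]
    · rwa [List.drop_left' e1]
    · have c1 := a3 _ (g1 s.numNodes (by omega))
      have c2 := b3 _ (g2 (s.numNodes + 1) le_rfl (by simp; omega))
      exact fun w _ => hz.mono c1.2.2 (by omega) w
    · have c1 := a3 _ (g1 i (by omega))
      have c2 := a3 _ (g1 (i + 1) (by omega))
      exact (hL.big (hz.mono c1.2.2 (by omega))).mono c1.2.1 c2.2.2
    · intro a ha a' ha'
      have c1 := (a3 a ha).2.2
      have c2 := (b3 a' ha').2
      omega
    · intro a ha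
      rcases List.mem_append.1 ha with ha | ha
      · exact ⟨(a3 a ha).1, h1.trans (a3 a ha).2.1⟩
      · exact ⟨(b3 a ha).1, by have := (b3 a ha).2; omega⟩

end

theorem aca_of_rt {I : Set Re} (hI : IsIdeal I) {n ℓ : ℕ} (hl : ℓ < catalan n)
    (h : RT I (n + 1) ℓ) : ACA I := by
  classical
  rintro f ⟨Z, hZ, hf⟩
  let S := BinaryTree.treesOfNumNodesEq n
  let g : List ℕ → ℕ := fun l =>
    if h : ∃ t ∈ S, Has f t l then S.toList.idxOf h.choose else S.card
  have hg : ∀ t ∈ S, ∀ l, Has f t l → g l = S.toList.idxOf t := fun t ht l hl => by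
    have h1 : ∃ t ∈ S, Has f t l := ⟨t, ht, hl⟩
    simp only [g, dif_pos h1]
    rw [h1.choose_spec.2.unique hl]
  have h1 : SigIn Z fun x : List ℕ × ℕ => (∃ t ∈ S, Has f t x.1 ∧ S.toList.idxOf t = x.2) ∨
      ((∀ t ∈ S, ¬ Has f t x.1) ∧ S.card = x.2) :=
    (S1.or (S1.exists_finset S fun t => S1.and (S1.of_sigIn ((dec_has hf t).1.comp Computable.fst))
      (S1.dec (by fun_prop))) (S1.and (S1.forall_finset S fun t =>
        S1.of_sigIn ((dec_has hf t).2.comp Computable.fst)) (S1.dec (by fun_prop)))).to_sigIn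
  have h2 : ComputableIn {orc Z} g := cin_of_graph (h1.congr fun x => by
    by_cases h3 : ∃ t ∈ S, Has f t x.1
    · obtain ⟨t, t1, t2⟩ := h3
      rw [hg t t1 _ t2]
      exact ⟨fun h => h.elim (fun ⟨t', a, b, c⟩ => b.unique t2 ▸ c) fun h => absurd t2 (h.1 t t1),
        fun h => Or.inl ⟨t, t1, t2, h⟩⟩
    · simp only [g, dif_neg h3]
      exact ⟨fun h => h.elim (fun ⟨t', a, b, _⟩ => absurd ⟨t', a, b⟩ h3) And.right,
        fun h => Or.inr ⟨fun t a b => h3 ⟨t, a, b⟩, h⟩⟩)
  obtain ⟨H, hH, hinf, J, hJ, hthin⟩ := h (S.card + 1) g ⟨Z, hZ, h2⟩ fun l => by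
    simp only [g]
    split_ifs
    · exact Nat.lt_succ_of_le (List.idxOf_le_length.trans (by simp))
    · omega
  have hf' : ComputableIn {orc (join Z H)} f := cin_red hf (red_left _ _)
  by_cases hn : SigIn (join Z H) fun i => i ∉ Set.range f
  · exact hI.down _ ⟨_, hI.join Z hZ H hH, Dec.cin ⟨SigIn.ex (p := fun i x => f x = i)
      ((graph_of_cin hf').comp (f := fun x : ℕ × ℕ => (x.2, x.1)) (by fun_prop)), hn⟩⟩
  exfalso
  have h3 : S.card ≤ J.card := by
    refine Finset.card_le_card_of_injOn (fun t => S.toList.idxOf t) (fun t ht => ?_)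
      fun t ht t' _ e => (List.idxOf_inj (by simpa using ht)).1 e
    obtain ⟨l, a1, a2, a3⟩ := realize hf' (red_right _ _) (inf_iff.2 hinf) hn t 0
    have := hthin l (by rw [a1.length, BinaryTree.mem_treesOfNumNodesEq.1 ht]) a2
      fun a ha => (a3 a ha).1
    rwa [hg t ht l a1] at this
  rw [BinaryTree.treesOfNumNodesEq_card_eq_catalan] at h3
  omega

theorem wkl_of_aca {I : Set Re} (hI : IsIdeal I) (h : ACA I) : WKL I := by
  classical
  rintro T ⟨Z, hZ, hT⟩ htree hne
  let dead : List Bool → ℕ → Prop := fun σ s =>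
    ∀ m < 2 ^ s, ¬ T (σ ++ seg (Nat.testBit m) s) = true
  have h1 : Dec Z fun x : List Bool × ℕ => dead x.1 x.2 :=
    Dec.ball (by fun_prop) (Dec.of_cin
      (f := fun y : (List Bool × ℕ) × ℕ => T (y.1.1 ++ seg (Nat.testBit y.2) y.1.2))
      (cin_comp hT (Computable.computableIn (by unfold seg; fun_prop)))
      (r := fun y => y.1 = true) (Dec.dec (by fun_prop))).not
  let str : ℕ → List Bool := fun i => (Encodable.decode i).getD []
  let f : ℕ → ℕ := fun x => cond (decide (dead (str x.unpair.1) x.unpair.2)) (x.unpair.1 + 1) 0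
  have hf : ComputableIn {orc Z} f :=
    cin_cond (h1.comp (f := fun x : ℕ => (str x.unpair.1, x.unpair.2))
      (by unfold str; fun_prop)).cin (Computable.computableIn (by fun_prop))
      (Computable.computableIn (by fun_prop))
  have hW := h f ⟨Z, hZ, hf⟩
  generalize hWe : (fun n => decide (n ∈ Set.range f)) = W at hW
  have h2 : ∀ σ : List Bool, W (Encodable.encode σ + 1) = true ↔ ∃ s, dead σ s := by
    intro σ
    rw [← hWe]
    simp only [decide_eq_true_eq, Set.mem_range]
    constructor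
    · rintro ⟨x, hx⟩
      by_cases h3 : dead (str x.unpair.1) x.unpair.2
      · simp only [f, h3, decide_true, cond_true, Nat.add_right_cancel_iff] at hx
        rw [hx] at h3
        exact ⟨_, by simpa [str] using h3⟩
      · simp [f, h3] at hx
    · rintro ⟨s, hs⟩
      exact ⟨Nat.pair (Encodable.encode σ) s, by simp [f, str, hs]⟩
  have h3 : ∀ σ s, dead σ s ↔ ∀ τ : List Bool, τ.length = s → ¬ T (σ ++ τ) = true := by
    refine fun σ s => ⟨fun H τ hτ => ?_, fun H m _ => H _ (by simp)⟩
    obtain ⟨m, m1, m2⟩ := exists_bits (fun i => τ.getD i false) s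
    have h4 := H m m1
    have h5 : seg (fun i => τ.getD i false) s = τ := by
      apply List.ext_getElem (by simp [hτ])
      intro i _ h6
      simp [seg, List.getElem?_eq_getElem h6]
    rwa [m2 s le_rfl, h5] at h4
  have h4 : ∀ σ s s', s ≤ s' → dead σ s → dead σ s' := by
    intro σ s s' hs H
    rw [h3] at H ⊢
    intro τ hτ h5
    refine H (τ.take s) (by simp; omega) (htree _ _ ?_ h5)
    exact (List.prefix_append_right_inj σ).2 (List.take_prefix _ _)
  let u : ℕ → List Bool := fun n => n.rec [] fun _ σ =>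
    σ ++ [W (Encodable.encode (σ ++ [false]) + 1)]
  have hu : ComputableIn {orc W} u :=
    cin_nat_rec (f := fun n : ℕ => n) (g := fun _ => ([] : List Bool))
      (h := fun _ (x : ℕ × List Bool) => x.2 ++ [W (Encodable.encode (x.2 ++ [false]) + 1)])
      Computable.id.computableIn (Computable.const _).computableIn
      (cin_comp₂ (f := fun (σ : List Bool) (b : Bool) => σ ++ [b])
        (Computable.computableIn (by fun_prop))
        (Computable.computableIn (f := fun y : ℕ × ℕ × List Bool => y.2.2) (by fun_prop))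
        (cin_comp (cin_orc rfl) (Computable.computableIn
          (f := fun y : ℕ × ℕ × List Bool => Encodable.encode (y.2.2 ++ [false]) + 1)
          (by fun_prop))))
  have h5 : ∀ n, ¬ ∃ s, dead (u n) s := by
    intro n
    induction n with
    | zero =>
      rintro ⟨s, hs⟩
      obtain ⟨v, hv⟩ := hne s
      exact (h3 _ _).1 hs (List.ofFn v) (by simp) (by simpa [level, u] using hv)
    | succ n ih =>
      rintro ⟨s, hs⟩
      have e : u (n + 1) = u n ++ [W (Encodable.encode (u n ++ [false]) + 1)] := rfl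
      rw [e] at hs
      cases hb : W (Encodable.encode (u n ++ [false]) + 1) with
      | false =>
        rw [hb] at hs
        have := (h2 _).2 ⟨s, hs⟩
        simp [hb] at this
      | true =>
        rw [hb] at hs
        obtain ⟨s', hs'⟩ := (h2 _).1 hb
        refine ih ⟨s + s' + 1, (h3 _ _).2 fun τ hτ => ?_⟩
        rcases τ with _ | ⟨_ | _, τ⟩
        · simp at hτ
        · simpa using (h3 _ _).1 (h4 _ _ (s + s') (by omega) hs') τ (by simpa using hτ)
        · simpa using (h3 _ _).1 (h4 _ _ (s + s') (by omega) hs) τ (by simpa using hτ)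
  refine ⟨fun n => W (Encodable.encode (u n ++ [false]) + 1), hI.down _ ⟨W, hW, cin_comp (cin_orc rfl)
    (cin_comp (f := fun σ : List Bool => Encodable.encode (σ ++ [false]) + 1)
      (Computable.computableIn (by fun_prop)) hu)⟩, fun L => ?_⟩
  have h6 : ∀ L, (List.range L).map (fun n => W (Encodable.encode (u n ++ [false]) + 1)) = u L := by
    intro L
    induction L with
    | zero => rfl
    | succ L ih => rw [List.range_succ, List.map_append, ih]; rfl
  rw [h6]
  by_contra h7
  exact h5 L ⟨0, (h3 _ _).2 fun τ hτ => by simpa [List.length_eq_zero_iff.1 hτ] using h7⟩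

theorem wwkl_of_wkl {I : Set Re} (h : WKL I) : WWKL I := by
  rintro T h1 h2 ⟨r, hr⟩
  refine h T h1 h2 fun L => Finset.card_pos.1 (Nat.pos_of_ne_zero fun h0 => ?_)
  have := hr L
  rw [h0] at this
  simp at this

end Pool.Agent.Lib.MP_b33ea7_lc
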