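import Pool.Agent.Lib.MP_b33ea7_lc.Exist

/-!
A Turing ideal of good sets that satisfies all thin set principles with the Catalan bounds.
-/

namespace Pool.Agent.Lib.MP_b33ea7_lc

open Pool.Agent.Shared.Oracle Pool.Agent.Lib.MP_5290c5_lc

attribute [local irreducible] Computable

variable {T : Tgt}

theorem cin_red {α β : Type} [Primcodable α] [Primcodable β] {f : α → β} {X Z : Re}
    (h : ComputableIn {orc X} f) (hX : Red X Z) : ComputableIn {orc Z} f :=
  cin_of_graph ((graph_of_cin h).red hX)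

theorem countable_cin {α β : Type} [Primcodable α] [Primcodable β] (Z : Re) :
    {f : α → β | ComputableIn {orc Z} f}.Countable := by
  refine Set.countable_of_injective_of_countable_image
    (f := fun (f : α → β) (x : α × β) => f x.1 = x.2) ?_ ((countable_sigIn Z).mono ?_)
  · intro f _ g _ e
    funext a
    exact ((congrFun e (a, f a)).mp rfl).symm
  · rintro _ ⟨f, hf, rfl⟩
    exact graph_of_cin hf

theorem inf_iff {X : Re} : Inf X ↔ {a | X a = true}.Infinite := by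
  constructor
  · intro h
    exact Set.infinite_of_forall_exists_gt fun N =>
      let ⟨a, h1, h2⟩ := h (N + 1); ⟨a, h2, h1⟩
  · intro h N
    obtain ⟨a, h1, h2⟩ := h.exists_gt N
    exact ⟨a, h2.le, h1⟩

/-- `H` solves the instance `f`. -/
def Sol (n : ℕ) (f : List ℕ → ℕ) (H : Re) : Prop :=
  ∀ k, (∀ l, f l < k) → Inf H ∧ ∃ J : Finset ℕ, J.card ≤ catalan n ∧
    ∀ l : List ℕ, l.length = n + 1 → l.Pairwise (· < ·) → (∀ a ∈ l, H a = true) → f l ∈ J

theorem exists_sol {Z : Re} (hZ : Good T Z) (n : ℕ) {f : List ℕ → ℕ}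
    (hf : ComputableIn {orc Z} f) : ∃ H, Good T (join Z H) ∧ Sol n f H := by
  by_cases hk : ∃ k, ∀ l, f l < k
  swap
  · exact ⟨Z, hZ.red (red_join (Red.refl _) (Red.refl _)), fun k h => absurd ⟨k, h⟩ hk⟩
  obtain ⟨k, hk⟩ := hk
  obtain ⟨p, -, H, J, -, h1, h2, h3, h4⟩ := sProp_catalan T n Z (fun _ => true) Set.univ (Fin k)
    (fun _ D => ⟨f (D.sort (· ≤ ·)), hk _⟩)
    ⟨hZ, SigIn.dec (by fun_prop), fun N => ⟨N, le_rfl, rfl⟩, Set.univ_nonempty, pi1_univ Z,
      fun c => (S1.of_sigIn ((graph_of_cin hf).comp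
        (f := fun D : Finset ℕ => (D.sort (· ≤ ·), c.1)) (by fun_prop))).congr fun _ _ => by
          simp [Fin.ext_iff]⟩
  refine ⟨H, h2, fun _ _ => ⟨h1, J.image Fin.val, Finset.card_image_le.trans h3,
    fun l a1 a2 a3 => ?_⟩⟩
  have a4 : l.Nodup := a2.imp ne_of_lt
  have a5 := h4 l.toFinset (fun a ha => a3 a (List.mem_toFinset.1 ha))
    (by rw [List.toFinset_card_of_nodup a4, a1])
  refine Finset.mem_image.2 ⟨_, a5, ?_⟩
  simp only
  rw [(List.toFinset_sort (· ≤ ·) a4).2 (a2.imp le_of_lt)]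

theorem exists_model (h0 : Good T emp) : ∃ I : Set Re, IsIdeal I ∧
    (∀ n, RT I (n + 1) (catalan n)) ∧ ∀ X ∈ I, Good T X := by
  have h1 : ∀ Z : Re, ∃ E : ℕ → ℕ × (List ℕ → ℕ),
      (Set.univ ×ˢ {f : List ℕ → ℕ | ComputableIn {orc Z} f}) = Set.range E := fun Z =>
    (Set.countable_univ.prod (countable_cin Z)).exists_eq_range
      ⟨(0, fun _ => 0), trivial, (Computable.const 0).computableIn⟩
  choose E hE using h1
  let γ := {c : ℕ → Re // ∀ i, Good T (c i) ∧ Red (c i) (c (i + 1))}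
  have mono : ∀ (c : γ) {i j}, i ≤ j → Red (c.1 i) (c.1 j) := by
    intro c i j h
    induction h with
    | refl => exact Red.refl _
    | step _ ih => exact ih.trans (c.2 _).2
  have step : ∀ (s : ℕ) (c : γ), ∃ c' : γ, (∀ i ≤ s, c'.1 i = c.1 i) ∧ ∃ H, Red H (c'.1 (s + 1)) ∧
      Sol (E (c.1 s.unpair.1) s.unpair.2).1 (E (c.1 s.unpair.1) s.unpair.2).2 H := by
    intro s c
    have h2 : E (c.1 s.unpair.1) s.unpair.2 ∈
        Set.univ ×ˢ {f : List ℕ → ℕ | ComputableIn {orc (c.1 s.unpair.1)} f} :=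
      hE _ ▸ Set.mem_range_self _
    obtain ⟨H, h3, h4⟩ := exists_sol (c.2 s).1 (E (c.1 s.unpair.1) s.unpair.2).1
      (cin_red h2.2 (mono c (Nat.unpair_left_le s)))
    refine ⟨⟨fun i => if i ≤ s then c.1 i else join (c.1 s) H, fun i => ⟨?_, ?_⟩⟩,
      fun i hi => if_pos hi, H, ?_, h4⟩
    · beta_reduce
      split_ifs
      · exact (c.2 i).1
      · exact h3
    · beta_reduce
      by_cases h5 : i + 1 ≤ s
      · rw [if_pos h5, if_pos (by omega)]
        exact (c.2 i).2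
      · rw [if_neg h5]
        split_ifs with h6
        · exact (mono c h6).trans (red_left _ _)
        · exact Red.refl _
    · simp only [Nat.succ_le_iff, lt_irrefl, if_false]
      exact red_right _ _
  obtain ⟨c, -, hc⟩ := exists_seq (γ := γ) ⟨fun _ => emp, fun _ => ⟨h0, Red.refl _⟩⟩ step
  have stab : ∀ {i s}, i ≤ s → (c s).1 i = (c i).1 i := by
    intro i s h
    induction h with
    | refl => rfl
    | step h ih => rw [(hc _).1 i h, ih]
  have mono' : ∀ {i j}, i ≤ j → Red ((c i).1 i) ((c j).1 j) := fun h =>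
    stab h ▸ mono (c _) h
  refine ⟨{X | ∃ s, Red X ((c s).1 s)}, ⟨⟨_, 0, Red.refl _⟩, ?_, ?_⟩, ?_, ?_⟩
  · rintro Y ⟨X, ⟨s, h1⟩, h2⟩
    exact ⟨s, (red_iff.2 h2).trans h1⟩
  · rintro X ⟨s, h1⟩ Y ⟨t, h2⟩
    exact ⟨max s t, red_join (h1.trans (mono' (le_max_left _ _)))
      (h2.trans (mono' (le_max_right _ _)))⟩
  · rintro n k f ⟨X, ⟨i, h1⟩, h2⟩ hk
    obtain ⟨j, hj⟩ : (n, f) ∈ Set.range (E ((c i).1 i)) := hE _ ▸ ⟨trivial, cin_red h2 h1⟩
    obtain ⟨H, h3, h4⟩ := (hc (Nat.pair i j)).2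
    simp only [Nat.unpair_pair] at h4
    rw [stab (Nat.left_le_pair i j), hj] at h4
    exact ⟨H, ⟨_, h3⟩, inf_iff.1 (h4 k hk).1, (h4 k hk).2⟩
  · rintro X ⟨s, h1⟩
    exact ((c s).2 s).1.red h1

end Pool.Agent.Lib.MP_b33ea7_lc
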